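import Pool.Agent.Work.MP_1ce445_win.Interface

/-!
Block ALW of the table `win_blocks` (MP_1ce445_co): all cases, with or without a complete graph on
four points of present pairs.
-/

namespace Pool.Agent.Work.MP_1ce445_win

open Finset Pool.Agent.Work.MP_1ce445_co_56 Pool.Agent.Work.MP_1ce445_lin
open Pool.Agent.Work.MP_1ce445_k4 (R ad Is LB3 LBT LC5 LG6 LG7 LKE LK5)

open Classical in
theorem ALW_few {V : Type} [Fintype V] {k : ℕ} {M : Finset (Fin k)} {T : V → Finset (Fin k)}
    {W : V → V → Prop} {c κ : ℝ} (h : MP_1ce445_k6.Sy M T W c κ) (v : V) :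
    ((univ.filter (fun w => T v ∩ T w = ∅)).card : ℝ) ≤ c * Fintype.card V := by
  have h1 : (univ.filter (fun w => T v ∩ T w = ∅)) ⊆ univ.filter (fun w => ¬ W v w) := by
    intro w hw
    have h2 : T v ∩ T w = ∅ := (Finset.mem_filter.1 hw).2
    refine Finset.mem_filter.2 ⟨Finset.mem_univ w, fun h3 => ?_⟩
    have h4 := h.meet v w h3
    rw [h2] at h4
    exact Finset.not_nonempty_empty h4
  have h2 : (univ.filter (fun w => W v w)).card + (univ.filter (fun w => ¬ W v w)).card =
      Fintype.card V := by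
    rw [Finset.card_filter_add_card_filter_not, Finset.card_univ]
  have h3 : ((univ.filter (fun w => W v w)).card : ℝ) +
      ((univ.filter (fun w => ¬ W v w)).card : ℝ) = Fintype.card V := by exact_mod_cast h2
  have h4 : ((univ.filter (fun w => T v ∩ T w = ∅)).card : ℝ) ≤
      ((univ.filter (fun w => ¬ W v w)).card : ℝ) := by exact_mod_cast Finset.card_le_card h1
  have h5 := h.low v
  have h6 : dW W v = ((univ.filter (fun w => W v w)).card : ℝ) := by
    unfold dW
    congr 1
  rw [h6] at h5
  linarith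

theorem stmt_ALW (h1 : MP_1ce445_k6.Stmt_KLF) (h2 : Stmt_ALG) : Stmt_ALW := by
  intro V _ k M T W c κ hS
  by_cases hx : ∃ x : Fin 4 → Fin k, MP_1ce445_k6.Kp T x
  · obtain ⟨x, hx⟩ := hx
    exact h1 M T W c κ hS x hx
  · have hK : Kg M T c := ⟨hS.pos, hS.sub, hS.cl, hS.cu, fun v => by
      have := ALW_few hS v
      convert this using 3⟩
    have h3 := h2 M T c hK hx
    have h4 := Real.sqrt_nonneg κ
    unfold Bd at h3
    linarith

end Pool.Agent.Work.MP_1ce445_win
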