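import Pool.Agent.Work.MP_1ce445_win.Interface

/-!
Block UPW: the upper bound in the window `1/7 ≤ k/n ≤ 1/6`, from ALW, COR2 and UPK.
-/

namespace Pool.Agent.Work.MP_1ce445_win

open Finset Pool.Agent.Work.MP_1ce445_co_56 Pool.Agent.Work.MP_1ce445_lin

lemma UPW_small {f : ℝ → ℝ} (hf : Continuous f) {c : ℝ} (h : f 0 < c) :
    ∃ δ : ℝ, 0 < δ ∧ ∀ x, 0 ≤ x → x ≤ δ → f x < c := by
  have h1 : {x | f x < c} ∈ nhds (0 : ℝ) := (isOpen_lt hf continuous_const).mem_nhds h
  obtain ⟨δ, hδ, hb⟩ := Metric.mem_nhds_iff.1 h1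
  refine ⟨δ / 2, by positivity, fun x h0 hx => ?_⟩
  have h2 : x ∈ Metric.ball (0 : ℝ) δ := by
    rw [Metric.mem_ball, Real.dist_eq, sub_zero, abs_of_nonneg h0]
    linarith
  exact hb h2

lemma UPW_NN (n : ℕ) (hn : 2 ≤ n) : (n : ℝ) ≤ (1 + 2 / n) * NN n := by
  have h1 : n ≤ NN n + 1 := by
    unfold NN
    omega
  have h2 : (n : ℝ) - 1 ≤ NN n := by
    have : (n : ℝ) ≤ NN n + 1 := by exact_mod_cast h1
    linarith
  have hn' : (2 : ℝ) ≤ n := by exact_mod_cast hn
  have hn0 : (0 : ℝ) < n := by linarith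
  have h3 : (1 + 2 / (n : ℝ)) * ((n : ℝ) - 1) = n + (n - 2) / n := by
    field_simp
    ring
  have h4 : 0 ≤ ((n : ℝ) - 2) / n := div_nonneg (by linarith) hn0.le
  calc (n : ℝ) ≤ (1 + 2 / (n : ℝ)) * ((n : ℝ) - 1) := by rw [h3]; linarith
    _ ≤ (1 + 2 / n) * NN n := mul_le_mul_of_nonneg_left h2 (by positivity)

lemma UPW_card {α : Type} (s : Finset α) (P : α → Prop) [DecidablePred P] :
    ((univ : Finset s).filter (fun v => P v.1)).card = (s.filter P).card := by
  rw [← Finset.card_map (Function.Embedding.subtype _)]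
  congr 1
  ext x
  simp only [mem_map, mem_filter, mem_univ, true_and, Function.Embedding.coe_subtype]
  constructor
  · rintro ⟨v, hv, rfl⟩
    exact ⟨v.2, hv⟩
  · rintro ⟨hx, hP⟩
    exact ⟨⟨x, hx⟩, hP, rfl⟩

lemma UPW_prod {ι : Type} (M : Finset ι) (x y : ι → ℝ) (h0 : ∀ j, 0 ≤ x j) (h1 : ∀ j, x j ≤ y j)
    (h2 : ∀ j, y j ≤ 1) : ∏ j ∈ M, y j ≤ ∏ j ∈ M, x j + ∑ j ∈ M, (y j - x j) := by
  classical
  induction M using Finset.induction_on with
  | empty => simp
  | insert a M ha ih =>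
    rw [prod_insert ha, prod_insert ha, sum_insert ha]
    have hX0 : 0 ≤ ∏ j ∈ M, x j := prod_nonneg fun j _ => h0 j
    have hX1 : ∏ j ∈ M, x j ≤ 1 := prod_le_one (fun j _ => h0 j) fun j _ => (h1 j).trans (h2 j)
    have hS0 : 0 ≤ ∑ j ∈ M, (y j - x j) := sum_nonneg fun j _ => sub_nonneg.2 (h1 j)
    have hy0 : 0 ≤ y a := (h0 a).trans (h1 a)
    have e1 : y a * ∏ j ∈ M, y j ≤ y a * (∏ j ∈ M, x j + ∑ j ∈ M, (y j - x j)) :=
      mul_le_mul_of_nonneg_left ih hy0
    have e2 : y a * ∑ j ∈ M, (y j - x j) ≤ 1 * ∑ j ∈ M, (y j - x j) := mul_le_mul_of_nonneg_right (h2 a) hS0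
    have e3 : (y a - x a) * ∏ j ∈ M, x j ≤ (y a - x a) * 1 :=
      mul_le_mul_of_nonneg_left hX1 (sub_nonneg.2 (h1 a))
    linarith

lemma UPW_bd {ι : Type} [DecidableEq ι] (M : Finset ι) (p q : ι → ℝ) (s t B : ℝ) (hs0 : 0 ≤ s) (hs1 : s ≤ 1) (ht : 0 ≤ t)
    (hq0 : ∀ j, 0 ≤ q j) (hq1 : ∀ j, q j ≤ 1) (hpq : ∀ j, (1 - s) * q j ≤ p j) (hp1 : ∀ j, p j ≤ 1)
    (hB : ∏ j ∈ M, (1 - q j) ≤ B) (hst : 5 * s + t * M.card ≤ 1) :
    ∏ j ∈ M, (1 - p j + t) ≤ max (Real.exp (-4)) (B + 5 * s + ((1 + t) ^ M.card - 1)) := by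
  by_cases h5 : 5 ≤ ∑ j ∈ M, q j
  · refine le_trans ?_ (le_max_left _ _)
    have e1 : ∏ j ∈ M, (1 - p j + t) ≤ ∏ j ∈ M, Real.exp (-p j + t) := by
      apply prod_le_prod
      · intro j _
        have := hp1 j
        linarith
      · intro j _
        have := Real.add_one_le_exp (-p j + t)
        linarith
    rw [← Real.exp_sum] at e1
    refine e1.trans (Real.exp_le_exp.2 ?_)
    rw [sum_add_distrib, sum_neg_distrib, sum_const, nsmul_eq_mul]
    have e2 : (1 - s) * ∑ j ∈ M, q j ≤ ∑ j ∈ M, p j := by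
      rw [mul_sum]
      exact sum_le_sum fun j _ => hpq j
    have e3 : (1 - s) * 5 ≤ (1 - s) * ∑ j ∈ M, q j := mul_le_mul_of_nonneg_left h5 (by linarith)
    linarith
  · push Not at h5
    refine le_trans ?_ (le_max_right _ _)
    have e1 : ∏ j ∈ M, (1 - p j + t) ≤ ∏ j ∈ M, (1 - q j + s * q j + t) := by
      apply prod_le_prod
      · intro j _
        have := hp1 j
        linarith
      · intro j _
        have := hpq j
        linarith
    have hsq : ∀ j, s * q j ≤ q j := fun j => mul_le_of_le_one_left (hq0 j) hs1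
    have hsq0 : ∀ j, 0 ≤ s * q j := fun j => mul_nonneg hs0 (hq0 j)
    have e2 := prod_add_le M (fun j => 1 - q j + s * q j) ht (fun j => by
      have := hq1 j
      have := hsq0 j
      linarith) (fun j => by
      have := hsq j
      linarith)
    have e3 := UPW_prod M (fun j => 1 - q j) (fun j => 1 - q j + s * q j) (fun j => by
      have := hq1 j
      linarith) (fun j => by
      have := hsq0 j
      linarith) (fun j => by
      have := hsq j
      linarith)
    have e4 : ∑ j ∈ M, ((1 - q j + s * q j) - (1 - q j)) = s * ∑ j ∈ M, q j := by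
      rw [mul_sum]
      exact sum_congr rfl fun j _ => by ring
    have e5 : s * ∑ j ∈ M, q j ≤ s * 5 := mul_le_mul_of_nonneg_left h5.le hs0
    linarith

open Classical in
lemma UPW_sys (n k : ℕ) (M : Finset (Fin k)) (T : Fin n → Finset (Fin k)) (W : Fin n → Fin n → Prop)
    (Vg : Finset (Fin n)) (s c : ℝ) (hn : 0 < n) (hs0 : 0 < s) (hs1 : s ≤ 1 / 8) (hT : ∀ v, T v ⊆ M)
    (hVg : (1 - s) * n ≤ Vg.card) (hsy : ∀ v w, W v w → W w v) (hme : ∀ v w, W v w → (T v ∩ T w).Nonempty)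
    (hlo : ∀ v ∈ Vg, (n : ℝ) - 1 - k - s * n ≤ ((univ.filter (fun w => W v w)).card : ℝ))
    (hup : ∀ v, ((univ.filter (fun w => W v w)).card : ℝ) ≤ (n : ℝ) - 1 - k + M.card)
    (hM : (M.card : ℝ) ≤ 6 * s * n) (hc : c * n = k + 1 + 2 * s * n) (hcl : 1 / 7 ≤ c)
    (hcu : c ≤ 1 / 6) :
    MP_1ce445_k6.Sy (V := Vg) M (fun v => T v.1) (fun v w => W v.1 w.1) c (10 * s) := by
  have hc1 : c ≤ 1 := by linarith
  have hnR : (0 : ℝ) < n := by exact_mod_cast hn
  have hVn : Vg.card ≤ n := by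
    have h := card_le_univ Vg
    rwa [Fintype.card_fin] at h
  have hVnR : (Vg.card : ℝ) ≤ n := by exact_mod_cast hVn
  have hcard : ∀ v : Vg, dW (V := Vg) (fun v w => W v.1 w.1) v = ((Vg.filter (fun w => W v.1 w)).card : ℝ) := by
    intro v
    unfold dW
    rw [UPW_card Vg (fun w => W v.1 w)]
  refine ⟨?_, fun v => hT v.1, fun v w h => hsy _ _ h, fun v w h => hme _ _ h, hcl, hcu, by positivity, ?_, ?_⟩
  · rw [Fintype.card_coe]
    have h1 : (0 : ℝ) < Vg.card := by
      have : 0 < (1 - s) * n := mul_pos (by linarith) hnR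
      linarith
    exact_mod_cast h1
  · intro v
    rw [Fintype.card_coe, hcard]
    have h1 := hlo v.1 v.2
    have h2 : (univ.filter (fun w => W v.1 w)).card ≤ (Vg.filter (fun w => W v.1 w)).card + (Vgᶜ).card := by
      have h3 : univ.filter (fun w => W v.1 w) ⊆ Vg.filter (fun w => W v.1 w) ∪ Vgᶜ := by
        intro w hw
        rw [mem_filter] at hw
        rw [mem_union, mem_filter, mem_compl]
        by_cases hwV : w ∈ Vg
        · exact Or.inl ⟨hwV, hw.2⟩
        · exact Or.inr hwV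
      exact (card_le_card h3).trans (card_union_le _ _)
    have h3 : Vg.card + (Vgᶜ).card = n := by
      have h := card_add_card_compl Vg
      rwa [Fintype.card_fin] at h
    have h2' : ((univ.filter (fun w => W v.1 w)).card : ℝ) ≤ (Vg.filter (fun w => W v.1 w)).card + (Vgᶜ).card := by
      exact_mod_cast h2
    have h3' : (Vg.card : ℝ) + (Vgᶜ).card = n := by exact_mod_cast h3
    have h4 : (1 - c) * Vg.card ≤ (1 - c) * n := mul_le_mul_of_nonneg_left hVnR (by linarith)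
    nlinarith
  · intro v
    rw [Fintype.card_coe, hcard]
    have h1 := hup v.1
    have h2 : (Vg.filter (fun w => W v.1 w)).card ≤ (univ.filter (fun w => W v.1 w)).card :=
      card_le_card (filter_subset_filter _ (subset_univ _))
    have h2' : ((Vg.filter (fun w => W v.1 w)).card : ℝ) ≤ (univ.filter (fun w => W v.1 w)).card := by
      exact_mod_cast h2
    have h4 : (1 - c + 10 * s) * ((1 - s) * n) ≤ (1 - c + 10 * s) * Vg.card :=
      mul_le_mul_of_nonneg_left hVg (by linarith)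
    have h5 : (1 - c + 10 * s) * ((1 - s) * n) = (1 - s) * (n - k - 1 + 8 * s * n) := by
      linear_combination (-(1 - s)) * hc
    have h6 : (n : ℝ) - 1 - k + 6 * s * n ≤ (1 - s) * (n - k - 1 + 8 * s * n) := by
      have h7 : 0 ≤ s * (2 * n - (n - k - 1 + 8 * s * n)) := by
        apply mul_nonneg hs0.le
        have h8 : 8 * s * n ≤ 1 * n := mul_le_mul_of_nonneg_right (by linarith) hnR.le
        have h9 : (0 : ℝ) ≤ k := Nat.cast_nonneg _
        linarith
      linarith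
    linarith

lemma UPW_exp : Real.exp (-4) ≤ 1 / 50 := by
  have h1 : Real.exp (-1) ≤ 10 / 27 := by
    have h2 := Real.exp_one_gt_d9
    rw [Real.exp_neg]
    have h3 : (27 / 10 : ℝ) ≤ Real.exp 1 := by linarith
    have h4 : (Real.exp 1)⁻¹ ≤ (27 / 10 : ℝ)⁻¹ := inv_anti₀ (by norm_num) h3
    refine h4.trans (by norm_num)
  have h2 : Real.exp (-4) = Real.exp (-1) ^ 4 := by
    rw [← Real.exp_nat_mul]
    norm_num
  rw [h2]
  have h3 := pow_le_pow_left₀ (Real.exp_pos (-1)).le h1 4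
  norm_num at h3
  linarith

lemma UPW_cont : Continuous GG := by
  unfold GG
  fun_prop

lemma UPW_end : GG (1 / 6) = 1 / 16 := by
  have h1 : (1 / 6 : ℝ) * (1 - 6 * (1 / 6)) = 0 := by norm_num
  unfold GG
  rw [h1, Real.sqrt_zero]
  norm_num

lemma UPW_bounds (c : ℝ) (h0 : 1 / 7 ≤ c) : 1 / 25 ≤ GG c ∧ GG c ≤ 1 := by
  have h1 : Real.sqrt (c * (1 - 6 * c)) ≤ 1 / 7 := by
    apply Real.sqrt_le_iff.2
    constructor
    · norm_num
    · nlinarith [mul_nonneg (sub_nonneg.2 h0) (by linarith : (0 : ℝ) ≤ 6 * c - 1 / 7)]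
  have h2 := Real.sqrt_nonneg (c * (1 - 6 * c))
  have h3 : 13 / 28 ≤ (2 - Real.sqrt (c * (1 - 6 * c))) / 4 := by linarith
  have h4 : (2 - Real.sqrt (c * (1 - 6 * c))) / 4 ≤ 1 := by linarith
  unfold GG
  constructor
  · have h5 := pow_le_pow_left₀ (by norm_num) h3 4
    refine le_trans (by norm_num) h5
  · exact pow_le_one₀ (by linarith) h4

theorem stmt_UPW (h3 : Stmt_ALW) (h4 : Pool.Agent.Work.MP_1ce445_lin.Stmt_COR2)
    (h1 : Pool.Agent.Work.MP_1ce445_k4.Stmt_UPK) : Stmt_UPW := by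
  intro ε hε
  have f1 := UPW_cont
  obtain ⟨δ, hδ, hu⟩ : ∃ δ : ℝ, 0 < δ ∧ ∀ x ∈ Set.Icc (0 : ℝ) 1, ∀ y ∈ Set.Icc (0 : ℝ) 1, |x - y| < δ →
      |GG x - GG y| < ε / 8 := by
    have hc := isCompact_Icc.uniformContinuousOn_of_continuous (s := Set.Icc (0 : ℝ) 1) f1.continuousOn
    obtain ⟨δ, hδ, h⟩ := Metric.uniformContinuousOn_iff.1 hc (ε / 8) (by positivity)
    exact ⟨δ, hδ, fun x hx y hy hxy => h x hx y hy hxy⟩
  obtain ⟨n0a, ha⟩ := h1 (ε / 2) (by positivity)
  -- the constants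
  obtain ⟨s, hs0, hs10, hsδ, hsε, hsq⟩ : ∃ s : ℝ, 0 < s ∧ s ≤ 1 / 10 ∧ s ≤ δ / 8 ∧ 5 * s ≤ ε / 8 ∧
      Real.sqrt (10 * s) ≤ ε / 8 := by
    refine ⟨min (min (1 / 10) (δ / 8)) (min (ε / 40) (ε ^ 2 / 640)), by positivity,
      (min_le_left _ _).trans (min_le_left _ _), (min_le_left _ _).trans (min_le_right _ _), ?_, ?_⟩
    · have : min (min (1 / 10) (δ / 8)) (min (ε / 40) (ε ^ 2 / 640)) ≤ ε / 40 :=
        (min_le_right _ _).trans (min_le_left _ _)
      linarith
    · have : min (min (1 / 10) (δ / 8)) (min (ε / 40) (ε ^ 2 / 640)) ≤ ε ^ 2 / 640 :=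
        (min_le_right _ _).trans (min_le_right _ _)
      apply Real.sqrt_le_iff.2
      constructor
      · positivity
      · linarith
  have hs1 : s ≤ 1 := by linarith
  set τ : ℝ := s ^ 2 / 30 with hτ
  have hτ0 : 0 < τ := by positivity
  have hτs : τ ≤ s := by
    rw [hτ]
    nlinarith
  have hτ1 : τ ≤ 1 := hτs.trans hs1
  obtain ⟨K, hK⟩ := exists_nat_ge (5 / τ)
  obtain ⟨e1, he0, he4, he5⟩ : ∃ e1 : ℝ, 0 < e1 ∧ e1 ≤ ε / 8 ∧ e1 ≤ 1 / 4 :=
    ⟨min (ε / 8) (1 / 4), by positivity, min_le_left _ _, min_le_right _ _⟩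
  obtain ⟨t, ht0, hft, htK⟩ : ∃ t : ℝ, 0 < t ∧ (∀ x, 0 ≤ x → x ≤ t → (1 + x) ^ K < 1 + e1) ∧ t * K ≤ 1 / 2 := by
    obtain ⟨t, ht0, hft⟩ := UPW_small (f := fun t : ℝ => (1 + t) ^ K) (by fun_prop)
      (c := 1 + e1) (by
        simp only [add_zero, one_pow]
        linarith)
    refine ⟨min t (1 / (2 * ((K : ℝ) + 1))), by positivity, fun x hx hxt => hft x hx (hxt.trans (min_le_left _ _)), ?_⟩
    have hK0 : (0 : ℝ) ≤ K := Nat.cast_nonneg _
    calc min t (1 / (2 * ((K : ℝ) + 1))) * K ≤ 1 / (2 * ((K : ℝ) + 1)) * ((K : ℝ) + 1) := by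
          apply mul_le_mul (min_le_right _ _) (by linarith) hK0 (by positivity)
      _ = 1 / 2 := by
          field_simp
  obtain ⟨R, hR⟩ : ∃ R : ℕ, (1 - τ ^ 2) ^ R < t / 2 := by
    apply exists_pow_lt_of_lt_one (by positivity)
    have : 0 < τ ^ 2 := by positivity
    linarith
  obtain ⟨N1, hN1⟩ := exists_nat_gt (2 * R / t)
  obtain ⟨N2, hN2⟩ := exists_nat_gt (1 / τ)
  obtain ⟨N3, hN3⟩ := exists_nat_gt (2 / t)
  obtain ⟨N4, hN4⟩ := exists_nat_gt ((K : ℝ) / (6 * s))
  refine ⟨N1 + N2 + N3 + N4 + n0a + 2, fun n k hn hkl hku => ?_⟩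
  have hnR : ((N1 : ℝ) + N2 + N3 + N4 + n0a + 2) ≤ n := by exact_mod_cast hn
  have hN1' : (0 : ℝ) ≤ N1 := Nat.cast_nonneg _
  have hN2' : (0 : ℝ) ≤ N2 := Nat.cast_nonneg _
  have hN3' : (0 : ℝ) ≤ N3 := Nat.cast_nonneg _
  have hN4' : (0 : ℝ) ≤ N4 := Nat.cast_nonneg _
  have hN5' : (0 : ℝ) ≤ n0a := Nat.cast_nonneg _
  have hnpos : (0 : ℝ) < n := by linarith
  have hn2 : 2 ≤ n := by omega
  have hn0 : 0 < n := by omega
  have hkn3 : 1 / 7 ≤ (k : ℝ) / n := by
    rw [le_div_iff₀ hnpos]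
    linarith
  have hkn2 : (k : ℝ) / n ≤ 1 / 6 := by
    rw [div_le_iff₀ hnpos]
    linarith
  obtain ⟨hPhi9, hPhi11⟩ := UPW_bounds _ hkn3
  rcases lt_or_ge (1 / 6 - δ / 2) ((k : ℝ) / n) with hcase | hcase
  · -- close to 1/6
    have h5 := ha n k (by omega) (by linarith)
    have h6 : max (1 / 16 : ℝ) (((k : ℝ) / n) ^ 2) ≤ GG (1 / 6) := by
      rw [UPW_end]
      apply max_le le_rfl
      nlinarith
    have h7 : |GG ((k : ℝ) / n) - GG (1 / 6)| < ε / 8 := by
      apply hu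
      · constructor <;> linarith
      · constructor <;> linarith
      · rw [abs_lt]
        constructor <;> linarith
    rw [abs_lt] at h7
    refine h5.trans (mul_le_mul_of_nonneg_right ?_ (by positivity))
    linarith [h7.1]
  -- the main case
  have hτn : 1 ≤ τ * n := by
    have h5 : 1 / τ < n := by linarith
    rw [div_lt_iff₀ hτ0] at h5
    linarith
  have hRn : (R : ℝ) / n ≤ t / 2 := by
    have h5 : 2 * R / t < n := by linarith
    rw [div_lt_iff₀ ht0] at h5
    rw [div_le_iff₀ hnpos]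
    linarith
  have hwt : 2 / (n : ℝ) ≤ t := by
    have h5 : 2 / t < n := by linarith
    rw [div_lt_iff₀ ht0] at h5
    rw [div_le_iff₀ hnpos]
    linarith
  have hKn : (K : ℝ) ≤ 6 * s * n := by
    have h5 : (K : ℝ) / (6 * s) < n := by linarith
    rw [div_lt_iff₀ (by positivity)] at h5
    linarith
  have hw0 : 0 ≤ 2 / (n : ℝ) := by positivity
  have hns : 1 / (n : ℝ) ≤ s := by
    rw [div_le_iff₀ hnpos]
    exact hτn.trans (mul_le_mul_of_nonneg_right hτs hnpos.le)
  have hn1 : 0 < 1 / (n : ℝ) := by positivity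
  have hkn : k ≤ n := by
    have : (k : ℝ) ≤ n := by linarith
    exact_mod_cast this
  rcases P_attained n k with h0 | ⟨G, hG, hP⟩
  · rw [h0]
    simp only [Nat.cast_zero]
    positivity
  rw [hP]
  push_cast
  rcases h4 n k R G s t hG hs0 hs1 hτn hkn (by linarith) with h5 | ⟨M, T, W, Vg, hM, hT, hVg, hsy, hme, hlo, hup, hγ, hγN⟩
  · refine h5.trans ?_
    apply mul_le_mul_of_nonneg_right _ (by positivity)
    have := UPW_exp
    linarith
  · set c' : ℝ := (k : ℝ) / n + 1 / n + 2 * s with hc'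
    have hcn : c' * n = k + 1 + 2 * s * n := by
      rw [hc']
      field_simp
    have hMK : M.card ≤ K := by
      have h5 : (M.card : ℝ) ≤ K := hM.trans hK
      exact_mod_cast h5
    have hMKR : (M.card : ℝ) ≤ K := by exact_mod_cast hMK
    have hcl : 1 / 7 ≤ c' := by linarith
    have hcu : c' ≤ 1 / 6 := by linarith
    have hsys := UPW_sys n k M T W Vg s c' hn0 hs0 (by linarith) hT hVg hsy hme hlo hup (by linarith) hcn hcl hcu
    have hall := h3 (V := Vg) M (fun v => T v.1) (fun v w => W v.1 w.1) c' (10 * s) hsys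
    have hPc : GG c' ≤ GG ((k : ℝ) / n) + ε / 8 := by
      have h5 : |GG c' - GG ((k : ℝ) / n)| < ε / 8 := by
        apply hu
        · constructor <;> linarith
        · constructor <;> linarith
        · rw [abs_lt]
          constructor <;> linarith
      rw [abs_lt] at h5
      linarith [h5.2]
    have hVpos : (0 : ℝ) < Vg.card := by
      have : 0 < (1 - s) * n := mul_pos (by linarith) hnpos
      linarith
    set q : Fin k → ℝ := fun j => pr (V := Vg) (fun v => T v.1) j with hq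
    have hq' : ∀ j, q j = ((Vg.filter (fun v => j ∈ T v)).card : ℝ) / Vg.card := by
      intro j
      simp only [hq, pr]
      rw [UPW_card Vg (fun v => j ∈ T v), Fintype.card_coe]
    have hq0 : ∀ j, 0 ≤ q j := fun j => by
      rw [hq']
      positivity
    have hq1 : ∀ j, q j ≤ 1 := fun j => by
      rw [hq', div_le_one hVpos]
      have h5 : (Vg.filter (fun v => j ∈ T v)).card ≤ Vg.card := card_filter_le _ _
      exact_mod_cast h5
    set p : Fin k → ℝ := fun j => ((univ.filter (fun v => j ∈ T v)).card : ℝ) / n with hp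
    have hp1 : ∀ j, p j ≤ 1 := fun j => by
      simp only [hp]
      rw [div_le_one hnpos]
      have h5 : (univ.filter (fun v => j ∈ T v)).card ≤ n := by
        have h6 := card_filter_le (univ : Finset (Fin n)) (fun v => j ∈ T v)
        simpa using h6
      exact_mod_cast h5
    have hpq : ∀ j, (1 - s) * q j ≤ p j := by
      intro j
      simp only [hp]
      rw [le_div_iff₀ hnpos]
      have h5 : (Vg.filter (fun v => j ∈ T v)).card ≤ (univ.filter (fun v => j ∈ T v)).card :=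
        card_le_card (filter_subset_filter _ (subset_univ _))
      have h5' : ((Vg.filter (fun v => j ∈ T v)).card : ℝ) ≤ (univ.filter (fun v => j ∈ T v)).card := by
        exact_mod_cast h5
      have h6 : q j * Vg.card = ((Vg.filter (fun v => j ∈ T v)).card : ℝ) := by
        rw [hq', div_mul_cancel₀ _ hVpos.ne']
      have h7 : q j * ((1 - s) * n) ≤ q j * Vg.card := mul_le_mul_of_nonneg_left hVg (hq0 j)
      linarith
    have htM : t * M.card ≤ t * K := mul_le_mul_of_nonneg_left hMKR ht0.le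
    have hbd := UPW_bd M p q s t (GG c' + Real.sqrt (10 * s)) hs0.le hs1 ht0.le hq0 hq1 hpq hp1 hall (by linarith)
    have hpow : ∀ x : ℝ, 0 ≤ x → x ≤ t → (1 + x) ^ M.card ≤ 1 + e1 := by
      intro x hx hxt
      have h5 : (1 + x) ^ M.card ≤ (1 + x) ^ K := pow_le_pow_right₀ (by linarith) hMK
      have h6 : (1 + x) ^ K < 1 + e1 := hft x hx hxt
      linarith
    set A : ℝ := GG ((k : ℝ) / n) with hA
    have hall' : ∏ j ∈ M, (1 - q j) ≤ GG c' + Real.sqrt (10 * s) := hall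
    have hadd : ∏ j ∈ M, (1 - p j + t) ≤ A + ε / 2 := by
      refine hbd.trans (max_le ?_ ?_)
      · have := UPW_exp
        linarith
      · have h5 := hpow t ht0.le le_rfl
        linarith
    have hin : ∏ j ∈ M, (gammaT (G j) : ℝ) ≤ (A + ε / 2) * ((1 + e1) * (NN n : ℝ) ^ M.card) := by
      calc ∏ j ∈ M, (gammaT (G j) : ℝ) ≤ ∏ j ∈ M, ((1 - p j + t) * n) := by
            apply prod_le_prod
            · intro j _
              exact Nat.cast_nonneg _
            · intro j hj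
              exact hγ j hj
        _ = (∏ j ∈ M, (1 - p j + t)) * (n : ℝ) ^ M.card := by
            rw [prod_mul_distrib, prod_const]
        _ ≤ (A + ε / 2) * (n : ℝ) ^ M.card :=
            mul_le_mul_of_nonneg_right hadd (by positivity)
        _ ≤ (A + ε / 2) * ((1 + e1) * (NN n : ℝ) ^ M.card) := by
            apply mul_le_mul_of_nonneg_left _ (by linarith)
            calc (n : ℝ) ^ M.card ≤ ((1 + 2 / n) * NN n) ^ M.card :=
                  pow_le_pow_left₀ hnpos.le (UPW_NN n hn2) _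
              _ = (1 + 2 / (n : ℝ)) ^ M.card * (NN n : ℝ) ^ M.card := mul_pow _ _ _
              _ ≤ (1 + e1) * (NN n : ℝ) ^ M.card :=
                  mul_le_mul_of_nonneg_right (hpow _ hw0 hwt) (by positivity)
    have hout : ∏ j ∈ Mᶜ, (gammaT (G j) : ℝ) ≤ (NN n : ℝ) ^ (Mᶜ).card := by
      rw [← prod_const]
      apply prod_le_prod
      · intro j _
        exact Nat.cast_nonneg _
      · intro j _
        exact_mod_cast hγN j
    have hcard : M.card + (Mᶜ).card = k := by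
      have h5 := card_add_card_compl M
      rw [Fintype.card_fin] at h5
      exact h5
    have hfin : (A + ε / 2) * (1 + e1) ≤ A + ε := by
      have h5 : e1 * A ≤ e1 * 1 := mul_le_mul_of_nonneg_left hPhi11 he0.le
      have h6 : ε * e1 ≤ ε * (1 / 4) := mul_le_mul_of_nonneg_left he5 hε.le
      linarith
    calc (∏ j, (gammaT (G j) : ℝ))
        = (∏ j ∈ M, (gammaT (G j) : ℝ)) * ∏ j ∈ Mᶜ, (gammaT (G j) : ℝ) :=
          (prod_mul_prod_compl M _).symm
      _ ≤ ((A + ε / 2) * ((1 + e1) * (NN n : ℝ) ^ M.card)) * (NN n : ℝ) ^ (Mᶜ).card := by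
          apply mul_le_mul hin hout
          · exact prod_nonneg fun j _ => Nat.cast_nonneg _
          · have : 0 ≤ A + ε / 2 := by linarith
            positivity
      _ = ((A + ε / 2) * (1 + e1)) * (NN n : ℝ) ^ (M.card + (Mᶜ).card) := by
          rw [pow_add]
          ring
      _ = ((A + ε / 2) * (1 + e1)) * (NN n : ℝ) ^ k := by rw [hcard]
      _ ≤ (A + ε) * (NN n : ℝ) ^ k := mul_le_mul_of_nonneg_right hfin (by positivity)

end Pool.Agent.Work.MP_1ce445_win
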