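import Pool.Agent.Work.MP_1ce445_win.Interface

namespace Pool.Agent.Work.MP_1ce445_win

open Finset Pool.Agent.Work.MP_1ce445_co_56 Pool.Agent.Work.MP_1ce445_lin
open Pool.Agent.Work.MP_1ce445_k4 (R ad Is LB3 LBT LC5 LG6 LG7 LKE LK5)

theorem AL4_symm {V : Type} {k : ℕ} {T : V → Finset (Fin k)} {x y : Fin k} (h : R T x y) :
    R T y x := by
  obtain ⟨h1, v, hv⟩ := h
  exact ⟨fun h => h1 h.symm, v, by rw [hv, pair_comm]⟩

theorem AL4_nodup {k : ℕ} {x : Fin 4 → Fin k} (hx : Function.Injective x) {a b c d : Fin 4}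
    (h : [a, b, c, d].Nodup) : [x a, x b, x c, x d].Nodup := by
  have := h.map hx
  simpa using this

theorem AL4_four : ∀ a b c d : Fin 4, [a, b, c, d].Nodup →
    ∀ i : Fin 4, i = a ∨ i = b ∨ i = c ∨ i = d := by
  decide

theorem stmt_AL4 (hTHR : Stmt_THR) (hIC4 : Stmt_IC4) (hLEA : Stmt_LEA) (hTRI : Stmt_TRI)
    (hEKA : Stmt_EKA) (hEKP : Stmt_EKP) (hFOU : Stmt_FOU) : Stmt_AL4 := by
  classical
  intro V _ k M T c hK x hx hall hKp
  have key : ∀ v, (T v).card = 2 → ∃ i j : Fin 4, T v = {x i, x j} ∧ R T (x i) (x j) := by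
    intro v h2
    obtain ⟨p, q, hpq, hT⟩ := Finset.card_eq_two.1 h2
    have hp : p ∈ univ.image x := hall v h2 (by rw [hT]; simp)
    have hq : q ∈ univ.image x := hall v h2 (by rw [hT]; simp)
    obtain ⟨i, _, hi⟩ := mem_image.1 hp
    obtain ⟨j, _, hj⟩ := mem_image.1 hq
    subst hi
    subst hj
    exact ⟨i, j, hT, hpq, v, hT⟩
  have hsub : ∀ a b c' d : Fin 4, [a, b, c', d].Nodup → ∀ v, (T v).card = 2 →
      T v ⊆ {x a, x b, x c', x d} := by
    intro a b c' d hn v h2 z hz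
    obtain ⟨i, _, hi⟩ := mem_image.1 (hall v h2 hz)
    rw [← hi]
    rcases AL4_four a b c' d hn i with h | h | h | h <;> simp [h]
  have hF := hFOU (fun i j => decide (R T (x i) (x j)))
    (fun i j => by
      simp only [decide_eq_decide]
      exact ⟨AL4_symm, AL4_symm⟩)
    (fun i => by
      simp only [decide_eq_false_iff_not]
      exact fun h => h.1 rfl)
  simp only [decide_eq_true_eq, decide_eq_false_iff_not] at hF
  rcases hF with h | ⟨a, b, c', d, hn, h1, h2, h3, h4, h5, h6⟩ | ⟨a, b, hab, h⟩ |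
    ⟨a, b, c', h1, h2, h3, h⟩ | ⟨a, b, c', d, hn, h1, h2, h3, h4, h5, h6⟩ | h
  · refine hTHR M T c hK ?_
    have h0 : (univ.filter (fun v => (T v).card = 2)) = ∅ := by
      rw [Finset.eq_empty_iff_forall_notMem]
      intro v hv
      rw [mem_filter] at hv
      obtain ⟨i, j, _, hR⟩ := key v hv.2
      exact h i j hR
    rw [h0]
    simp only [card_empty, Nat.cast_zero]
    positivity
  · exact hIC4 M T c hK (x a) (x b) (x c') (x d) (AL4_nodup hx hn) h1 h2 h3 h4 h5 h6
  · refine hLEA M T c hK (x a) (x b) hab ?_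
    intro v h2 hxa hxb
    obtain ⟨i, j, hT, hR⟩ := key v h2
    have hi : i ≠ a := by
      rintro rfl
      exact hxa (by rw [hT]; simp)
    have hj : j ≠ a := by
      rintro rfl
      exact hxa (by rw [hT]; simp)
    obtain ⟨h3, h4⟩ := h i j hR hi hj
    rw [hT, mem_insert, mem_singleton] at hxb
    rcases hxb with hb | hb
    · exact h3 (hx hb).symm
    · exact h4 (hx hb).symm
  · refine hTRI M T c hK (x a) (x b) (x c') h1 h2 h3 ?_
    intro v hv z hz
    obtain ⟨i, j, hT, hR⟩ := key v hv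
    obtain ⟨hi, hj⟩ := h i j hR
    rw [hT, mem_insert, mem_singleton] at hz
    rcases hz with hz | hz
    · rw [hz]
      rcases hi with hi | hi | hi <;> simp [hi]
    · rw [hz]
      rcases hj with hj | hj | hj <;> simp [hj]
  · by_cases hu : ∃ u, x b ∈ T u ∧ x d ∈ T u ∧ x a ∉ T u ∧ x c' ∉ T u
    · exact hEKP M T c hK (x a) (x b) (x c') (x d) (AL4_nodup hx hn) h1 h2 h3 h4 h5
        (hsub a b c' d hn) h6 hu
    · refine hEKA M T c hK (x a) (x b) (x c') (x d) (AL4_nodup hx hn) h1 h2 h3 h4 h5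
        (hsub a b c' d hn) ?_
      intro v hb hd
      by_contra hcon
      push Not at hcon
      exact hu ⟨v, hb, hd, hcon.1, hcon.2⟩
  · exact absurd ⟨hx, fun i j hij => (h i j hij).2⟩ hKp

end Pool.Agent.Work.MP_1ce445_win
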