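import Pool.Agent.Work.MP_1ce445_win.Interface

namespace Pool.Agent.Work.MP_1ce445_win

open Finset Pool.Agent.Work.MP_1ce445_co_56 Pool.Agent.Work.MP_1ce445_lin
open Pool.Agent.Work.MP_1ce445_k4 (R ad Is LB3 LBT LC5 LG6 LG7 LKE LK5)

lemma ALT_symm {V : Type} {k : ℕ} (T : V → Finset (Fin k)) (a b : Fin k) (h : R T a b) :
    R T b a := by
  obtain ⟨h1, v, hv⟩ := h
  exact ⟨h1.symm, v, by rw [hv, Finset.pair_comm]⟩

lemma ALT_two {V : Type} {k : ℕ} (T : V → Finset (Fin k)) (v : V) (h : (T v).card = 2) :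
    ∃ a b, R T a b ∧ T v = {a, b} := by
  obtain ⟨a, b, hab, hv⟩ := Finset.card_eq_two.mp h
  exact ⟨a, b, ⟨hab, v, hv⟩, hv⟩

lemma ALT_none {V : Type} [Fintype V] {k : ℕ} (M : Finset (Fin k)) (T : V → Finset (Fin k))
    (c : ℝ) (hTHR : Stmt_THR) (hK : Kf M T c) (h : ∀ a b, ¬ R T a b) : Bd M T c := by
  classical
  apply hTHR M T c hK
  have : (univ.filter (fun v => (T v).card = 2)) = ∅ := by
    rw [Finset.filter_eq_empty_iff]
    intro v _ hv
    obtain ⟨a, b, hab, _⟩ := ALT_two T v hv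
    exact h a b hab
  rw [this]
  simp only [Finset.card_empty, Nat.cast_zero]
  positivity

lemma ALT_x {V : Type} [Fintype V] {k : ℕ} (M : Finset (Fin k)) (T : V → Finset (Fin k))
    (c : ℝ) (hLEA : Stmt_LEA) (hK : Kf M T c) (x y : Fin k) (hxy : R T x y)
    (h : ∀ u v, R T u v → u ≠ x → v ≠ x → u ≠ y ∧ v ≠ y) : Bd M T c := by
  apply hLEA M T c hK x y hxy
  intro v hv hx hy
  obtain ⟨a, b, hab, hT⟩ := ALT_two T v hv
  rw [hT] at hx hy
  simp only [Finset.mem_insert, Finset.mem_singleton, not_or] at hx hy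
  have := h a b hab (fun e => hx.1 e.symm) (fun e => hx.2 e.symm)
  rcases hy with hy | hy
  · exact this.1 hy.symm
  · exact this.2 hy.symm

lemma ALT_inj {k : ℕ} {x1 x2 x3 x4 : Fin k} (h : [x1, x2, x3, x4].Nodup) :
    Function.Injective ![x1, x2, x3, x4] := by
  simp only [List.nodup_cons, List.mem_cons, List.not_mem_nil, or_false, not_or,
    not_false_eq_true, List.nodup_nil, and_true] at h
  obtain ⟨⟨h12, h13, h14⟩, ⟨h23, h24⟩, h34⟩ := h
  intro i j hij
  fin_cases i <;> fin_cases j <;> simp_all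

lemma ALT_mem {k : ℕ} (x1 x2 x3 x4 w : Fin k) :
    w ∈ univ.image ![x1, x2, x3, x4] ↔ (w = x1 ∨ w = x2 ∨ w = x3 ∨ w = x4) := by
  rw [Finset.mem_image]
  constructor
  · rintro ⟨z, _, hz⟩
    rw [← hz]
    fin_cases z <;> simp
  · rintro (h | h | h | h)
    · exact ⟨0, Finset.mem_univ _, h.symm⟩
    · exact ⟨1, Finset.mem_univ _, h.symm⟩
    · exact ⟨2, Finset.mem_univ _, h.symm⟩
    · exact ⟨3, Finset.mem_univ _, h.symm⟩

theorem stmt_ALT (hCLS : Pool.Agent.Work.MP_1ce445_k4.Stmt_CLS)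
    (hFIV : Pool.Agent.Work.MP_1ce445_k4.Stmt_FIV) (hTHR : Stmt_THR) (hSIX : Stmt_SIX)
    (hIC4 : Stmt_IC4) (hLEA : Stmt_LEA) (hTRI : Stmt_TRI) (hBK4 : Stmt_BK4) (hTWT : Stmt_TWT)
    (hGBA : Stmt_GBA) (hGBP : Stmt_GBP) (hGBT : Stmt_GBT) (hGC5 : Stmt_GC5) (hGG6 : Stmt_GG6)
    (hGG7 : Stmt_GG7) (hGKE : Stmt_GKE) (hGK5 : Stmt_GK5) (hAL4 : Stmt_AL4) : Stmt_ALT := by
  classical
  intro V _ k M T c hK hno
  have hcls := hCLS (R T) (ALT_symm T) (fun a h => h.1 rfl)
  rcases hcls with h | ⟨a1, b1, a2, b2, a3, b3, hn, h1, h2, h3⟩ |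
    ⟨x1, x2, x3, x4, hn, h1, h2, h3, h4, h5, h6⟩ | ⟨x, y, hxy, h⟩ |
    ⟨x1, x2, x3, h1, h2, h3, h⟩ | ⟨x1, x2, x3, x4, hn, h⟩ |
    ⟨a, b, z1, z2, z3, z4, hn, h1, h2, h3, h4, h5, h6, h7, h8, h⟩ | ⟨p, hp, h⟩ |
    ⟨x1, x2, x3, y1, y2, y3, hn, h1, h2, h3, h4, h5, h6, h⟩
  · exact ALT_none M T c hTHR hK h
  · exact hSIX M T c hK a1 b1 a2 b2 a3 b3 hn h1 h2 h3
  · exact hIC4 M T c hK x1 x2 x3 x4 hn h1 h2 h3 h4 h5 h6
  · exact ALT_x M T c hLEA hK x y hxy h
  · apply hTRI M T c hK x1 x2 x3 h1 h2 h3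
    intro v hv
    obtain ⟨a, b, hab, hT⟩ := ALT_two T v hv
    obtain ⟨ha, hb⟩ := h a b hab
    rw [hT]
    intro w hw
    simp only [Finset.mem_insert, Finset.mem_singleton] at hw ⊢
    rcases hw with rfl | rfl
    · exact ha
    · exact hb
  · refine hAL4 M T c hK ![x1, x2, x3, x4] (ALT_inj hn) ?_ (fun e => hno ⟨_, e⟩)
    intro v hv
    obtain ⟨a, b, hab, hT⟩ := ALT_two T v hv
    obtain ⟨ha, hb⟩ := h a b hab
    rw [hT]
    intro w hw
    rw [ALT_mem]
    simp only [Finset.mem_insert, Finset.mem_singleton] at hw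
    rcases hw with rfl | rfl
    · exact ha
    · exact hb
  · apply hBK4 M T c hK a b z1 z2 z3 z4 hn h1 h2 h3 h4 h5 h6 h7 h8
    intro v hv
    obtain ⟨u, w, huw, hT⟩ := ALT_two T v hv
    rw [hT]
    simp only [Finset.mem_insert, Finset.mem_singleton]
    rcases h u w huw with e | e | e | e
    · exact Or.inl (Or.inl e.symm)
    · exact Or.inr (Or.inl e.symm)
    · exact Or.inl (Or.inr e.symm)
    · exact Or.inr (Or.inr e.symm)
  · set A : Fin 5 → Fin 5 → Bool := fun i j => decide (R T (p i) (p j)) with hA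
    have hAt : ∀ i j, A i j = true ↔ R T (p i) (p j) := by
      intro i j
      simp [hA]
    have hAf : ∀ i j, A i j = false ↔ ¬ R T (p i) (p j) := by
      intro i j
      simp [hA]
    have hA1 : ∀ i j, A i j = A j i := by
      intro i j
      rw [Bool.eq_iff_iff, hAt, hAt]
      exact ⟨ALT_symm T _ _, ALT_symm T _ _⟩
    have hA2 : ∀ i, A i i = false := by
      intro i
      rw [hAf]
      exact fun h => h.1 rfl
    have hv2 : ∀ v, (T v).card = 2 → ∃ i j, A i j = true ∧ T v = {p i, p j} := by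
      intro v hv
      obtain ⟨a, b, hab, hT⟩ := ALT_two T v hv
      obtain ⟨⟨i, hi⟩, j, hj⟩ := h a b hab
      refine ⟨i, j, ?_, ?_⟩
      · rw [hAt, ← hi, ← hj]; exact hab
      · rw [← hi, ← hj]; exact hT
    rcases hFIV A hA1 hA2 with g | ⟨a, b, c', d, hn, g1, g2, g3, g4, g5, g6⟩ | ⟨x, y, gxy, g⟩ |
      ⟨a, b, c', g1, g2, g3, g⟩ | ⟨x, g⟩ | ⟨L, hL, s, hs, g⟩
    · apply ALT_none M T c hTHR hK
      intro a b hab
      obtain ⟨⟨i, hi⟩, j, hj⟩ := h a b hab
      have := g i j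
      rw [hAf, ← hi, ← hj] at this
      exact this hab
    · have hn' : [p a, p b, p c', p d].Nodup := hn.map hp
      exact hIC4 M T c hK (p a) (p b) (p c') (p d) hn' ((hAt _ _).mp g1) ((hAt _ _).mp g2)
        ((hAt _ _).mp g3) ((hAt _ _).mp g4) ((hAf _ _).mp g5) ((hAf _ _).mp g6)
    · apply ALT_x M T c hLEA hK (p x) (p y) ((hAt _ _).mp gxy)
      intro u v huv hux hvx
      obtain ⟨⟨i, hi⟩, j, hj⟩ := h u v huv
      subst hi hj
      have := g i j ((hAt _ _).mpr huv) (fun e => hux (by rw [e])) (fun e => hvx (by rw [e]))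
      exact ⟨fun e => this.1 (hp e), fun e => this.2 (hp e)⟩
    · apply hTRI M T c hK (p a) (p b) (p c') ((hAt _ _).mp g1) ((hAt _ _).mp g2)
        ((hAt _ _).mp g3)
      intro v hv
      obtain ⟨i, j, hij, hT⟩ := hv2 v hv
      obtain ⟨hi, hj⟩ := g i j hij
      rw [hT]
      intro w hw
      simp only [Finset.mem_insert, Finset.mem_singleton] at hw ⊢
      rcases hw with rfl | rfl
      · rcases hi with rfl | rfl | rfl <;> simp
      · rcases hj with rfl | rfl | rfl <;> simp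
    · refine hAL4 M T c hK (fun z => p (x.succAbove z))
        (hp.comp Fin.succAbove_right_injective) ?_ (fun e => hno ⟨_, e⟩)
      intro v hv
      obtain ⟨i, j, hij, hT⟩ := hv2 v hv
      obtain ⟨hi, hj⟩ := g i j hij
      rw [hT]
      intro w hw
      rw [Finset.mem_image]
      rw [Finset.mem_insert, Finset.mem_singleton] at hw
      rcases hw with rfl | rfl
      · obtain ⟨z, hz⟩ := Fin.exists_succAbove_eq hi
        exact ⟨z, Finset.mem_univ z, by rw [hz]⟩
      · obtain ⟨z, hz⟩ := Fin.exists_succAbove_eq hj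
        exact ⟨z, Finset.mem_univ z, by rw [hz]⟩
    · have hsur : Function.Surjective s := Finite.injective_iff_surjective.mp hs
      have hIs : Is T L := by
        refine ⟨fun i => p (s i), hp.comp hs, ?_, ?_⟩
        · intro v hv
          obtain ⟨i, j, hij, hT⟩ := hv2 v hv
          obtain ⟨i', rfl⟩ := hsur i
          obtain ⟨j', rfl⟩ := hsur j
          exact ⟨i', j', by rw [← g]; exact hij, hT⟩
        · intro i j hij
          rw [← g] at hij
          exact (hAt _ _).mp hij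
      simp only [List.mem_cons, List.not_mem_nil, or_false] at hL
      rcases hL with rfl | rfl | rfl | rfl | rfl | rfl | rfl
      · obtain ⟨p', hp', h1', h2'⟩ := hIs
        by_cases he : ∃ v, T v = {p' 2, p' 3, p' 4}
        · exact hGBP M T c hK p' hp' h1' h2' he
        · exact hGBA M T c hK p' hp' h1' h2' (fun v hv => he ⟨v, hv⟩)
      · exact hGBT M T c hK hIs
      · exact hGC5 M T c hK hIs
      · exact hGG6 M T c hK hIs
      · exact hGG7 M T c hK hIs
      · exact hGKE M T c hK hIs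
      · exact hGK5 M T c hK hIs
  · apply hTWT M T c hK x1 x2 x3 y1 y2 y3 hn h1 h2 h3 h4 h5 h6
    intro v hv
    obtain ⟨a, b, hab, hT⟩ := ALT_two T v hv
    rw [hT]
    rcases h a b hab with ⟨ha, hb⟩ | ⟨ha, hb⟩
    · left
      intro w hw
      simp only [Finset.mem_insert, Finset.mem_singleton] at hw ⊢
      rcases hw with rfl | rfl
      · exact ha
      · exact hb
    · right
      intro w hw
      simp only [Finset.mem_insert, Finset.mem_singleton] at hw ⊢
      rcases hw with rfl | rfl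
      · exact ha
      · exact hb

end Pool.Agent.Work.MP_1ce445_win
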