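import Pool.Agent.Work.MP_1ce445_win.Interface

/-!
# Block CER (MP_1ce445_co, window `1/7 ≤ c ≤ 1/6`): certificates
-/

namespace Pool.Agent.Work.MP_1ce445_win

open Finset Pool.Agent.Work.MP_1ce445_co_56 Pool.Agent.Work.MP_1ce445_lin
open Pool.Agent.Work.MP_1ce445_k4 (R ad Is LB3 LBT LC5 LG6 LG7 LKE LK5)

theorem CER_miss {V : Type} [Fintype V] {k : ℕ} (M : Finset (Fin k)) (T : V → Finset (Fin k))
    (c : ℝ) (h : Kg M T c) (a b : Fin k) (hR : R T a b) (mu : ℝ) (hmu : 0 ≤ mu) :
    ∑ v, (if a ∉ T v ∧ b ∉ T v then mu else 0) ≤ c * mu * Fintype.card V := by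
  obtain ⟨_, w, hw⟩ := hR
  rw [← Finset.sum_filter, Finset.sum_const, nsmul_eq_mul]
  have h1 : ((univ.filter (fun v => a ∉ T v ∧ b ∉ T v)).card : ℝ) ≤ c * Fintype.card V := by
    refine le_trans ?_ (h.few w)
    apply Nat.cast_le.2
    apply Finset.card_le_card
    intro v hv
    simp only [mem_filter, mem_univ, true_and] at hv ⊢
    rw [hw]
    ext x
    simp only [mem_inter, mem_insert, mem_singleton, notMem_empty, iff_false, not_and]
    rintro (rfl | rfl)
    · exact hv.1
    · exact hv.2
  calc ((univ.filter (fun v => a ∉ T v ∧ b ∉ T v)).card : ℝ) * mu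
      ≤ (c * Fintype.card V) * mu := mul_le_mul_of_nonneg_right h1 hmu
    _ = c * mu * Fintype.card V := by ring

theorem stmt_CER (hL : Pool.Agent.Work.MP_1ce445_s7.Stmt_LPC) : Stmt_CER := by
  intro V _ k M T c hK m r p l a b mu K hp hl hmu hR h2 h3
  classical
  have hN : (0 : ℝ) < Fintype.card V := by exact_mod_cast hK.pos
  have key := hL M T hK.pos hK.sub m p l
    (fun v => ∑ s, if p (a s) ∉ T v ∧ p (b s) ∉ T v then mu s else 0) K hp hl (by
      intro v
      rcases Nat.lt_or_ge 2 (T v).card with hc | hc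
      · have ht := h3 (fun i => decide (p i ∈ T v))
        simp only [decide_eq_true_eq, decide_eq_false_iff_not] at ht
        have hcard : (univ.filter (fun i => p i ∈ T v)).card ≤ (T v).card := by
          apply Finset.card_le_card_of_injOn p
          · intro i hi
            exact (Finset.mem_filter.1 hi).2
          · intro x _ y _ hxy
            exact hp hxy
        have hmax : max 3 (((univ.filter (fun i => p i ∈ T v)).card : ℕ) : ℝ) ≤
            ((T v).card : ℝ) := by
          apply max_le
          · exact_mod_cast hc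
          · exact_mod_cast hcard
        linarith
      · have hc2 : (T v).card = 2 := le_antisymm hc (hK.two v)
        have ht := h2 v hc2
        rw [hc2]
        push_cast
        linarith)
  refine key.trans ?_
  apply Real.exp_le_exp.2
  have hsum : ∑ v, ∑ s, (if p (a s) ∉ T v ∧ p (b s) ∉ T v then mu s else 0) ≤
      c * (∑ s, mu s) * Fintype.card V := by
    rw [Finset.sum_comm, Finset.mul_sum, Finset.sum_mul]
    apply Finset.sum_le_sum
    intro s _
    exact CER_miss M T c hK.toKg _ _ (hR s) (mu s) (hmu s)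
  have hdiv : (∑ v, ∑ s, (if p (a s) ∉ T v ∧ p (b s) ∉ T v then mu s else 0)) /
      Fintype.card V ≤ c * ∑ s, mu s := by
    rw [div_le_iff₀ hN]
    exact hsum
  have hsq : 0 ≤ (∑ x ∈ M.filter (fun x => ∀ i, x ≠ p i), pr T x ^ 2) / 2 := by
    apply div_nonneg _ (by norm_num)
    exact Finset.sum_nonneg (fun _ _ => sq_nonneg _)
  linarith

end Pool.Agent.Work.MP_1ce445_win
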