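import Pool.Agent.Work.MP_1ce445_win.Interface

namespace Pool.Agent.Work.MP_1ce445_win

open Finset Pool.Agent.Work.MP_1ce445_co_56 Pool.Agent.Work.MP_1ce445_lin
open Pool.Agent.Work.MP_1ce445_k4 (R ad Is LB3 LBT LC5 LG6 LG7 LKE LK5)

/-- the number of sets missing both points of a present pair -/
theorem EKA_miss {V : Type} [Fintype V] {k : ℕ} {M : Finset (Fin k)} {T : V → Finset (Fin k)}
    {c : ℝ} (hK : Kf M T c) {p q : Fin k} (h : R T p q) :
    ((univ.filter (fun w => p ∉ T w ∧ q ∉ T w)).card : ℝ) ≤ c * Fintype.card V := by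
  obtain ⟨-, v, hv⟩ := h
  have h1 := hK.few v
  have h2 : univ.filter (fun w => p ∉ T w ∧ q ∉ T w) = univ.filter (fun w => T v ∩ T w = ∅) := by
    apply Finset.filter_congr
    intro w _
    rw [hv]
    constructor
    · rintro ⟨h3, h4⟩
      ext z
      simp only [Finset.mem_inter, Finset.mem_insert, Finset.mem_singleton, Finset.notMem_empty,
        iff_false, not_and]
      rintro (rfl | rfl)
      · exact h3
      · exact h4
    · intro h3
      constructor
      · intro h4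
        have h5 : p ∈ ({p, q} : Finset (Fin k)) ∩ T w := by simp [h4]
        rw [h3] at h5
        exact absurd h5 (Finset.notMem_empty _)
      · intro h4
        have h5 : q ∈ ({p, q} : Finset (Fin k)) ∩ T w := by simp [h4]
        rw [h3] at h5
        exact absurd h5 (Finset.notMem_empty _)
  rw [h2]
  exact h1

/-- the weights -/
noncomputable def EKA_l : Fin 4 → ℝ := ![28 / 9, 28 / 9, 14 / 9, 14 / 9]

theorem EKA_pt (n : ℝ) (t1 t2 t3 t4 : Prop) [Decidable t1] [Decidable t2]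
    [Decidable t3] [Decidable t4] (h24 : t2 → t4 → t1 ∨ t3)
    (h : 3 ≤ n ∨ (n = 2 ∧ n = (if t1 then (1 : ℝ) else 0) + (if t2 then (1 : ℝ) else 0) +
      (if t3 then (1 : ℝ) else 0) + (if t4 then (1 : ℝ) else 0))) :
    (56 / 9 : ℝ) ≤ n +
      ((if t1 then (19 / 9 : ℝ) else 0) + (if t3 then (19 / 9 : ℝ) else 0) +
        (if t2 then (5 / 9 : ℝ) else 0) + (if t4 then (5 / 9 : ℝ) else 0)) +
      14 / 9 * ((if ¬ t1 ∧ ¬ t2 then (1 : ℝ) else 0) + (if ¬ t2 ∧ ¬ t3 then (1 : ℝ) else 0) +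
        (if ¬ t3 ∧ ¬ t4 then (1 : ℝ) else 0) + (if ¬ t4 ∧ ¬ t1 then (1 : ℝ) else 0)) := by
  by_cases h1 : t1 <;> by_cases h2 : t2 <;> by_cases h3 : t3 <;> by_cases h4 : t4 <;>
    simp only [h1, h2, h3, h4, if_true, if_false, not_true, not_false_eq_true, false_and,
      and_false, and_self, or_self, forall_const, true_or, or_true, implies_true,
      imp_false] at h h24 ⊢ <;>
    first
      | (exact absurd h24 not_false)
      | (rcases h with h | ⟨h, h5⟩ <;> linarith)

theorem EKA_log : (155 / 50 : ℝ) ≤ 2 * Real.log (28 / 9) + 2 * Real.log (14 / 9) := by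
  have e1 : 4 * Real.log (28 / 9) + 4 * Real.log (14 / 9) =
      Real.log ((28 / 9) ^ 4 * (14 / 9) ^ 4) := by
    rw [Real.log_mul (by norm_num) (by norm_num), Real.log_pow, Real.log_pow]
    norm_num
  have e2 : Real.log ((2 : ℝ) ^ 9) ≤ Real.log ((28 / 9) ^ 4 * (14 / 9) ^ 4) :=
    Real.log_le_log (by norm_num) (by norm_num)
  rw [Real.log_pow] at e2
  have e3 := Real.log_two_gt_d9
  push_cast at e2
  linarith

theorem stmt_EKA (hTG : Stmt_TG) (hLPC : Pool.Agent.Work.MP_1ce445_s7.Stmt_LPC) : Stmt_EKA := by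
  intro V _ k M T c hK x1 x2 x3 x4 hnd r12 r23 r34 r41 r13 hsub h24
  have hN : 0 < Fintype.card V := hK.pos
  have hNR : (0 : ℝ) < Fintype.card V := by exact_mod_cast hN
  simp only [List.nodup_cons, List.mem_cons, List.not_mem_nil, or_false, not_or,
    List.nodup_nil, not_false_eq_true, and_true] at hnd
  obtain ⟨⟨n1, n2, n3⟩, ⟨n4, n5⟩, n6⟩ := hnd
  set ph : V → ℝ := fun v => 14 / 9 * ((if x1 ∉ T v ∧ x2 ∉ T v then 1 else 0) +
    (if x2 ∉ T v ∧ x3 ∉ T v then 1 else 0) + (if x3 ∉ T v ∧ x4 ∉ T v then 1 else 0) +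
    (if x4 ∉ T v ∧ x1 ∉ T v then 1 else 0)) with hph
  have hinj : Function.Injective ![x1, x3, x2, x4] := by
    intro i j hij
    fin_cases i <;> fin_cases j <;> simp_all
  have hl1 : ∀ i, 1 ≤ EKA_l i := by
    intro i
    fin_cases i <;> norm_num [EKA_l]
  have hpt : ∀ v, (56 / 9 : ℝ) ≤ ((T v).card : ℝ) +
      (∑ i, if ![x1, x3, x2, x4] i ∈ T v then EKA_l i - 1 else 0) + ph v := by
    intro v
    have hs : (∑ i, if ![x1, x3, x2, x4] i ∈ T v then EKA_l i - 1 else 0) =
        (if x1 ∈ T v then (19 / 9 : ℝ) else 0) + (if x3 ∈ T v then (19 / 9 : ℝ) else 0) +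
        (if x2 ∈ T v then (5 / 9 : ℝ) else 0) + (if x4 ∈ T v then (5 / 9 : ℝ) else 0) := by
      rw [Fin.sum_univ_four]
      simp only [EKA_l, Matrix.cons_val_zero, Matrix.cons_val_one, Matrix.cons_val]
      norm_num
    rw [hs]
    refine EKA_pt _ _ _ _ _ (h24 v) ?_
    rcases Nat.lt_or_ge (T v).card 3 with h3 | h3
    · right
      have h4 : (T v).card = 2 := le_antisymm (by omega) (hK.two v)
      have h5 : ((T v).card : ℝ) = 2 := by exact_mod_cast h4
      refine ⟨h5, ?_⟩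
      have h6 : T v = ({x1, x2, x3, x4} : Finset (Fin k)).filter (fun z => z ∈ T v) := by
        ext z
        simp only [Finset.mem_filter]
        exact ⟨fun h => ⟨hsub v h4 h, h⟩, fun h => h.2⟩
      have h7 : ((T v).card : ℝ) =
          ∑ z ∈ ({x1, x2, x3, x4} : Finset (Fin k)), if z ∈ T v then (1 : ℝ) else 0 := by
        conv_lhs => rw [h6]
        rw [Finset.sum_boole]
      rw [h7, Finset.sum_insert (by simp [n1, n2, n3]), Finset.sum_insert (by simp [n4, n5]),
        Finset.sum_insert (by simp [n6]), Finset.sum_singleton]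
      ring
    · left
      exact_mod_cast h3
  have h := hLPC M T hN hK.sub 4 ![x1, x3, x2, x4] EKA_l ph (56 / 9) hinj hl1 hpt
  have hsum : (∑ v, ph v) / Fintype.card V ≤ 56 / 9 * c := by
    rw [div_le_iff₀ hNR]
    have e : ∑ v, ph v = 14 / 9 * (((univ.filter (fun w => x1 ∉ T w ∧ x2 ∉ T w)).card : ℝ) +
        ((univ.filter (fun w => x2 ∉ T w ∧ x3 ∉ T w)).card : ℝ) +
        ((univ.filter (fun w => x3 ∉ T w ∧ x4 ∉ T w)).card : ℝ) +
        ((univ.filter (fun w => x4 ∉ T w ∧ x1 ∉ T w)).card : ℝ)) := by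
      simp only [hph]
      rw [← Finset.mul_sum]
      simp only [Finset.sum_add_distrib]
      rw [← Finset.sum_boole, ← Finset.sum_boole, ← Finset.sum_boole, ← Finset.sum_boole]
    rw [e]
    have g1 := EKA_miss hK r12
    have g2 := EKA_miss hK r23
    have g3 := EKA_miss hK r34
    have g4 := EKA_miss hK r41
    linarith
  have hsq : 0 ≤ (∑ y ∈ M.filter (fun z => ∀ i, z ≠ ![x1, x3, x2, x4] i), pr T y ^ 2) / 2 := by
    positivity
  have hl : ∑ i : Fin 4, (EKA_l i - 1 - Real.log (EKA_l i)) =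
      16 / 3 - (2 * Real.log (28 / 9) + 2 * Real.log (14 / 9)) := by
    rw [Fin.sum_univ_four]
    simp only [EKA_l, Matrix.cons_val_zero, Matrix.cons_val_one, Matrix.cons_val]
    ring
  have hlog := EKA_log
  have hfin := hTG c (16 / 3 - (2 * Real.log (28 / 9) + 2 * Real.log (14 / 9)) - 56 / 9) (56 / 9)
    hK.cl hK.cu (by linarith) (by linarith)
  unfold Bd
  refine le_trans h (le_trans ?_ hfin)
  apply Real.exp_le_exp.mpr
  rw [hl]
  linarith

end Pool.Agent.Work.MP_1ce445_win
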