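import Pool.Agent.Work.MP_1ce445_win.Interface

namespace Pool.Agent.Work.MP_1ce445_win

open Finset Pool.Agent.Work.MP_1ce445_co_56 Pool.Agent.Work.MP_1ce445_lin
open Pool.Agent.Work.MP_1ce445_k4 (R ad Is LB3 LBT LC5 LG6 LG7 LKE LK5)

/-- the number of sets missing both points of a present pair -/
theorem EKP_miss {V : Type} [Fintype V] {k : ℕ} {M : Finset (Fin k)} {T : V → Finset (Fin k)}
    {c : ℝ} (hK : Kf M T c) {p q : Fin k} (h : R T p q) :
    ((univ.filter (fun w => p ∉ T w ∧ q ∉ T w)).card : ℝ) ≤ c * Fintype.card V := by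
  obtain ⟨-, v, hv⟩ := h
  have h1 := hK.few v
  have h2 : univ.filter (fun w => p ∉ T w ∧ q ∉ T w) = univ.filter (fun w => T v ∩ T w = ∅) := by
    apply Finset.filter_congr
    intro w _
    rw [hv]
    constructor
    · rintro ⟨h3, h4⟩
      ext z
      simp only [Finset.mem_inter, Finset.mem_insert, Finset.mem_singleton, Finset.notMem_empty,
        iff_false, not_and]
      rintro (rfl | rfl)
      · exact h3
      · exact h4
    · intro h3
      constructor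
      · intro h4
        have h5 : p ∈ ({p, q} : Finset (Fin k)) ∩ T w := by simp [h4]
        rw [h3] at h5
        exact absurd h5 (Finset.notMem_empty _)
      · intro h4
        have h5 : q ∈ ({p, q} : Finset (Fin k)) ∩ T w := by simp [h4]
        rw [h3] at h5
        exact absurd h5 (Finset.notMem_empty _)
  rw [h2]
  exact h1

/-- the weights -/
noncomputable def EKP_l : Fin 4 → ℝ := ![13 / 6, 13 / 7, 13 / 6, 13 / 7]

/-- a set with two elements inside the four points -/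
theorem EKP_two (e : ℝ) (t1 t2 t3 t4 : Prop) [Decidable t1] [Decidable t2]
    [Decidable t3] [Decidable t4] (he : 0 ≤ e)
    (h : (t1 ∧ ¬ t2 ∧ t3 ∧ ¬ t4 ∧ e = 1) ∨ (t1 ∧ t2 ∧ ¬ t3 ∧ ¬ t4) ∨
      (¬ t1 ∧ t2 ∧ t3 ∧ ¬ t4) ∨ (¬ t1 ∧ ¬ t2 ∧ t3 ∧ t4) ∨ (t1 ∧ ¬ t2 ∧ ¬ t3 ∧ t4)) :
    (16 / 3 : ℝ) ≤ 2 +
      ((if t1 then (7 / 6 : ℝ) else 0) + (if t2 then (6 / 7 : ℝ) else 0) +
        (if t3 then (7 / 6 : ℝ) else 0) + (if t4 then (6 / 7 : ℝ) else 0)) +
      ((if ¬ t1 ∧ ¬ t2 then (55 / 42 : ℝ) else 0) +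
        (if ¬ t2 ∧ ¬ t3 then (55 / 42 : ℝ) else 0) +
        (if ¬ t3 ∧ ¬ t4 then (55 / 42 : ℝ) else 0) +
        (if ¬ t4 ∧ ¬ t1 then (55 / 42 : ℝ) else 0) +
        (if ¬ t1 ∧ ¬ t3 then (13 / 21 : ℝ) else 0) + e) := by
  rcases h with ⟨h1, h2, h3, h4, h5⟩ | ⟨h1, h2, h3, h4⟩ | ⟨h1, h2, h3, h4⟩ |
    ⟨h1, h2, h3, h4⟩ | ⟨h1, h2, h3, h4⟩ <;> simp only [h1, h2, h3, h4, if_true, if_false, not_true,
      not_false_eq_true, false_and, and_false, and_self] <;> linarith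

/-- a set with at least three elements -/
theorem EKP_three (e n : ℝ) (t1 t2 t3 t4 : Prop) [Decidable t1] [Decidable t2]
    [Decidable t3] [Decidable t4] (he : 0 ≤ e) (hn : 3 ≤ n) :
    (16 / 3 : ℝ) ≤ n +
      ((if t1 then (7 / 6 : ℝ) else 0) + (if t2 then (6 / 7 : ℝ) else 0) +
        (if t3 then (7 / 6 : ℝ) else 0) + (if t4 then (6 / 7 : ℝ) else 0)) +
      ((if ¬ t1 ∧ ¬ t2 then (55 / 42 : ℝ) else 0) +
        (if ¬ t2 ∧ ¬ t3 then (55 / 42 : ℝ) else 0) +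
        (if ¬ t3 ∧ ¬ t4 then (55 / 42 : ℝ) else 0) +
        (if ¬ t4 ∧ ¬ t1 then (55 / 42 : ℝ) else 0) +
        (if ¬ t1 ∧ ¬ t3 then (13 / 21 : ℝ) else 0) + e) := by
  by_cases h1 : t1 <;> by_cases h2 : t2 <;> by_cases h3 : t3 <;>
    by_cases h4 : t4 <;> simp only [h1, h2, h3, h4, if_true, if_false, not_true,
      not_false_eq_true, false_and, and_false, and_self] <;> linarith

theorem EKP_key {k : ℕ} (S : Finset (Fin k)) (h2 : S.card = 2) (p q : Fin k) (hpq : p ≠ q)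
    (hp : p ∈ S) (hq : q ∈ S) : S = {p, q} := by
  obtain ⟨u, v, huv, rfl⟩ := Finset.card_eq_two.1 h2
  simp only [Finset.mem_insert, Finset.mem_singleton] at hp hq
  rcases hp with rfl | rfl <;> rcases hq with rfl | rfl
  · exact absurd rfl hpq
  · rfl
  · exact Finset.pair_comm _ _
  · exact absurd rfl hpq

/-- the 2-sets inside the four points different from `{x2, x4}` -/
theorem EKP_pair {k : ℕ} (S U : Finset (Fin k)) (x1 x2 x3 x4 : Fin k)
    (hnd : [x1, x2, x3, x4].Nodup) (h2 : S.card = 2) (h : S ⊆ {x1, x2, x3, x4})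
    (h24 : S ≠ {x2, x4}) (hu1 : x1 ∉ U) (hu3 : x3 ∉ U) :
    (x1 ∈ S ∧ x2 ∉ S ∧ x3 ∈ S ∧ x4 ∉ S ∧ (if S ∩ U = ∅ then (1 : ℝ) else 0) = 1) ∨
      (x1 ∈ S ∧ x2 ∈ S ∧ x3 ∉ S ∧ x4 ∉ S) ∨ (x1 ∉ S ∧ x2 ∈ S ∧ x3 ∈ S ∧ x4 ∉ S) ∨
      (x1 ∉ S ∧ x2 ∉ S ∧ x3 ∈ S ∧ x4 ∈ S) ∨ (x1 ∈ S ∧ x2 ∉ S ∧ x3 ∉ S ∧ x4 ∈ S) := by
  simp only [List.nodup_cons, List.mem_cons, List.not_mem_nil, or_false, not_or,
    List.nodup_nil, not_false_eq_true, and_true] at hnd
  obtain ⟨⟨n1, n2, n3⟩, ⟨n4, n5⟩, n6⟩ := hnd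
  obtain ⟨u, v, huv, hS⟩ := Finset.card_eq_two.1 h2
  have hu : u ∈ ({x1, x2, x3, x4} : Finset (Fin k)) := h (by rw [hS]; simp)
  have hv : v ∈ ({x1, x2, x3, x4} : Finset (Fin k)) := h (by rw [hS]; simp)
  simp only [Finset.mem_insert, Finset.mem_singleton] at hu hv
  have h13 : S = {x1, x3} → (if S ∩ U = ∅ then (1 : ℝ) else 0) = 1 := by
    intro hS'
    apply if_pos
    rw [hS']
    ext z
    simp only [Finset.mem_inter, Finset.mem_insert, Finset.mem_singleton, Finset.notMem_empty,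
      iff_false, not_and]
    rintro (rfl | rfl)
    · exact hu1
    · exact hu3
  have n1' := Ne.symm n1
  have n2' := Ne.symm n2
  have n3' := Ne.symm n3
  have n4' := Ne.symm n4
  have n5' := Ne.symm n5
  have n6' := Ne.symm n6
  rcases hu with rfl | rfl | rfl | rfl <;> rcases hv with rfl | rfl | rfl | rfl
  · exact absurd rfl huv
  · right; left; rw [hS]; simp [n1, n2, n3, n4, n5, n6, n1', n2', n3', n4', n5', n6']
  · left
    refine ⟨?_, ?_, ?_, ?_, h13 hS⟩ <;> rw [hS] <;>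
      simp [n1, n2, n3, n4, n5, n6, n1', n2', n3', n4', n5', n6']
  · right; right; right; right; rw [hS]
    simp [n1, n2, n3, n4, n5, n6, n1', n2', n3', n4', n5', n6']
  · right; left; rw [hS]; simp [n1, n2, n3, n4, n5, n6, n1', n2', n3', n4', n5', n6']
  · exact absurd rfl huv
  · right; right; left; rw [hS]; simp [n1, n2, n3, n4, n5, n6, n1', n2', n3', n4', n5', n6']
  · exact absurd hS h24
  · left
    refine ⟨?_, ?_, ?_, ?_, h13 (by rw [hS]; exact Finset.pair_comm _ _)⟩ <;> rw [hS] <;>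
      simp [n1, n2, n3, n4, n5, n6, n1', n2', n3', n4', n5', n6']
  · right; right; left; rw [hS]; simp [n1, n2, n3, n4, n5, n6, n1', n2', n3', n4', n5', n6']
  · exact absurd rfl huv
  · right; right; right; left; rw [hS]
    simp [n1, n2, n3, n4, n5, n6, n1', n2', n3', n4', n5', n6']
  · right; right; right; right; rw [hS]
    simp [n1, n2, n3, n4, n5, n6, n1', n2', n3', n4', n5', n6']
  · exact absurd (by rw [hS]; exact Finset.pair_comm _ _) h24
  · right; right; right; left; rw [hS]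
    simp [n1, n2, n3, n4, n5, n6, n1', n2', n3', n4', n5', n6']
  · exact absurd rfl huv

theorem EKP_log : 2 * Real.log (13 / 6) + 2 * Real.log (13 / 7) =
    -Real.log ((42 / 169) ^ 2) := by
  have e1 : 2 * Real.log (13 / 6) + 2 * Real.log (13 / 7) =
      Real.log ((13 / 6) ^ 2 * (13 / 7) ^ 2) := by
    rw [Real.log_mul (by norm_num) (by norm_num), Real.log_pow, Real.log_pow]
    norm_num
  rw [e1, ← Real.log_inv]
  congr 1
  norm_num

theorem stmt_EKP (hTGE : Stmt_TGE) (hLPC : Pool.Agent.Work.MP_1ce445_s7.Stmt_LPC) :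
    Stmt_EKP := by
  intro V _ k M T c hK x1 x2 x3 x4 hnd r12 r23 r34 r41 r13 h2 h24 hu
  obtain ⟨u, u2, u4, u1, u3⟩ := hu
  have hN : 0 < Fintype.card V := hK.pos
  have hNR : (0 : ℝ) < Fintype.card V := by exact_mod_cast hN
  have hnd' := hnd
  simp only [List.nodup_cons, List.mem_cons, List.not_mem_nil, or_false, not_or,
    List.nodup_nil, not_false_eq_true, and_true] at hnd
  obtain ⟨⟨n1, n2, n3⟩, ⟨n4, n5⟩, n6⟩ := hnd
  set ph : V → ℝ := fun v => (if x1 ∉ T v ∧ x2 ∉ T v then 55 / 42 else 0) +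
    (if x2 ∉ T v ∧ x3 ∉ T v then 55 / 42 else 0) + (if x3 ∉ T v ∧ x4 ∉ T v then 55 / 42 else 0) +
    (if x4 ∉ T v ∧ x1 ∉ T v then 55 / 42 else 0) + (if x1 ∉ T v ∧ x3 ∉ T v then 13 / 21 else 0) +
    (if T v ∩ T u = ∅ then 1 else 0) with hph
  have hinj : Function.Injective ![x1, x2, x3, x4] := by
    intro i j hij
    fin_cases i <;> fin_cases j <;> simp_all
  have hpt : ∀ v, (16 / 3 : ℝ) ≤ ((T v).card : ℝ) +
      (∑ i, if ![x1, x2, x3, x4] i ∈ T v then EKP_l i - 1 else 0) + ph v := by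
    intro v
    have hs : (∑ i, if ![x1, x2, x3, x4] i ∈ T v then EKP_l i - 1 else 0) =
        (if x1 ∈ T v then (7 / 6 : ℝ) else 0) + (if x2 ∈ T v then (6 / 7 : ℝ) else 0) +
        (if x3 ∈ T v then (7 / 6 : ℝ) else 0) + (if x4 ∈ T v then (6 / 7 : ℝ) else 0) := by
      rw [Fin.sum_univ_four]
      simp only [EKP_l, Matrix.cons_val_zero, Matrix.cons_val_one, Matrix.cons_val]
      norm_num
    rw [hs]
    have e5 : (0 : ℝ) ≤ if T v ∩ T u = ∅ then 1 else 0 := by split_ifs <;> norm_num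
    rcases Nat.lt_or_ge (T v).card 3 with h3 | h3
    · have h4 : (T v).card = 2 := le_antisymm (by omega) (hK.two v)
      have h5 : ((T v).card : ℝ) = 2 := by exact_mod_cast h4
      rw [h5]
      exact EKP_two _ _ _ _ _ e5 (EKP_pair (T v) (T u) x1 x2 x3 x4 hnd' h4 (h2 v h4)
        (fun h => h24 ⟨n5, v, h⟩) u1 u3)
    · have h5 : (3 : ℝ) ≤ ((T v).card : ℝ) := by exact_mod_cast h3
      exact EKP_three _ _ _ _ _ _ e5 h5
  have h := hLPC M T hN hK.sub 4 ![x1, x2, x3, x4] EKP_l ph (16 / 3) hinj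
    (by
      intro i
      fin_cases i <;> simp [EKP_l] <;> norm_num) hpt
  have hsum : (∑ v, ph v) / Fintype.card V ≤ 48 / 7 * c := by
    rw [div_le_iff₀ hNR]
    have e : ∑ v, ph v = 55 / 42 * ((univ.filter (fun v => x1 ∉ T v ∧ x2 ∉ T v)).card : ℝ) +
        55 / 42 * ((univ.filter (fun v => x2 ∉ T v ∧ x3 ∉ T v)).card : ℝ) +
        55 / 42 * ((univ.filter (fun v => x3 ∉ T v ∧ x4 ∉ T v)).card : ℝ) +
        55 / 42 * ((univ.filter (fun v => x4 ∉ T v ∧ x1 ∉ T v)).card : ℝ) +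
        13 / 21 * ((univ.filter (fun v => x1 ∉ T v ∧ x3 ∉ T v)).card : ℝ) +
        ((univ.filter (fun v => T v ∩ T u = ∅)).card : ℝ) := by
      simp only [hph, Finset.sum_add_distrib]
      rw [← Finset.sum_boole, ← Finset.sum_boole, ← Finset.sum_boole, ← Finset.sum_boole,
        ← Finset.sum_boole, ← Finset.sum_boole]
      simp only [Finset.mul_sum, mul_ite, mul_one, mul_zero]
    rw [e]
    have g1 := EKP_miss hK r12
    have g2 := EKP_miss hK r23
    have g3 := EKP_miss hK r34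
    have g4 := EKP_miss hK r41
    have g5 := EKP_miss hK r13
    have g6 : ((univ.filter (fun v => T v ∩ T u = ∅)).card : ℝ) ≤ c * Fintype.card V := by
      have h6 := hK.few u
      have h7 : univ.filter (fun v => T v ∩ T u = ∅) = univ.filter (fun w => T u ∩ T w = ∅) := by
        apply Finset.filter_congr
        intro w _
        rw [Finset.inter_comm]
      rw [h7]
      exact h6
    linarith
  have hsq : 0 ≤ (∑ x_1 ∈ M.filter (fun z => ∀ i, z ≠ ![x1, x2, x3, x4] i),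
      pr T x_1 ^ 2) / 2 := by
    positivity
  have hl : ∑ i, (EKP_l i - 1 - Real.log (EKP_l i)) =
      7 / 3 + 12 / 7 - (2 * Real.log (13 / 6) + 2 * Real.log (13 / 7)) := by
    rw [Fin.sum_univ_four]
    show (13 / 6 - 1 - Real.log (13 / 6)) + (13 / 7 - 1 - Real.log (13 / 7)) +
      (13 / 6 - 1 - Real.log (13 / 6)) + (13 / 7 - 1 - Real.log (13 / 7)) = _
    ring
  have hfin := hTGE c hK.cl hK.cu
  unfold Bd
  refine le_trans h (le_trans ?_ hfin)
  have hpos : (0 : ℝ) < (42 / 169) ^ 2 := by norm_num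
  have he : Real.exp (-9 / 7 + 48 / 7 * c) * (42 / 169) ^ 2 =
      Real.exp (-9 / 7 + 48 / 7 * c + Real.log ((42 / 169) ^ 2)) := by
    rw [Real.exp_add _ (Real.log ((42 / 169) ^ 2)), Real.exp_log hpos]
  rw [he]
  apply Real.exp_le_exp.mpr
  rw [hl, EKP_log]
  linarith

end Pool.Agent.Work.MP_1ce445_win
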