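import Pool.Agent.Work.MP_1ce445_win.Interface

/-!
# Block FOU (MP_1ce445_co, window [1/7, 1/6]): the graphs on four points (helper55)
-/

namespace Pool.Agent.Work.MP_1ce445_win

open Finset Pool.Agent.Work.MP_1ce445_co_56 Pool.Agent.Work.MP_1ce445_lin
open Pool.Agent.Work.MP_1ce445_k4 (R ad Is LB3 LBT LC5 LG6 LG7 LKE LK5)

/-- the graph with the given six edges -/
def FOU_mk (a b c d e f : Bool) : Fin 4 → Fin 4 → Bool :=
  ![![false, a, b, c], ![a, false, d, e], ![b, d, false, f], ![c, e, f, false]]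

def FOU_P1 (A : Fin 4 → Fin 4 → Bool) : Prop := ∀ i j, A i j = false

def FOU_P2 (A : Fin 4 → Fin 4 → Bool) : Prop :=
  ∃ a b c d : Fin 4, [a, b, c, d].Nodup ∧ A a b = true ∧ A b c = true ∧ A c d = true ∧
      A d a = true ∧ A a c = false ∧ A b d = false

def FOU_P3 (A : Fin 4 → Fin 4 → Bool) : Prop :=
  ∃ x y : Fin 4, A x y = true ∧ ∀ u v, A u v = true → u ≠ x → v ≠ x → u ≠ y ∧ v ≠ y

def FOU_P4 (A : Fin 4 → Fin 4 → Bool) : Prop :=
  ∃ a b c : Fin 4, A a b = true ∧ A b c = true ∧ A c a = true ∧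
      ∀ u v, A u v = true → (u = a ∨ u = b ∨ u = c) ∧ (v = a ∨ v = b ∨ v = c)

def FOU_P5 (A : Fin 4 → Fin 4 → Bool) : Prop :=
  ∃ a b c d : Fin 4, [a, b, c, d].Nodup ∧ A a b = true ∧ A b c = true ∧ A c d = true ∧
      A d a = true ∧ A a c = true ∧ A b d = false

def FOU_P6 (A : Fin 4 → Fin 4 → Bool) : Prop := ∀ i j, i ≠ j → A i j = true

instance (A : Fin 4 → Fin 4 → Bool) : Decidable (FOU_P1 A) := by unfold FOU_P1; infer_instance
instance (A : Fin 4 → Fin 4 → Bool) : Decidable (FOU_P2 A) := by unfold FOU_P2; infer_instance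
instance (A : Fin 4 → Fin 4 → Bool) : Decidable (FOU_P3 A) := by unfold FOU_P3; infer_instance
instance (A : Fin 4 → Fin 4 → Bool) : Decidable (FOU_P4 A) := by unfold FOU_P4; infer_instance
instance (A : Fin 4 → Fin 4 → Bool) : Decidable (FOU_P5 A) := by unfold FOU_P5; infer_instance
instance (A : Fin 4 → Fin 4 → Bool) : Decidable (FOU_P6 A) := by unfold FOU_P6; infer_instance

def FOU_P (A : Fin 4 → Fin 4 → Bool) : Prop :=
  FOU_P1 A ∨ FOU_P2 A ∨ FOU_P3 A ∨ FOU_P4 A ∨ FOU_P5 A ∨ FOU_P6 A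

instance (A : Fin 4 → Fin 4 → Bool) : Decidable (FOU_P A) := by unfold FOU_P; infer_instance

theorem FOU_all : ∀ a b c d e f : Bool, FOU_P (FOU_mk a b c d e f) := by
  decide +kernel

theorem stmt_FOU : Stmt_FOU := by
  intro A hs hi
  have hA : A = FOU_mk (A 0 1) (A 0 2) (A 0 3) (A 1 2) (A 1 3) (A 2 3) := by
    funext i j
    fin_cases i <;> fin_cases j <;>
      first
        | exact hi _
        | rfl
        | exact hs _ _
  have h := FOU_all (A 0 1) (A 0 2) (A 0 3) (A 1 2) (A 1 3) (A 2 3)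
  rw [← hA] at h
  exact h

end Pool.Agent.Work.MP_1ce445_win
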