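import Pool.Agent.Work.MP_1ce445_win.Interface

namespace Pool.Agent.Work.MP_1ce445_win

open Finset Pool.Agent.Work.MP_1ce445_co_56 Pool.Agent.Work.MP_1ce445_lin
open Pool.Agent.Work.MP_1ce445_k4 (R ad Is LB3 LBT LC5 LG6 LG7 LKE LK5)

/-- the number of sets missing both points of a present pair -/
theorem GBA_miss {V : Type} [Fintype V] {k : ℕ} {M : Finset (Fin k)} {T : V → Finset (Fin k)}
    {c : ℝ} (hK : Kf M T c) {p q : Fin k} (h : R T p q) :
    ((univ.filter (fun w => p ∉ T w ∧ q ∉ T w)).card : ℝ) ≤ c * Fintype.card V := by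
  obtain ⟨-, v, hv⟩ := h
  have h1 := hK.few v
  have h2 : univ.filter (fun w => p ∉ T w ∧ q ∉ T w) = univ.filter (fun w => T v ∩ T w = ∅) := by
    apply Finset.filter_congr
    intro w _
    rw [hv]
    constructor
    · rintro ⟨h3, h4⟩
      ext z
      simp only [Finset.mem_inter, Finset.mem_insert, Finset.mem_singleton, Finset.notMem_empty,
        iff_false, not_and]
      rintro (rfl | rfl)
      · exact h3
      · exact h4
    · intro h3
      constructor
      · intro h4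
        have h5 : p ∈ ({p, q} : Finset (Fin k)) ∩ T w := by simp [h4]
        rw [h3] at h5
        exact absurd h5 (Finset.notMem_empty _)
      · intro h4
        have h5 : q ∈ ({p, q} : Finset (Fin k)) ∩ T w := by simp [h4]
        rw [h3] at h5
        exact absurd h5 (Finset.notMem_empty _)
  rw [h2]
  exact h1

/-- the weight of the missed pairs -/
noncomputable def GBA_ph {k : ℕ} (p : Fin 5 → Fin k) (S : Finset (Fin k)) : ℝ :=
  2 / 5 * (if p 0 ∉ S ∧ p 1 ∉ S then 1 else 0) +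
  7 / 10 * (if p 0 ∉ S ∧ p 2 ∉ S then 1 else 0) +
  7 / 10 * (if p 0 ∉ S ∧ p 3 ∉ S then 1 else 0) +
  7 / 10 * (if p 0 ∉ S ∧ p 4 ∉ S then 1 else 0) +
  7 / 10 * (if p 1 ∉ S ∧ p 2 ∉ S then 1 else 0) +
  7 / 10 * (if p 1 ∉ S ∧ p 3 ∉ S then 1 else 0) +
  7 / 10 * (if p 1 ∉ S ∧ p 4 ∉ S then 1 else 0)

theorem GBA_pair (i j : Fin 5) (h : ad LB3 i j = true) :
    (28 / 5 : ℝ) ≤ 2 + ((if (0 = i ∨ 0 = j) then 9 / 5 else 0) +
      (if (1 = i ∨ 1 = j) then 9 / 5 else 0) + (if (2 = i ∨ 2 = j) then 2 / 5 else 0) +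
      (if (3 = i ∨ 3 = j) then 2 / 5 else 0) + (if (4 = i ∨ 4 = j) then 2 / 5 else 0)) +
      (2 / 5 * (if ¬(0 = i ∨ 0 = j) ∧ ¬(1 = i ∨ 1 = j) then 1 else 0) +
      7 / 10 * (if ¬(0 = i ∨ 0 = j) ∧ ¬(2 = i ∨ 2 = j) then 1 else 0) +
      7 / 10 * (if ¬(0 = i ∨ 0 = j) ∧ ¬(3 = i ∨ 3 = j) then 1 else 0) +
      7 / 10 * (if ¬(0 = i ∨ 0 = j) ∧ ¬(4 = i ∨ 4 = j) then 1 else 0) +
      7 / 10 * (if ¬(1 = i ∨ 1 = j) ∧ ¬(2 = i ∨ 2 = j) then 1 else 0) +
      7 / 10 * (if ¬(1 = i ∨ 1 = j) ∧ ¬(3 = i ∨ 3 = j) then 1 else 0) +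
      7 / 10 * (if ¬(1 = i ∨ 1 = j) ∧ ¬(4 = i ∨ 4 = j) then 1 else 0)) := by
  revert h
  fin_cases i <;> fin_cases j <;>
    first
      | (intro h; exact absurd h (by decide))
      | (intro _; norm_num [Fin.ext_iff])

theorem GBA_point {V : Type} [Fintype V] {k : ℕ} {M : Finset (Fin k)} {T : V → Finset (Fin k)}
    {c : ℝ} (hK : Kf M T c) (p : Fin 5 → Fin k) (hp : Function.Injective p)
    (h2 : ∀ v, (T v).card = 2 → ∃ i j, ad LB3 i j = true ∧ T v = {p i, p j})
    (h3 : ∀ v, T v ≠ {p 2, p 3, p 4}) (v : V) :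
    (28 / 5 : ℝ) ≤ ((T v).card : ℝ) + ((if p 0 ∈ T v then 9 / 5 else 0) +
      (if p 1 ∈ T v then 9 / 5 else 0) + (if p 2 ∈ T v then 2 / 5 else 0) +
      (if p 3 ∈ T v then 2 / 5 else 0) + (if p 4 ∈ T v then 2 / 5 else 0)) +
      GBA_ph p (T v) := by
  unfold GBA_ph
  rcases Nat.lt_or_ge (T v).card 3 with h4 | h4
  · have h5 : (T v).card = 2 := le_antisymm (by omega) (hK.two v)
    have h6 : ((T v).card : ℝ) = 2 := by exact_mod_cast h5
    rw [h6]
    obtain ⟨i, j, hij, hT⟩ := h2 v h5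
    have hm : ∀ a, (p a ∈ T v) ↔ (a = i ∨ a = j) := by
      intro a
      rw [hT]
      simp [hp.eq_iff]
    simp only [hm]
    exact GBA_pair i j hij
  · have h5 : (3 : ℝ) ≤ ((T v).card : ℝ) := by exact_mod_cast h4
    by_cases e0 : p 0 ∈ T v <;> by_cases e1 : p 1 ∈ T v <;> by_cases e2 : p 2 ∈ T v <;>
      by_cases e3 : p 3 ∈ T v <;> by_cases e4 : p 4 ∈ T v <;>
      simp only [e0, e1, e2, e3, e4, if_true, if_false, not_true, not_false_eq_true, false_and,
        and_self, and_false] <;> first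
      | linarith
      | (have h6 : ({p 2, p 3, p 4} : Finset (Fin k)) ⊂ T v := by
          refine Finset.ssubset_iff_subset_ne.mpr ⟨?_, fun h => h3 v h.symm⟩
          intro z hz
          simp only [Finset.mem_insert, Finset.mem_singleton] at hz
          rcases hz with rfl | rfl | rfl
          · exact e2
          · exact e3
          · exact e4
         have h7 := Finset.card_lt_card h6
         have h8 : ({p 2, p 3, p 4} : Finset (Fin k)).card = 3 := by
          rw [Finset.card_eq_three]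
          exact ⟨p 2, p 3, p 4, fun h => absurd (hp h) (by decide),
            fun h => absurd (hp h) (by decide), fun h => absurd (hp h) (by decide), rfl⟩
         have h9 : (4 : ℝ) ≤ ((T v).card : ℝ) := by
          have : 4 ≤ (T v).card := by omega
          exact_mod_cast this
         linarith)

theorem GBA_sum {V : Type} [Fintype V] {k : ℕ} (T : V → Finset (Fin k)) (x y : Fin k) (m : ℝ) :
    ∑ v, m * (if x ∉ T v ∧ y ∉ T v then (1 : ℝ) else 0) =
      m * ((univ.filter (fun w => x ∉ T w ∧ y ∉ T w)).card : ℝ) := by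
  rw [← Finset.mul_sum, Finset.sum_boole]

theorem stmt_GBA (hTG : Stmt_TG) (hLPC : Pool.Agent.Work.MP_1ce445_s7.Stmt_LPC) : Stmt_GBA := by
  intro V _ k M T c hK p hp h2 hR h3
  have hN : 0 < Fintype.card V := hK.pos
  have hNR : (0 : ℝ) < Fintype.card V := by exact_mod_cast hN
  have hpt : ∀ v, (28 / 5 : ℝ) ≤ ((T v).card : ℝ) +
      (∑ i, if p i ∈ T v then (![14 / 5, 14 / 5, 7 / 5, 7 / 5, 7 / 5] : Fin 5 → ℝ) i - 1 else 0) +
      GBA_ph p (T v) := by
    intro v
    have hs : (∑ i, if p i ∈ T v then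
        (![14 / 5, 14 / 5, 7 / 5, 7 / 5, 7 / 5] : Fin 5 → ℝ) i - 1 else 0) =
        (if p 0 ∈ T v then 9 / 5 else 0) +
      (if p 1 ∈ T v then 9 / 5 else 0) + (if p 2 ∈ T v then 2 / 5 else 0) +
      (if p 3 ∈ T v then 2 / 5 else 0) + (if p 4 ∈ T v then 2 / 5 else 0) := by
      rw [Fin.sum_univ_five]
      simp only [Matrix.cons_val_zero, Matrix.cons_val_one, Matrix.cons_val]
      norm_num
    rw [hs]
    exact GBA_point hK p hp h2 h3 v
  have h := hLPC M T hN hK.sub 5 p ![14 / 5, 14 / 5, 7 / 5, 7 / 5, 7 / 5]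
    (fun v => GBA_ph p (T v)) (28 / 5) hp
    (by intro i; fin_cases i <;> norm_num) hpt
  have hsum : (∑ v, GBA_ph p (T v)) / Fintype.card V ≤ 23 / 5 * c := by
    rw [div_le_iff₀ hNR]
    unfold GBA_ph
    simp only [Finset.sum_add_distrib, GBA_sum]
    have g1 := GBA_miss hK (hR 0 1 (by decide))
    have g2 := GBA_miss hK (hR 0 2 (by decide))
    have g3 := GBA_miss hK (hR 0 3 (by decide))
    have g4 := GBA_miss hK (hR 0 4 (by decide))
    have g5 := GBA_miss hK (hR 1 2 (by decide))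
    have g6 := GBA_miss hK (hR 1 3 (by decide))
    have g7 := GBA_miss hK (hR 1 4 (by decide))
    linarith
  have hsq : 0 ≤ (∑ x ∈ M.filter (fun x => ∀ i, x ≠ p i), pr T x ^ 2) / 2 := by
    positivity
  have hlog2 : 1 / 3 ≤ Real.log (7 / 5) := by
    have e1 : Real.log ((7 / 5) ^ 3) = 3 * Real.log (7 / 5) := by
      rw [Real.log_pow]; norm_num
    have e2 : 1 ≤ Real.log ((7 / 5 : ℝ) ^ 3) := by
      rw [Real.le_log_iff_exp_le (by norm_num)]
      have := Real.exp_one_lt_d9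
      norm_num
      linarith
    linarith
  have hlog1 : 102 / 100 ≤ Real.log (14 / 5) := by
    have e1 : (14 / 5 : ℝ) = 2 * (7 / 5) := by norm_num
    rw [e1, Real.log_mul (by norm_num) (by norm_num)]
    have := Real.log_two_gt_d9
    linarith
  have hl : ∑ i : Fin 5, ((![14 / 5, 14 / 5, 7 / 5, 7 / 5, 7 / 5] : Fin 5 → ℝ) i - 1 -
      Real.log ((![14 / 5, 14 / 5, 7 / 5, 7 / 5, 7 / 5] : Fin 5 → ℝ) i)) =
      24 / 5 - 2 * Real.log (14 / 5) - 3 * Real.log (7 / 5) := by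
    rw [Fin.sum_univ_five]
    simp only [Matrix.cons_val_zero, Matrix.cons_val_one, Matrix.cons_val]
    ring
  have hfin := hTG c (24 / 5 - 2 * Real.log (14 / 5) - 3 * Real.log (7 / 5) - 28 / 5) (23 / 5)
    hK.cl hK.cu (by linarith) (by linarith)
  unfold Bd
  refine le_trans h (le_trans ?_ hfin)
  apply Real.exp_le_exp.mpr
  rw [hl]
  linarith

end Pool.Agent.Work.MP_1ce445_win
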