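import Pool.Agent.Work.MP_1ce445_win.Interface

/-!
Block GBP of the range `1/7 ≤ c ≤ 1/6` (MP_1ce445_co): the book with three pages, the set of the pages is present.
-/

namespace Pool.Agent.Work.MP_1ce445_win

open Finset Pool.Agent.Work.MP_1ce445_co_56 Pool.Agent.Work.MP_1ce445_lin
open Pool.Agent.Work.MP_1ce445_k4 (R ad Is LB3 LBT LC5 LG6 LG7 LKE LK5)

/-- the number of sets missing both points of a present pair -/
theorem GBP_miss {V : Type} [Fintype V] {k : ℕ} {M : Finset (Fin k)} {T : V → Finset (Fin k)}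
    {c : ℝ} (hK : Kf M T c) {p q : Fin k} (h : R T p q) :
    ((univ.filter (fun w => p ∉ T w ∧ q ∉ T w)).card : ℝ) ≤ c * Fintype.card V := by
  obtain ⟨-, v, hv⟩ := h
  have h1 := hK.few v
  have h2 : univ.filter (fun w => p ∉ T w ∧ q ∉ T w) = univ.filter (fun w => T v ∩ T w = ∅) := by
    apply Finset.filter_congr
    intro w _
    rw [hv]
    constructor
    · rintro ⟨h3, h4⟩
      ext z
      simp only [Finset.mem_inter, Finset.mem_insert, Finset.mem_singleton, Finset.notMem_empty,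
        iff_false, not_and]
      rintro (rfl | rfl)
      · exact h3
      · exact h4
    · intro h3
      constructor
      · intro h4
        have h5 : p ∈ ({p, q} : Finset (Fin k)) ∩ T w := by simp [h4]
        rw [h3] at h5
        exact absurd h5 (Finset.notMem_empty _)
      · intro h4
        have h5 : q ∈ ({p, q} : Finset (Fin k)) ∩ T w := by simp [h4]
        rw [h3] at h5
        exact absurd h5 (Finset.notMem_empty _)
  rw [h2]
  exact h1

/-- the number of sets missing the three points of a set -/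
theorem GBP_miss3 {V : Type} [Fintype V] {k : ℕ} {M : Finset (Fin k)} {T : V → Finset (Fin k)}
    {c : ℝ} (hK : Kf M T c) {p q r : Fin k} (h : ∃ v, T v = {p, q, r}) :
    ((univ.filter (fun w => p ∉ T w ∧ q ∉ T w ∧ r ∉ T w)).card : ℝ) ≤ c * Fintype.card V := by
  obtain ⟨v, hv⟩ := h
  have h1 := hK.few v
  have h2 : univ.filter (fun w => p ∉ T w ∧ q ∉ T w ∧ r ∉ T w) =
      univ.filter (fun w => T v ∩ T w = ∅) := by
    apply Finset.filter_congr
    intro w _
    rw [hv]
    constructor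
    · rintro ⟨h3, h4, h6⟩
      ext z
      simp only [Finset.mem_inter, Finset.mem_insert, Finset.mem_singleton, Finset.notMem_empty,
        iff_false, not_and]
      rintro (rfl | rfl | rfl)
      · exact h3
      · exact h4
      · exact h6
    · intro h3
      refine ⟨?_, ?_, ?_⟩
      · intro h4
        have h5 : p ∈ ({p, q, r} : Finset (Fin k)) ∩ T w := by simp [h4]
        rw [h3] at h5
        exact absurd h5 (Finset.notMem_empty _)
      · intro h4
        have h5 : q ∈ ({p, q, r} : Finset (Fin k)) ∩ T w := by simp [h4]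
        rw [h3] at h5
        exact absurd h5 (Finset.notMem_empty _)
      · intro h4
        have h5 : r ∈ ({p, q, r} : Finset (Fin k)) ∩ T w := by simp [h4]
        rw [h3] at h5
        exact absurd h5 (Finset.notMem_empty _)
  rw [h2]
  exact h1

theorem GBP_log : 4 * Real.log 2 ≤ 7 * Real.log (3 / 2) := by
  have h1 : Real.log ((2 : ℝ) ^ 4) ≤ Real.log ((3 / 2 : ℝ) ^ 7) :=
    Real.log_le_log (by norm_num) (by norm_num)
  rw [Real.log_pow, Real.log_pow] at h1
  exact_mod_cast h1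

theorem stmt_GBP (hTG : Stmt_TG) (hLPC : Pool.Agent.Work.MP_1ce445_s7.Stmt_LPC) : Stmt_GBP := by
  intro V _ k M T c hK p hp h2 hR htr
  have hN : 0 < Fintype.card V := hK.pos
  have hNR : (0 : ℝ) < Fintype.card V := by exact_mod_cast hN
  set ph : V → ℝ := fun v => 1 / 2 * (if p 0 ∉ T v ∧ p 1 ∉ T v then 1 else 0) +
    3 / 4 * (if p 0 ∉ T v ∧ p 2 ∉ T v then 1 else 0) +
    3 / 4 * (if p 0 ∉ T v ∧ p 3 ∉ T v then 1 else 0) +
    3 / 4 * (if p 0 ∉ T v ∧ p 4 ∉ T v then 1 else 0) +
    3 / 4 * (if p 1 ∉ T v ∧ p 2 ∉ T v then 1 else 0) +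
    3 / 4 * (if p 1 ∉ T v ∧ p 3 ∉ T v then 1 else 0) +
    3 / 4 * (if p 1 ∉ T v ∧ p 4 ∉ T v then 1 else 0) +
    (if p 2 ∉ T v ∧ p 3 ∉ T v ∧ p 4 ∉ T v then 1 else 0) with hph
  have hpt : ∀ v, (5 : ℝ) ≤ ((T v).card : ℝ) +
      (∑ i, if p i ∈ T v then (![2, 2, 3 / 2, 3 / 2, 3 / 2] : Fin 5 → ℝ) i - 1 else 0) + ph v := by
    intro v
    have hs : (∑ i, if p i ∈ T v then (![2, 2, 3 / 2, 3 / 2, 3 / 2] : Fin 5 → ℝ) i - 1 else 0) =
        (if p 0 ∈ T v then 1 else 0) + (if p 1 ∈ T v then 1 else 0) +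
        (if p 2 ∈ T v then 1 / 2 else 0) +
        (if p 3 ∈ T v then 1 / 2 else 0) + (if p 4 ∈ T v then (1 / 2 : ℝ) else 0) := by
      rw [Fin.sum_univ_five]
      simp only [Matrix.cons_val_zero, Matrix.cons_val_one, Matrix.cons_val]
      norm_num
    rw [hs]
    rcases Nat.lt_or_ge (T v).card 3 with h3 | h3
    · have h4 : (T v).card = 2 := le_antisymm (by omega) (hK.two v)
      have h5 : ((T v).card : ℝ) = 2 := by exact_mod_cast h4
      rw [h5]
      obtain ⟨i, j, hij, hT⟩ := h2 v h4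
      have hm : ∀ m, (p m ∈ T v) = (m = i ∨ m = j) := by
        intro m
        rw [hT]
        simp only [Finset.mem_insert, Finset.mem_singleton, hp.eq_iff]
      simp only [hph, hm]
      clear hm hT hs
      revert hij
      fin_cases i <;> fin_cases j <;> intro hij <;>
        first
          | (exfalso; revert hij; decide)
          | (norm_num [Fin.ext_iff])
    · have h5 : (3 : ℝ) ≤ ((T v).card : ℝ) := by exact_mod_cast h3
      simp only [hph]
      by_cases e0 : p 0 ∈ T v <;> by_cases e1 : p 1 ∈ T v <;> by_cases e2 : p 2 ∈ T v <;>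
        by_cases e3 : p 3 ∈ T v <;> by_cases e4 : p 4 ∈ T v <;>
        simp only [e0, e1, e2, e3, e4, if_true, if_false, not_true, not_false_eq_true, false_and,
          and_self, and_false] <;> linarith
  have h := hLPC M T hN hK.sub 5 p (![2, 2, 3 / 2, 3 / 2, 3 / 2] : Fin 5 → ℝ) ph 5 hp
    (fun i => by fin_cases i <;> simp <;> norm_num) hpt
  have hsum : (∑ v, ph v) / Fintype.card V ≤ 6 * c := by
    rw [div_le_iff₀ hNR]
    have e : ∑ v, ph v = 1 / 2 * ((univ.filter (fun w => p 0 ∉ T w ∧ p 1 ∉ T w)).card : ℝ) +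
        3 / 4 * ((univ.filter (fun w => p 0 ∉ T w ∧ p 2 ∉ T w)).card : ℝ) +
        3 / 4 * ((univ.filter (fun w => p 0 ∉ T w ∧ p 3 ∉ T w)).card : ℝ) +
        3 / 4 * ((univ.filter (fun w => p 0 ∉ T w ∧ p 4 ∉ T w)).card : ℝ) +
        3 / 4 * ((univ.filter (fun w => p 1 ∉ T w ∧ p 2 ∉ T w)).card : ℝ) +
        3 / 4 * ((univ.filter (fun w => p 1 ∉ T w ∧ p 3 ∉ T w)).card : ℝ) +
        3 / 4 * ((univ.filter (fun w => p 1 ∉ T w ∧ p 4 ∉ T w)).card : ℝ) +
        ((univ.filter (fun w => p 2 ∉ T w ∧ p 3 ∉ T w ∧ p 4 ∉ T w)).card : ℝ) := by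
      simp only [hph, Finset.sum_add_distrib, ← Finset.mul_sum]
      simp only [← Finset.sum_boole]
    rw [e]
    have g01 := GBP_miss hK (hR 0 1 (by decide))
    have g02 := GBP_miss hK (hR 0 2 (by decide))
    have g03 := GBP_miss hK (hR 0 3 (by decide))
    have g04 := GBP_miss hK (hR 0 4 (by decide))
    have g12 := GBP_miss hK (hR 1 2 (by decide))
    have g13 := GBP_miss hK (hR 1 3 (by decide))
    have g14 := GBP_miss hK (hR 1 4 (by decide))
    have g3 := GBP_miss3 hK htr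
    linarith
  have hsq : 0 ≤ (∑ x ∈ M.filter (fun z => ∀ i, z ≠ p i), pr T x ^ 2) / 2 := by
    positivity
  have hlog := GBP_log
  have hl2 := Real.log_two_gt_d9
  have hfin := hTG c (7 / 2 - 2 * Real.log 2 - 3 * Real.log (3 / 2) - 5) 6 hK.cl hK.cu
    (by linarith) (by linarith)
  unfold Bd
  refine le_trans h (le_trans ?_ hfin)
  apply Real.exp_le_exp.mpr
  have hl' : ∑ i : Fin 5, ((![2, 2, 3 / 2, 3 / 2, 3 / 2] : Fin 5 → ℝ) i - 1 -
      Real.log ((![2, 2, 3 / 2, 3 / 2, 3 / 2] : Fin 5 → ℝ) i)) =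
      7 / 2 - 2 * Real.log 2 - 3 * Real.log (3 / 2) := by
    rw [Fin.sum_univ_five]
    simp only [Matrix.cons_val_zero, Matrix.cons_val_one, Matrix.cons_val]
    ring
  rw [hl']
  linarith

end Pool.Agent.Work.MP_1ce445_win
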