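import Pool.Agent.Work.MP_1ce445_win.Interface

namespace Pool.Agent.Work.MP_1ce445_win

open Finset Pool.Agent.Work.MP_1ce445_co_56 Pool.Agent.Work.MP_1ce445_lin
open Pool.Agent.Work.MP_1ce445_k4 (R ad Is LB3 LBT LC5 LG6 LG7 LKE LK5)

/-- the weights -/
noncomputable def GG6_l : Fin 5 → ℝ := ![2, 2, 2, 4 / 3, 4 / 3]
/-- the multipliers -/
noncomputable def GG6_mu : Fin 7 → ℝ := ![3 / 10, 3 / 10, 1 / 2, 1 / 2, 3 / 5, 9 / 10, 9 / 10]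
/-- first points -/
def GG6_a : Fin 7 → Fin 5 := ![0, 0, 0, 0, 1, 1, 2]
/-- second points -/
def GG6_b : Fin 7 → Fin 5 := ![1, 2, 3, 4, 2, 4, 3]

theorem GG6_bool (t0 t1 t2 t3 t4 : Bool) :
    (29 / 6 : ℝ) ≤ max 3 ((((if t0 = true then 1 else 0) + (if t1 = true then 1 else 0) +
      (if t2 = true then 1 else 0) + (if t3 = true then 1 else 0) +
      (if t4 = true then 1 else 0) : ℕ)) : ℝ) +
      ((if t0 = true then (2 : ℝ) - 1 else 0) + (if t1 = true then (2 : ℝ) - 1 else 0) +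
        (if t2 = true then (2 : ℝ) - 1 else 0) + (if t3 = true then (4 / 3 : ℝ) - 1 else 0) +
        (if t4 = true then (4 / 3 : ℝ) - 1 else 0)) +
      ((if t0 = false ∧ t1 = false then (3 / 10 : ℝ) else 0) +
        (if t0 = false ∧ t2 = false then (3 / 10 : ℝ) else 0) +
        (if t0 = false ∧ t3 = false then (1 / 2 : ℝ) else 0) +
        (if t0 = false ∧ t4 = false then (1 / 2 : ℝ) else 0) +
        (if t1 = false ∧ t2 = false then (3 / 5 : ℝ) else 0) +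
        (if t1 = false ∧ t4 = false then (9 / 10 : ℝ) else 0) +
        (if t2 = false ∧ t3 = false then (9 / 10 : ℝ) else 0)) := by
  cases t0 <;> cases t1 <;> cases t2 <;> cases t3 <;> cases t4 <;> norm_num

theorem GG6_two (t0 t1 t2 t3 t4 : Prop) [Decidable t0] [Decidable t1] [Decidable t2]
    [Decidable t3] [Decidable t4]
    (h : (t0 ∧ t1 ∧ ¬ t2 ∧ ¬ t3 ∧ ¬ t4) ∨ (t0 ∧ ¬ t1 ∧ t2 ∧ ¬ t3 ∧ ¬ t4) ∨
      (t0 ∧ ¬ t1 ∧ ¬ t2 ∧ t3 ∧ ¬ t4) ∨ (t0 ∧ ¬ t1 ∧ ¬ t2 ∧ ¬ t3 ∧ t4) ∨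
      (¬ t0 ∧ t1 ∧ t2 ∧ ¬ t3 ∧ ¬ t4) ∨ (¬ t0 ∧ t1 ∧ ¬ t2 ∧ ¬ t3 ∧ t4) ∨
      (¬ t0 ∧ ¬ t1 ∧ t2 ∧ t3 ∧ ¬ t4)) :
    (29 / 6 : ℝ) ≤ 2 +
      ((if t0 then (2 : ℝ) - 1 else 0) + (if t1 then (2 : ℝ) - 1 else 0) +
        (if t2 then (2 : ℝ) - 1 else 0) + (if t3 then (4 / 3 : ℝ) - 1 else 0) +
        (if t4 then (4 / 3 : ℝ) - 1 else 0)) +
      ((if ¬ t0 ∧ ¬ t1 then (3 / 10 : ℝ) else 0) +
        (if ¬ t0 ∧ ¬ t2 then (3 / 10 : ℝ) else 0) +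
        (if ¬ t0 ∧ ¬ t3 then (1 / 2 : ℝ) else 0) +
        (if ¬ t0 ∧ ¬ t4 then (1 / 2 : ℝ) else 0) +
        (if ¬ t1 ∧ ¬ t2 then (3 / 5 : ℝ) else 0) +
        (if ¬ t1 ∧ ¬ t4 then (9 / 10 : ℝ) else 0) +
        (if ¬ t2 ∧ ¬ t3 then (9 / 10 : ℝ) else 0)) := by
  rcases h with ⟨h0, h1, h2, h3, h4⟩ | ⟨h0, h1, h2, h3, h4⟩ | ⟨h0, h1, h2, h3, h4⟩ |
    ⟨h0, h1, h2, h3, h4⟩ | ⟨h0, h1, h2, h3, h4⟩ | ⟨h0, h1, h2, h3, h4⟩ |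
    ⟨h0, h1, h2, h3, h4⟩ <;> simp only [h0, h1, h2, h3, h4] <;> norm_num

/-- the edges -/
theorem GG6_edges (i j : Fin 5) (h : ad LG6 i j = true) :
    ((i = 0 ∧ j = 1) ∨ (i = 1 ∧ j = 0)) ∨ ((i = 0 ∧ j = 2) ∨ (i = 2 ∧ j = 0)) ∨
    ((i = 0 ∧ j = 3) ∨ (i = 3 ∧ j = 0)) ∨ ((i = 0 ∧ j = 4) ∨ (i = 4 ∧ j = 0)) ∨
    ((i = 1 ∧ j = 2) ∨ (i = 2 ∧ j = 1)) ∨ ((i = 1 ∧ j = 4) ∨ (i = 4 ∧ j = 1)) ∨
    ((i = 2 ∧ j = 3) ∨ (i = 3 ∧ j = 2)) := by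
  revert i j
  decide

theorem stmt_GG6 (hTG : Stmt_TG) (h1 : Stmt_CER) : Stmt_GG6 := by
  intro V _ k M T c hK hIs
  obtain ⟨p, hp, h2, hE⟩ := hIs
  have key := h1 M T c hK 5 7 p GG6_l GG6_a GG6_b GG6_mu (29 / 6) hp
    (by
      intro i
      fin_cases i <;> simp [GG6_l] <;> norm_num)
    (by
      intro s
      fin_cases s <;> simp [GG6_mu] <;> norm_num)
    (by
      intro s
      apply hE
      revert s
      decide)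
    (by
      intro v hv
      obtain ⟨i, j, hij, hTv⟩ := h2 v hv
      have hmem : ∀ x : Fin 5, p x ∈ T v ↔ (x = i ∨ x = j) := by
        intro x
        rw [hTv, Finset.mem_insert, Finset.mem_singleton, hp.eq_iff, hp.eq_iff]
      simp only [Fin.sum_univ_five, Fin.sum_univ_seven, hmem]
      rcases GG6_edges i j hij with (⟨rfl, rfl⟩ | ⟨rfl, rfl⟩) | (⟨rfl, rfl⟩ | ⟨rfl, rfl⟩) |
        (⟨rfl, rfl⟩ | ⟨rfl, rfl⟩) | (⟨rfl, rfl⟩ | ⟨rfl, rfl⟩) | (⟨rfl, rfl⟩ | ⟨rfl, rfl⟩) |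
        (⟨rfl, rfl⟩ | ⟨rfl, rfl⟩) | (⟨rfl, rfl⟩ | ⟨rfl, rfl⟩) <;>
      exact GG6_two _ _ _ _ _ (by simp))
    (by
      intro t
      have hb := GG6_bool (t 0) (t 1) (t 2) (t 3) (t 4)
      rw [Finset.card_filter]
      simp only [Fin.sum_univ_five, Fin.sum_univ_seven]
      exact hb)
  refine key.trans ?_
  have e1 : ∑ i, (GG6_l i - 1 - Real.log (GG6_l i)) =
      11 / 3 - 3 * Real.log 2 - 2 * Real.log (4 / 3) := by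
    rw [Fin.sum_univ_five]
    show (2 - 1 - Real.log 2) + (2 - 1 - Real.log 2) + (2 - 1 - Real.log 2) +
      (4 / 3 - 1 - Real.log (4 / 3)) + (4 / 3 - 1 - Real.log (4 / 3)) = _
    ring
  have e2 : ∑ s, GG6_mu s = 4 := by
    rw [Fin.sum_univ_seven]
    show (3 / 10 : ℝ) + 3 / 10 + 1 / 2 + 1 / 2 + 3 / 5 + 9 / 10 + 9 / 10 = 4
    norm_num
  rw [e1, e2]
  have e3 : (11 / 3 - 3 * Real.log 2 - 2 * Real.log (4 / 3) - 29 / 6 + c * 4 : ℝ) =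
      (11 / 3 - 3 * Real.log 2 - 2 * Real.log (4 / 3) - 29 / 6) + 4 * c := by ring
  rw [e3]
  have g1 : (0.6931471803 : ℝ) < Real.log 2 := Real.log_two_gt_d9
  have g2 : 1 - (4 / 3 : ℝ)⁻¹ ≤ Real.log (4 / 3) := Real.one_sub_inv_le_log_of_pos (by norm_num)
  have g3 : (1 - (4 / 3 : ℝ)⁻¹) = 1 / 4 := by norm_num
  rw [g3] at g2
  exact hTG c _ 4 hK.cl hK.cu (by norm_num at g1 ⊢; linarith) (by norm_num at g1 ⊢; linarith)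

end Pool.Agent.Work.MP_1ce445_win
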