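import Pool.Agent.Work.MP_1ce445_win.Interface

/-! # Block GG7 (MP_1ce445_co, range 1/7 to 1/6) (helper1, copy of helper89 with another end) -/

namespace Pool.Agent.Work.MP_1ce445_win

open Finset Pool.Agent.Work.MP_1ce445_co_56 Pool.Agent.Work.MP_1ce445_lin
open Pool.Agent.Work.MP_1ce445_k4 (R ad Is LB3 LBT LC5 LG6 LG7 LKE LK5)

/-- the weights -/
noncomputable def GG7_l : Fin 5 → ℝ := ![2, 2, 8 / 5, 8 / 5, 4 / 3]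
/-- the multipliers -/
noncomputable def GG7_mu : Fin 8 → ℝ :=
  ![3 / 20, 3 / 10, 3 / 10, 4 / 5, 3 / 10, 3 / 10, 4 / 5, 4 / 5]
/-- first points -/
def GG7_a : Fin 8 → Fin 5 := ![0, 0, 0, 0, 1, 1, 1, 2]
/-- second points -/
def GG7_b : Fin 8 → Fin 5 := ![1, 2, 3, 4, 2, 3, 4, 3]

theorem GG7_bool (t0 t1 t2 t3 t4 : Bool) :
    (14 / 3 : ℝ) ≤ max 3 ((((if t0 = true then 1 else 0) + (if t1 = true then 1 else 0) +
      (if t2 = true then 1 else 0) + (if t3 = true then 1 else 0) +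
      (if t4 = true then 1 else 0) : ℕ)) : ℝ) +
      ((if t0 = true then (2 : ℝ) - 1 else 0) + (if t1 = true then (2 : ℝ) - 1 else 0) +
        (if t2 = true then (8 / 5 : ℝ) - 1 else 0) + (if t3 = true then (8 / 5 : ℝ) - 1 else 0) +
        (if t4 = true then (4 / 3 : ℝ) - 1 else 0)) +
      ((if t0 = false ∧ t1 = false then (3 / 20 : ℝ) else 0) +
        (if t0 = false ∧ t2 = false then (3 / 10 : ℝ) else 0) +
        (if t0 = false ∧ t3 = false then (3 / 10 : ℝ) else 0) +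
        (if t0 = false ∧ t4 = false then (4 / 5 : ℝ) else 0) +
        (if t1 = false ∧ t2 = false then (3 / 10 : ℝ) else 0) +
        (if t1 = false ∧ t3 = false then (3 / 10 : ℝ) else 0) +
        (if t1 = false ∧ t4 = false then (4 / 5 : ℝ) else 0) +
        (if t2 = false ∧ t3 = false then (4 / 5 : ℝ) else 0)) := by
  cases t0 <;> cases t1 <;> cases t2 <;> cases t3 <;> cases t4 <;> norm_num

theorem GG7_two (t0 t1 t2 t3 t4 : Prop) [Decidable t0] [Decidable t1] [Decidable t2]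
    [Decidable t3] [Decidable t4]
    (h : (t0 ∧ t1 ∧ ¬ t2 ∧ ¬ t3 ∧ ¬ t4) ∨ (t0 ∧ ¬ t1 ∧ t2 ∧ ¬ t3 ∧ ¬ t4) ∨
      (t0 ∧ ¬ t1 ∧ ¬ t2 ∧ t3 ∧ ¬ t4) ∨ (t0 ∧ ¬ t1 ∧ ¬ t2 ∧ ¬ t3 ∧ t4) ∨
      (¬ t0 ∧ t1 ∧ t2 ∧ ¬ t3 ∧ ¬ t4) ∨ (¬ t0 ∧ t1 ∧ ¬ t2 ∧ t3 ∧ ¬ t4) ∨
      (¬ t0 ∧ t1 ∧ ¬ t2 ∧ ¬ t3 ∧ t4) ∨ (¬ t0 ∧ ¬ t1 ∧ t2 ∧ t3 ∧ ¬ t4)) :
    (14 / 3 : ℝ) ≤ 2 +
      ((if t0 then (2 : ℝ) - 1 else 0) + (if t1 then (2 : ℝ) - 1 else 0) +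
        (if t2 then (8 / 5 : ℝ) - 1 else 0) + (if t3 then (8 / 5 : ℝ) - 1 else 0) +
        (if t4 then (4 / 3 : ℝ) - 1 else 0)) +
      ((if ¬ t0 ∧ ¬ t1 then (3 / 20 : ℝ) else 0) +
        (if ¬ t0 ∧ ¬ t2 then (3 / 10 : ℝ) else 0) +
        (if ¬ t0 ∧ ¬ t3 then (3 / 10 : ℝ) else 0) +
        (if ¬ t0 ∧ ¬ t4 then (4 / 5 : ℝ) else 0) +
        (if ¬ t1 ∧ ¬ t2 then (3 / 10 : ℝ) else 0) +
        (if ¬ t1 ∧ ¬ t3 then (3 / 10 : ℝ) else 0) +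
        (if ¬ t1 ∧ ¬ t4 then (4 / 5 : ℝ) else 0) +
        (if ¬ t2 ∧ ¬ t3 then (4 / 5 : ℝ) else 0)) := by
  rcases h with ⟨h0, h1, h2, h3, h4⟩ | ⟨h0, h1, h2, h3, h4⟩ | ⟨h0, h1, h2, h3, h4⟩ |
    ⟨h0, h1, h2, h3, h4⟩ | ⟨h0, h1, h2, h3, h4⟩ | ⟨h0, h1, h2, h3, h4⟩ |
    ⟨h0, h1, h2, h3, h4⟩ | ⟨h0, h1, h2, h3, h4⟩ <;>
    simp only [h0, h1, h2, h3, h4] <;> norm_num

/-- the edges -/
theorem GG7_edges (i j : Fin 5) (h : ad LG7 i j = true) :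
    ((i = 0 ∧ j = 1) ∨ (i = 1 ∧ j = 0)) ∨ ((i = 0 ∧ j = 2) ∨ (i = 2 ∧ j = 0)) ∨
    ((i = 0 ∧ j = 3) ∨ (i = 3 ∧ j = 0)) ∨ ((i = 0 ∧ j = 4) ∨ (i = 4 ∧ j = 0)) ∨
    ((i = 1 ∧ j = 2) ∨ (i = 2 ∧ j = 1)) ∨ ((i = 1 ∧ j = 3) ∨ (i = 3 ∧ j = 1)) ∨
    ((i = 1 ∧ j = 4) ∨ (i = 4 ∧ j = 1)) ∨ ((i = 2 ∧ j = 3) ∨ (i = 3 ∧ j = 2)) := by
  revert i j
  decide

theorem stmt_GG7 (h0 : Stmt_TG) (h1 : Stmt_CER) : Stmt_GG7 := by
  intro V _ k M T c hK hIs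
  obtain ⟨p, hp, h2, hE⟩ := hIs
  have key := h1 M T c hK 5 8 p GG7_l GG7_a GG7_b GG7_mu (14 / 3) hp
    (by
      intro i
      fin_cases i <;> simp [GG7_l] <;> norm_num)
    (by
      intro s
      fin_cases s <;> simp [GG7_mu] <;> norm_num)
    (by
      intro s
      apply hE
      revert s
      decide)
    (by
      intro v hv
      obtain ⟨i, j, hij, hTv⟩ := h2 v hv
      have hmem : ∀ x : Fin 5, p x ∈ T v ↔ (x = i ∨ x = j) := by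
        intro x
        rw [hTv, Finset.mem_insert, Finset.mem_singleton, hp.eq_iff, hp.eq_iff]
      simp only [Fin.sum_univ_five, Fin.sum_univ_eight, hmem]
      rcases GG7_edges i j hij with (⟨rfl, rfl⟩ | ⟨rfl, rfl⟩) | (⟨rfl, rfl⟩ | ⟨rfl, rfl⟩) |
        (⟨rfl, rfl⟩ | ⟨rfl, rfl⟩) | (⟨rfl, rfl⟩ | ⟨rfl, rfl⟩) | (⟨rfl, rfl⟩ | ⟨rfl, rfl⟩) |
        (⟨rfl, rfl⟩ | ⟨rfl, rfl⟩) | (⟨rfl, rfl⟩ | ⟨rfl, rfl⟩) | (⟨rfl, rfl⟩ | ⟨rfl, rfl⟩) <;>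
      exact GG7_two _ _ _ _ _ (by simp))
    (by
      intro t
      have hb := GG7_bool (t 0) (t 1) (t 2) (t 3) (t 4)
      rw [Finset.card_filter]
      simp only [Fin.sum_univ_five, Fin.sum_univ_eight]
      exact hb)
  refine key.trans ?_
  have e1 : ∑ i, (GG7_l i - 1 - Real.log (GG7_l i)) =
      53 / 15 - 2 * Real.log 2 - 2 * Real.log (8 / 5) - Real.log (4 / 3) := by
    rw [Fin.sum_univ_five]
    show (2 - 1 - Real.log 2) + (2 - 1 - Real.log 2) + (8 / 5 - 1 - Real.log (8 / 5)) +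
      (8 / 5 - 1 - Real.log (8 / 5)) + (4 / 3 - 1 - Real.log (4 / 3)) = _
    ring
  have e2 : ∑ s, GG7_mu s = 15 / 4 := by
    rw [Fin.sum_univ_eight]
    show (3 / 20 : ℝ) + 3 / 10 + 3 / 10 + 4 / 5 + 3 / 10 + 3 / 10 + 4 / 5 + 4 / 5 = 15 / 4
    norm_num
  rw [e1, e2]
  have g1 : Real.log (256 / 75) = 2 * Real.log (8 / 5) + Real.log (4 / 3) := by
    rw [show (256 / 75 : ℝ) = (8 / 5) ^ 2 * (4 / 3) by norm_num,
      Real.log_mul (by norm_num) (by norm_num), Real.log_pow]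
    norm_num
  have g2 : (11 / 10 : ℝ) ≤ Real.log (256 / 75) := by
    rw [Real.le_log_iff_exp_le (by norm_num), show (11 / 10 : ℝ) = 1 + 1 / 10 by norm_num,
      Real.exp_add]
    have q1 : Real.exp 1 < 2.7182818286 := Real.exp_one_lt_d9
    have q2 : Real.exp (1 / 10) ≤ 10 / 9 := by
      have h3 : (-(1 / 10) : ℝ) + 1 ≤ Real.exp (-(1 / 10)) := Real.add_one_le_exp _
      rw [Real.exp_neg] at h3
      rw [show (10 / 9 : ℝ) = (9 / 10)⁻¹ by norm_num]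
      rw [le_inv_comm₀ (Real.exp_pos _) (by norm_num)]
      linarith
    have q3 : (0 : ℝ) < Real.exp (1 / 10) := Real.exp_pos _
    nlinarith
  have g3 : (0.6931471803 : ℝ) < Real.log 2 := Real.log_two_gt_d9
  have e3 : (53 / 15 - 2 * Real.log 2 - 2 * Real.log (8 / 5) - Real.log (4 / 3) - 14 / 3 +
      c * (15 / 4) : ℝ) =
      (53 / 15 - 2 * Real.log 2 - 2 * Real.log (8 / 5) - Real.log (4 / 3) - 14 / 3) +
        15 / 4 * c := by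
    ring
  rw [e3]
  apply h0 c _ _ hK.cl hK.cu
  · linarith
  · linarith

end Pool.Agent.Work.MP_1ce445_win
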