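import Pool.Agent.Work.MP_1ce445_win.Interface
import Pool.Agent.Work.MP_1ce445_k4.GK5

/-! Block GK5. -/

set_option autoImplicit false

namespace Pool.Agent.Work.MP_1ce445_win

open Finset Pool.Agent.Work.MP_1ce445_co_56 Pool.Agent.Work.MP_1ce445_lin
open Pool.Agent.Work.MP_1ce445_k4 (R ad Is LB3 LBT LC5 LG6 LG7 LKE LK5)
open Pool.Agent.Work.MP_1ce445_k4 (GK5_a GK5_b GK5_ad GK5_ne GK5_two GK5_three GK5_sum)

theorem stmt_GK5 (hTG : Stmt_TG) (hC : Stmt_CER) : Stmt_GK5 := by
  intro V _ k M T c hK hI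
  obtain ⟨p, hp, h2, h3⟩ := hI
  have key := hC M T c hK 5 10 p (fun _ => 9 / 5) GK5_a GK5_b (fun _ => 9 / 10) (63 / 10) hp
    (fun _ => by norm_num) (fun _ => by norm_num) (fun s => h3 _ _ (GK5_ad s)) ?_ ?_
  · unfold Bd
    refine key.trans ?_
    have hs : (∑ _i : Fin 5, ((9 / 5 : ℝ) - 1 - Real.log (9 / 5))) - 63 / 10 +
        c * ∑ _s : Fin 10, (9 / 10 : ℝ) =
        (4 - 5 * Real.log (9 / 5) - 63 / 10) + 9 * c := by
      simp only [Finset.sum_const, Finset.card_univ, Fintype.card_fin, nsmul_eq_mul]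
      push_cast
      ring
    rw [hs]
    have hl := Real.one_sub_inv_le_log_of_pos (show (0 : ℝ) < 9 / 5 by norm_num)
    norm_num at hl
    exact hTG c _ _ hK.cl hK.cu (by linarith) (by linarith)
  · intro v hv
    obtain ⟨i, j, hij, hT⟩ := h2 v hv
    have hne := GK5_ne i j hij
    obtain ⟨h4, h5⟩ := GK5_two i j hne
    have hmem : ∀ x, p x ∈ T v ↔ (x = i ∨ x = j) := by
      intro x
      rw [hT, Finset.mem_insert, Finset.mem_singleton]
      constructor
      · rintro (h | h)
        · exact Or.inl (hp h)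
        · exact Or.inr (hp h)
      · rintro (h | h)
        · exact Or.inl (by rw [h])
        · exact Or.inr (by rw [h])
    simp only [hmem]
    rw [GK5_sum, GK5_sum, h4, h5]
    norm_num
  · intro t
    have h4 := GK5_three t
    rw [GK5_sum, GK5_sum]
    have h5 : (63 : ℝ) ≤ 10 * max 3 ((univ.filter (fun i : Fin 5 => t i = true)).card : ℝ) +
      8 * ((univ.filter (fun i : Fin 5 => t i = true)).card : ℝ) +
      9 * ((univ.filter (fun s : Fin 10 => t (GK5_a s) = false ∧ t (GK5_b s) = false)).card : ℝ) := by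
      exact_mod_cast h4
    linarith

end Pool.Agent.Work.MP_1ce445_win
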