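import Pool.Agent.Work.MP_1ce445_win.Interface
import Pool.Agent.Work.MP_1ce445_k4.GKE

/-! Block GKE. -/

set_option autoImplicit false

namespace Pool.Agent.Work.MP_1ce445_win

open Finset Pool.Agent.Work.MP_1ce445_co_56 Pool.Agent.Work.MP_1ce445_lin
open Pool.Agent.Work.MP_1ce445_k4 (R ad Is LB3 LBT LC5 LG6 LG7 LKE LK5)
open Pool.Agent.Work.MP_1ce445_k4 (GKE_a GKE_b GKE_w GKE_m GKE_ad GKE_two GKE_three GKE_sum)

theorem GKE_log : (225011 : ℝ) / 100000 ≤ 3 * Real.log (19 / 10) + 2 * Real.log (29 / 20) := by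
  have h2 := Real.log_two_gt_d9
  have h1 : Real.log (19 / 10) = Real.log 2 + Real.log (19 / 20) := by
    rw [← Real.log_mul (by norm_num) (by norm_num)]
    norm_num
  have h3 := Real.one_sub_inv_le_log_of_pos (show (0 : ℝ) < 19 / 20 by norm_num)
  have h4 := Real.one_sub_inv_le_log_of_pos (show (0 : ℝ) < 29 / 20 by norm_num)
  rw [h1]
  norm_num at h3 h4 ⊢
  linarith

theorem stmt_GKE (hTG : Stmt_TG) (hC : Stmt_CER) : Stmt_GKE := by
  intro V _ k M T c hK hI
  obtain ⟨p, hp, h2, h3⟩ := hI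
  have key := hC M T c hK 5 9 p (fun i => (GKE_w i : ℝ) / 40 + 1) GKE_a GKE_b
    (fun s => (GKE_m s : ℝ) / 40) (210 / 40) hp
    (fun i => by
      have : (0 : ℝ) ≤ (GKE_w i : ℝ) / 40 := by positivity
      linarith)
    (fun _ => by positivity) (fun s => h3 _ _ (GKE_ad s)) ?_ ?_
  · unfold Bd
    refine key.trans ?_
    have hs : (∑ i : Fin 5, (((GKE_w i : ℝ) / 40 + 1) - 1 - Real.log ((GKE_w i : ℝ) / 40 + 1))) -
        210 / 40 + c * ∑ s : Fin 9, (GKE_m s : ℝ) / 40 =
        (18 / 5 - (3 * Real.log (19 / 10) + 2 * Real.log (29 / 20)) - 21 / 4) + 57 / 10 * c := by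
      simp only [Fin.sum_univ_succ, GKE_w, GKE_m, Fin.sum_univ_zero]
      simp
      have e1 : (36 / 40 + 1 : ℝ) = 19 / 10 := by norm_num
      have e2 : (18 / 40 + 1 : ℝ) = 29 / 20 := by norm_num
      rw [e1, e2]
      ring
    rw [hs]
    have hl := GKE_log
    exact hTG c _ _ hK.cl hK.cu (by linarith) (by linarith)
  · intro v hv
    obtain ⟨i, j, hij, hT⟩ := h2 v hv
    have h4 := GKE_two i j hij
    have hmem : ∀ x, p x ∈ T v ↔ (x = i ∨ x = j) := by
      intro x
      rw [hT, Finset.mem_insert, Finset.mem_singleton]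
      constructor
      · rintro (h | h)
        · exact Or.inl (hp h)
        · exact Or.inr (hp h)
      · rintro (h | h)
        · exact Or.inl (by rw [h])
        · exact Or.inr (by rw [h])
    simp only [hmem, add_sub_cancel_right]
    rw [GKE_sum, GKE_sum]
    have h5 : (210 : ℝ) ≤ 80 + ((∑ x : Fin 5, if (x = i ∨ x = j) then GKE_w x else 0 : ℕ) : ℝ) +
      ((∑ s : Fin 9, if ¬ (GKE_a s = i ∨ GKE_a s = j) ∧ ¬ (GKE_b s = i ∨ GKE_b s = j)
        then GKE_m s else 0 : ℕ) : ℝ) := by exact_mod_cast h4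
    linarith
  · intro t
    have h4 := GKE_three t
    simp only [add_sub_cancel_right]
    rw [GKE_sum, GKE_sum]
    have h5 : (210 : ℝ) ≤ 40 * max 3 ((univ.filter (fun i : Fin 5 => t i = true)).card : ℝ) +
      ((∑ i : Fin 5, if t i = true then GKE_w i else 0 : ℕ) : ℝ) +
      ((∑ s : Fin 9, if t (GKE_a s) = false ∧ t (GKE_b s) = false then GKE_m s else 0 : ℕ) : ℝ) := by
      exact_mod_cast h4
    linarith

end Pool.Agent.Work.MP_1ce445_win
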