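import Pool.Agent.Work.MP_1ce445_win.Interface

namespace Pool.Agent.Work.MP_1ce445_win

open Finset Pool.Agent.Work.MP_1ce445_co_56 Pool.Agent.Work.MP_1ce445_lin
open Pool.Agent.Work.MP_1ce445_k4 (R ad Is LB3 LBT LC5 LG6 LG7 LKE LK5)

/-- the finite check -/
theorem IC4_h3 (t : Fin 4 → Bool) : (5 : ℝ) ≤ max 3 (((univ.filter (fun i => t i = true)).card : ℕ) : ℝ) +
      (∑ i, if t i = true then ((fun _ => 2 : Fin 4 → ℝ) i) - 1 else 0) +
      ∑ s : Fin 4, if t ((![0, 1, 2, 3] : Fin 4 → Fin 4) s) = false ∧ t ((![1, 2, 3, 0] : Fin 4 → Fin 4) s) = false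
        then ((fun _ => 1 : Fin 4 → ℝ) s) else 0 := by
  have h3 : (3 : ℝ) ≤ max 3 (((univ.filter (fun i => t i = true)).card : ℕ) : ℝ) := le_max_left _ _
  have key : (2 : ℝ) ≤ (∑ i, if t i = true then ((fun _ => 2 : Fin 4 → ℝ) i) - 1 else 0) +
      ∑ s : Fin 4, if t ((![0, 1, 2, 3] : Fin 4 → Fin 4) s) = false ∧ t ((![1, 2, 3, 0] : Fin 4 → Fin 4) s) = false
        then ((fun _ => 1 : Fin 4 → ℝ) s) else 0 := by
    rw [Fin.sum_univ_four, Fin.sum_univ_four]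
    cases h0 : t 0 <;> cases h1 : t 1 <;> cases h2 : t 2 <;> cases h3 : t 3 <;>
      simp [h0, h1, h2, h3] <;> norm_num
  linarith

theorem IC4_pair {k : ℕ} {S : Finset (Fin k)} (hS : S.card = 2) {a b : Fin k} (hab : a ≠ b) (ha : a ∈ S)
    (hb : b ∈ S) : S = {a, b} := by
  symm
  apply Finset.eq_of_subset_of_card_le
  · intro x hx
    rcases Finset.mem_insert.1 hx with rfl | hx
    · exact ha
    · rw [Finset.mem_singleton.1 hx]
      exact hb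
  · rw [hS, Finset.card_pair hab]

theorem stmt_IC4 (hTG : Stmt_TG) (hCER : Stmt_CER) : Stmt_IC4 := by
  intro V _ k M T c hK x1 x2 x3 x4 hnd h12 h23 h34 h41 h13 h24
  have hnd' : x1 ≠ x2 ∧ x1 ≠ x3 ∧ x1 ≠ x4 ∧ x2 ≠ x3 ∧ x2 ≠ x4 ∧ x3 ≠ x4 := by
    simp only [List.nodup_cons, List.mem_cons, List.not_mem_nil, or_false, not_or, List.nodup_nil] at hnd
    tauto
  obtain ⟨n12, n13, n14, n23, n24, n34⟩ := hnd'
  have hinj : Function.Injective (![x1, x2, x3, x4] : Fin 4 → Fin k) := by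
    intro i j hij
    fin_cases i <;> fin_cases j <;> simp_all
  have hR : ∀ s : Fin 4, R T ((![x1, x2, x3, x4] : Fin 4 → Fin k) ((![0, 1, 2, 3] : Fin 4 → Fin 4) s))
      ((![x1, x2, x3, x4] : Fin 4 → Fin k) ((![1, 2, 3, 0] : Fin 4 → Fin 4) s)) := by
    intro s
    fin_cases s
    · exact h12
    · exact h23
    · exact h34
    · exact h41
  have h2 : ∀ v, (T v).card = 2 → (5 : ℝ) ≤ 2 +
      (∑ i, if (![x1, x2, x3, x4] : Fin 4 → Fin k) i ∈ T v then ((fun _ => 2 : Fin 4 → ℝ) i) - 1 else 0) +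
      ∑ s : Fin 4, if (![x1, x2, x3, x4] : Fin 4 → Fin k) ((![0, 1, 2, 3] : Fin 4 → Fin 4) s) ∉ T v ∧
        (![x1, x2, x3, x4] : Fin 4 → Fin k) ((![1, 2, 3, 0] : Fin 4 → Fin 4) s) ∉ T v
        then ((fun _ => 1 : Fin 4 → ℝ) s) else 0 := by
    intro v hv
    rw [Fin.sum_univ_four, Fin.sum_univ_four]
    have e13 : ¬ (x1 ∈ T v ∧ x3 ∈ T v) := fun h => h13 ⟨n13, v, IC4_pair hv n13 h.1 h.2⟩
    have e24 : ¬ (x2 ∈ T v ∧ x4 ∈ T v) := fun h => h24 ⟨n24, v, IC4_pair hv n24 h.1 h.2⟩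
    by_cases m1 : x1 ∈ T v <;> by_cases m2 : x2 ∈ T v <;> by_cases m3 : x3 ∈ T v <;> by_cases m4 : x4 ∈ T v <;>
      first
      | (exfalso; exact e13 ⟨m1, m3⟩)
      | (exfalso; exact e24 ⟨m2, m4⟩)
      | (simp [m1, m2, m3, m4]; done)
      | (simp [m1, m2, m3, m4]; norm_num; done)
      | (simp [m1, m2, m3, m4])
  have h := hCER M T c hK 4 4 ![x1, x2, x3, x4] (fun _ => 2) ![0, 1, 2, 3] ![1, 2, 3, 0] (fun _ => 1) 5 hinj
    (fun _ => by norm_num) (fun _ => by norm_num) hR h2 IC4_h3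
  refine le_trans h ?_
  have e1 : (∑ i : Fin 4, (((fun _ => 2 : Fin 4 → ℝ) i) - 1 - Real.log ((fun _ => 2 : Fin 4 → ℝ) i))) - 5 +
      c * ∑ s : Fin 4, ((fun _ => 1 : Fin 4 → ℝ) s) = (-1 - 4 * Real.log 2) + 4 * c := by
    rw [Fin.sum_univ_four, Fin.sum_univ_four]
    ring
  rw [e1]
  have hl := Real.log_two_gt_d9
  exact hTG c (-1 - 4 * Real.log 2) 4 hK.cl hK.cu (by linarith) (by linarith)

end Pool.Agent.Work.MP_1ce445_win
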