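import Pool.Agent.Work.MP_1ce445_s7.Interface
import Pool.Agent.Work.MP_1ce445_k6.Interface

/-!
MP_1ce445_co, range `1/7 ≤ c ≤ 1/6`: the set systems without a complete graph on four points of present pairs, and the upper
bound `P n k ≤ (((2 - √(c (1 - 6 c)))/4)^4 + o(1)) (NN n)^k`, `c = k/n` (sharp: block PS of MP_1ce445_low).
Statements of the blocks with complete proofs in the docstrings (all numbers checked by program).

One file `Pool/Agent/Work/MP_1ce445_win/<ID>.lean` per block, `import Pool.Agent.Work.MP_1ce445_win.Interface`,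
same `open` lines, theorem `stmt_<ID>` with exactly the statements of the column `uses` as hypotheses, in this
order (`S7LPC` = `Pool.Agent.Work.MP_1ce445_s7.Stmt_LPC`, `K4TNG`, `K4CLS`, `K4FIV` = `Stmt_TNG`, `Stmt_CLS`, `Stmt_FIV` of
`Pool.Agent.Work.MP_1ce445_k4`); auxiliary lemmas with the name of the block in front (`THR_aux`). Most blocks are COPIES of the
files with the same name in `MP_1ce445_k4` with another range of `c` and another target: copy the file and change the last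
lines. `p_x = pr T x` is the fraction of the `v` with `x ∈ T v`; `N = |V|`.
-/

namespace Pool.Agent.Work.MP_1ce445_win

open Finset Pool.Agent.Work.MP_1ce445_co_56 Pool.Agent.Work.MP_1ce445_lin
open Pool.Agent.Work.MP_1ce445_k4 (R ad Is LB3 LBT LC5 LG6 LG7 LKE LK5)

/-- The hypotheses on the set system without the condition on the size. -/
structure Kg {V : Type} [Fintype V] {k : ℕ} (M : Finset (Fin k)) (T : V → Finset (Fin k))
    (c : ℝ) : Prop where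
  pos : 0 < Fintype.card V
  sub : ∀ v, T v ⊆ M
  cl : 1 / 7 ≤ c
  cu : c ≤ 1 / 6
  few : ∀ v, ((univ.filter (fun w => T v ∩ T w = ∅)).card : ℝ) ≤ c * Fintype.card V

/-- The hypotheses on the set system: all sets have at least two elements. -/
structure Kf {V : Type} [Fintype V] {k : ℕ} (M : Finset (Fin k)) (T : V → Finset (Fin k))
    (c : ℝ) : Prop extends Kg M T c where
  two : ∀ v, 2 ≤ (T v).card

/-- the target -/
noncomputable def GG (c : ℝ) : ℝ := ((2 - Real.sqrt (c * (1 - 6 * c))) / 4) ^ 4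

/-- the bound for the product -/
def Bd {V : Type} [Fintype V] {k : ℕ} (M : Finset (Fin k)) (T : V → Finset (Fin k)) (c : ℝ) :
    Prop :=
  ∏ x ∈ M, (1 - pr T x) ≤ GG c

/-! ### Real numbers -/

/-- TG (100 lines), the target. `h = c - 1/7 ∈ [0, 1/42]`. (1) `√(c (1 - 6c)) ≤ 1/7 - (5/2) h`: the right side is `≥ 0` and its square
is `1/49 - (5/7) h + (25/4) h² ≥ 1/49 - (5/7) h - 6 h² = c (1 - 6c)`. So `GG c ≥ ((13 + (35/2) h)/28)^4`. (2) `a + m c` is linear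
in `c` and at both ends at most the line `g c = -30691/10000 + 4998/1000 h` (`-30691/10000 + 4998/42000 = -2.9501`), so
`a + m c ≤ g c`. (3) `exp (g c) ≤ (13/28)^4 exp (5 h)`: `exp (-30691/10000) ≤ (13/28)^4`, that is `4 log (28/13) ≤ 3.0691`
(`4 log (28/13) = 3.069021`; `exp (-0.767275) ≤ 13/28`, for instance `13/28 * exp (0.767275) ≥ 1` from
`exp (0.767275) = exp (0.7) exp (0.067275)` or `Real.exp_bound`), and `exp (5h/4) ≤ 1 + (35/26) h` for `0 ≤ h ≤ 1/42`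
(`exp y ≤ 1 + y + y²` for `0 ≤ y ≤ 1`, `y = 5h/4`: `1.25 h + 1.5625 h² ≤ 1.3461 h`). -/
def Stmt_TG : Prop :=
  ∀ c a m : ℝ, 1 / 7 ≤ c → c ≤ 1 / 6 → a + 1 / 7 * m ≤ -30691 / 10000 →
    a + 1 / 6 * m ≤ -29501 / 10000 → Real.exp (a + m * c) ≤ GG c

/-- TGE (80 lines). `h = c - 1/7 ∈ [0, 1/42]`. (1) `√(c (1 - 6c)) ≤ r := 1/7 - (5/2) h - 42 h²`: `r ≥ 0` for `h ≤ 1/42`, and
`r² - c (1 - 6c) = (1/4) h² + 210 h³ + 1764 h⁴ ≥ 0`. So `GG c ≥ ((13 + (35/2) h + 294 h²)/28)^4`. (2) It is enough (fourth powers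
of nonnegative numbers) that `exp (-15/196 + (12/7) h) * s ≤ (13 + (35/2) h + 294 h²)/28` for a number `s` with
`42/169 ≤ s²`, `s = 4986/10000` (`s² = 0.24860..`, `42/169 = 0.24852..`), because `exp (-9/7 + 48/7 c) =
exp (4 (-15/196 + (12/7) h))`. (3) `exp (-15/196) ≤ 1 - 15/196 + (15/196)²/2 = 0.92640`, and
`exp ((12/7) h) ≤ 1 + (12/7) h + (8/5) h²` (`exp y ≤ 1 + y + (27/50) y²` for `0 ≤ y ≤ 3/50`; or `exp y ≤ 1 + y + y²`, also enough):
left side `≤ 0.46191 (1 + 1.7143 h + 2.94 h²)`, right side `0.464285 + 0.625 h + 10.5 h²`; the difference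
`0.00237 - 0.1669 h + 9.14 h²` has negative discriminant. -/
def Stmt_TGE : Prop :=
  ∀ c : ℝ, 1 / 7 ≤ c → c ≤ 1 / 6 → Real.exp (-9 / 7 + 48 / 7 * c) * (42 / 169) ^ 2 ≤ GG c

/-- TRP (80 lines). `s = b + d ≤ 1`. For `s < 1`: `log (1 - s) ≤ -(s + s²/2 + s³/3 + s⁴/4)` (model `MP_1ce445_k4/TNG.lean`). With
`d` fixed sum `s`: `19/20 b + 7/10 d + 21/5 b d = 19/20 s + d (21/5 s - 1/4) - 21/5 d²`. If `21/5 s ≤ 1/4` this is at most
`19/20 s ≤ s`. Otherwise it is at most `19/20 s + (21/5 s - 1/4)²/(84/5)` (square completion), and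
`s + s²/2 + s³/3 + s⁴/4 - 19/20 s - (21/5 s - 1/4)²/(84/5) = 7/40 s - 11/20 s² + s³/3 + s⁴/4 - 1/268.8 > 0` on
`[5/84, 1]` (minimum `0.0035` near `s = 1/2`). `s = 1`: the left side is `0`. -/
def Stmt_TRP : Prop :=
  ∀ b d : ℝ, 0 ≤ b → 0 ≤ d → b + d ≤ 1 →
    1 - (b + d) ≤ Real.exp (-(19 / 20 * b + 7 / 10 * d + 21 / 5 * (b * d)))

/-- RIW (120 lines). (1) `F = log q - (19/20 (3q - c) + 7/10 (1 - q) + 21/5 q (1 - c - q))`; `F - 5 (c - 1/7)` is decreasing in `c`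
(`∂F/∂c = 19/20 + 21/5 q ≤ 5` for `q ≤ 307/1000 + 1/6`). If `q ≤ 307/1000 + 1/7` it is enough to take `c = 1/7`:
`F = log q - 19/20 (3q - 1/7) - 7/10 (1 - q) - 21/5 q (6/7 - q) ≤ -3.0998` (maximum at `q = 0.4498`; also `-3.112` at
`q = 0.35`; with `log q ≤ log q0 + q/q0 - 1` for `q0 = 1/4` on `[0, 3/10]` and `q0 = 2/5` on `[3/10, 9/20]` these are quadratic
polynomials; they are convex in `q`, so only the ends matter). If `q = 307/1000 + 1/7 + t`, `0 ≤ t ≤ 1/42`, then `c ≥ 1/7 + t`, take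
`c = 1/7 + t`. Then TG with `a + m c = F + ...`, or directly `(13/28)^4 exp (5 (c - 1/7)) ≤ GG c` as in TG (there is room
`0.03` in the exponent: `F ≤ -3.0691 + 4.998 (c - 1/7)`, and TG with `m = 4998/1000`, `a = -3.0691 - 4.998/7`).
(2) with `b = q - c ≥ 307/1000 ≥ 1 - log 2`: the exponent of the left side is `log q + n (1 - log 2) - Sn - S`, and
`Sn + S ≥ om + n b + 2 + b - om`, so it is at most `log q + n (1 - log 2 - b) - 2 - b ≤ log q - log 2 - 1 - 2 b` (`n ≥ 1`);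
`log q ≤ 2q - 1 - log 2`: at most `-2 log 2 - 2 + 2c = -3.386294 + 2c`, TG with `m = 2`. -/
def Stmt_RIW : Prop :=
  (∀ c q B C D : ℝ, 1 / 7 ≤ c → c ≤ 1 / 6 → 0 ≤ q → q - c ≤ 307 / 1000 → 3 * q - c ≤ B →
    1 - q ≤ C → q * (1 - c - q) ≤ D →
    q * Real.exp (-(19 / 20 * B + 7 / 10 * C + 21 / 5 * D)) ≤ GG c) ∧
  ∀ (c q om S Sn : ℝ) (n : ℕ), 1 / 7 ≤ c → c ≤ 1 / 6 → 0 ≤ q → q ≤ 1 → 307 / 1000 ≤ q - c →
    0 ≤ om → om ≤ 1 - q → 1 ≤ n → 2 + q - c - om ≤ S → om + n * (q - c) ≤ Sn →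
    q * (1 / 2 * Real.exp 1) ^ n * Real.exp (-(Sn + S)) ≤ GG c

/-- RIO (60 lines). `α = 23791/25000`, `β = 7891/10000`. The left side is increasing in `c` (the exponent contains
`+ α c + 4 β q c`): take `c = 1/6` in the exponent. `log q ≤ log (1/6) + 6q - 1`; the exponent
`log (1/6) + 6q - 1 - α (5/6 + q) - 4 β q (5/6 - q)` is convex in `q`, at `q = 1/6` it is `log (1/6) - α - 4β/9 = -3.0941`, at
`q = 0` it is `-3.58`. And `-3.0941 ≤ -3.0691`: TG (with `m = 0`), or `exp (-3.0691) ≤ (13/28)^4 ≤ GG c`. -/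
def Stmt_RIO : Prop :=
  ∀ c q : ℝ, 1 / 7 ≤ c → c ≤ 1 / 6 → 0 ≤ q → q ≤ c →
    q * Real.exp (-(23791 / 25000 * (1 + q - c) + 7891 / 10000 * (4 * q * (1 - q - c)))) ≤ GG c

/-! ### Tools -/

/-- CER (100 lines; uses S7LPC; model `MP_1ce445_k4/CER.lean`): certificates with `m` named points `p i`, weights `l i`, and
multipliers `mu s` for the present pairs `p (a s), p (b s)`. S7LPC with `ph v = ∑ s, if p (a s) ∉ T v ∧ p (b s) ∉ T v then mu s
else 0`; `∑_v ph v ≤ c N ∑ mu` by `few`; drop the last (negative) term. -/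
def Stmt_CER : Prop :=
  ∀ {V : Type} [Fintype V] {k : ℕ} (M : Finset (Fin k)) (T : V → Finset (Fin k)) (c : ℝ),
    Kf M T c → ∀ (m r : ℕ) (p : Fin m → Fin k) (l : Fin m → ℝ) (a b : Fin r → Fin m)
      (mu : Fin r → ℝ) (K : ℝ), Function.Injective p → (∀ i, 1 ≤ l i) → (∀ s, 0 ≤ mu s) →
    (∀ s, R T (p (a s)) (p (b s))) →
    (∀ v, (T v).card = 2 → K ≤ 2 + (∑ i, if p i ∈ T v then l i - 1 else 0) +
      ∑ s, if p (a s) ∉ T v ∧ p (b s) ∉ T v then mu s else 0) →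
    (∀ t : Fin m → Bool, K ≤ max 3 (((univ.filter (fun i => t i = true)).card : ℕ) : ℝ) +
      (∑ i, if t i = true then l i - 1 else 0) +
      ∑ s, if t (a s) = false ∧ t (b s) = false then mu s else 0) →
    ∏ x ∈ M, (1 - pr T x) ≤
      Real.exp (∑ i, (l i - 1 - Real.log (l i)) - K + c * ∑ s, mu s)

/-- THR (100 lines; uses K4TNG TG; model `MP_1ce445_k4/THR.lean`): few 2-sets. `∑ p_x ≥ 3 - 9/20 = 51/20`,
`∑ p_x² ≥ 1 - c`: the product is at most `exp (-(0.95164 · 2.55 + 0.7891 (1 - c))) = exp (-3.215782 + 0.7891 c)`. -/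
def Stmt_THR : Prop :=
  ∀ {V : Type} [Fintype V] {k : ℕ} (M : Finset (Fin k)) (T : V → Finset (Fin k)) (c : ℝ),
    Kf M T c → ((univ.filter (fun v => (T v).card = 2)).card : ℝ) ≤ 9 / 20 * Fintype.card V →
    Bd M T c

/-! ### Patterns (copies of the files of `MP_1ce445_k4` with the same names; only the end is different: TG) -/

/-- SIX (100 lines; uses TG CER): three disjoint present pairs. The certificate of `MP_1ce445_k4/SIX.lean`; exponent
`6 (3/5 - log (8/5)) - 24/5 + 24/5 c = -4.020022 + 4.8 c`. -/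
def Stmt_SIX : Prop :=
  ∀ {V : Type} [Fintype V] {k : ℕ} (M : Finset (Fin k)) (T : V → Finset (Fin k)) (c : ℝ),
    Kf M T c → ∀ a1 b1 a2 b2 a3 b3 : Fin k, [a1, b1, a2, b2, a3, b3].Nodup → R T a1 b1 →
    R T a2 b2 → R T a3 b3 → Bd M T c

/-- IC4 (100 lines; uses TG CER): a 4-cycle without diagonals, `MP_1ce445_k4/IC4.lean`. Exponent
`4 (1 - log 2) - 5 + 4 c = -3.772589 + 4 c`. -/
def Stmt_IC4 : Prop :=
  ∀ {V : Type} [Fintype V] {k : ℕ} (M : Finset (Fin k)) (T : V → Finset (Fin k)) (c : ℝ),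
    Kf M T c → ∀ x1 x2 x3 x4 : Fin k, [x1, x2, x3, x4].Nodup → R T x1 x2 → R T x2 x3 →
    R T x3 x4 → R T x4 x1 → ¬ R T x1 x3 → ¬ R T x2 x4 → Bd M T c

/-- TRI (100 lines; uses S7LPC THR TG; model `MP_1ce445_k4/SB4.lean`): all present pairs are inside three points. If at most `9/20`
of the sets have two elements: THR. Otherwise every `T v` contains one of the three points (a `T v` which does not is disjoint
from all 2-sets, more than `c N` sets). S7LPC with `l = 2` on the three points, `ph = 0`, `K = 4`: `|T v| + j ≥ 4` (2-sets: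
`j = 2`; otherwise `|T v| ≥ 3`, `j ≥ 1`). Exponent `3 (1 - log 2) - 4 = -3.079442`. -/
def Stmt_TRI : Prop :=
  ∀ {V : Type} [Fintype V] {k : ℕ} (M : Finset (Fin k)) (T : V → Finset (Fin k)) (c : ℝ),
    Kf M T c → ∀ x1 x2 x3 : Fin k, R T x1 x2 → R T x2 x3 → R T x3 x1 →
    (∀ v, (T v).card = 2 → T v ⊆ {x1, x2, x3}) → Bd M T c

/-- BK4 (120 lines; uses TG CER): a book with at least four pages, `MP_1ce445_k4/BK4.lean`. Exponent
`8/3 + 4/3 - 2 log (7/3) - 4 log (4/3) - 14/3 + 8/3 c = -3.511991 + 2.6667 c`. -/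
def Stmt_BK4 : Prop :=
  ∀ {V : Type} [Fintype V] {k : ℕ} (M : Finset (Fin k)) (T : V → Finset (Fin k)) (c : ℝ),
    Kf M T c → ∀ a b z1 z2 z3 z4 : Fin k, [a, b, z1, z2, z3, z4].Nodup →
    R T a z1 → R T a z2 → R T a z3 → R T a z4 → R T b z1 → R T b z2 → R T b z3 → R T b z4 →
    (∀ v, (T v).card = 2 → a ∈ T v ∨ b ∈ T v) → Bd M T c

/-- TWT (120 lines; uses TG CER): two disjoint triangles, `MP_1ce445_k4/TWT.lean`. Exponent `6 (1 - log 2) - 7 + 6 c`. -/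
def Stmt_TWT : Prop :=
  ∀ {V : Type} [Fintype V] {k : ℕ} (M : Finset (Fin k)) (T : V → Finset (Fin k)) (c : ℝ),
    Kf M T c → ∀ x1 x2 x3 y1 y2 y3 : Fin k, [x1, x2, x3, y1, y2, y3].Nodup →
    R T x1 x2 → R T x2 x3 → R T x3 x1 → R T y1 y2 → R T y2 y3 → R T y3 y1 →
    (∀ v, (T v).card = 2 → T v ⊆ {x1, x2, x3} ∨ T v ⊆ {y1, y2, y3}) → Bd M T c

/-- GBA (120 lines; uses TG S7LPC): book with three pages, the set of the pages is absent. `l = 14/5` on `p 0, p 1`, `7/5` on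
`p 2, p 3, p 4`; `mu = 2/5` on `p 0 p 1`, `7/10` on the six pairs `(0,2), (0,3), (0,4), (1,2), (1,3), (1,4)`; `K = 28/5`:
`{0,1}`: `28/5`; `{0,2}`: `21/5 + 7/5`; `|T v| ≥ 3`, `j` of the points `2, 3, 4`: neither 0 nor 1: `j = 3`: then `|T v| ≥ 4`
(`T v` is not `{2,3,4}`): `4 + 6/5 + 2/5`; `j = 2`: `3 + 4/5 + 2/5 + 7/5`; `j = 1`: `3 + 2/5 + 2/5 + 14/5`; one of 0, 1:
`3 + 9/5 + 2/5 j + 7/10 (3 - j)`; both: `3 + 18/5`. Exponent
`24/5 - 2 log (14/5) - 3 log (7/5) - 28/5 + 23/5 c = -3.868656 + 4.6 c`. -/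
def Stmt_GBA : Prop :=
  ∀ {V : Type} [Fintype V] {k : ℕ} (M : Finset (Fin k)) (T : V → Finset (Fin k)) (c : ℝ),
    Kf M T c → ∀ p : Fin 5 → Fin k, Function.Injective p →
    (∀ v, (T v).card = 2 → ∃ i j, ad LB3 i j = true ∧ T v = {p i, p j}) →
    (∀ i j, ad LB3 i j = true → R T (p i) (p j)) → (∀ v, T v ≠ {p 2, p 3, p 4}) → Bd M T c

/-- GBP (120 lines; uses TG S7LPC): book with three pages, the set of the pages is present. `l = 2` on `p 0, p 1`, `3/2` on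
`p 2, p 3, p 4`; `mu = 1/2` on `p 0 p 1`, `3/4` on the six other pairs, `1` on the set `{p 2, p 3, p 4}` (for the `v` with
`T v ∩ {p 2, p 3, p 4} = ∅`; at most `c N` by `few`); `K = 5`: `{0,1}`: `4 + 1`; `{0,2}`: `7/2 + 3/2`; `|T v| ≥ 3`: neither
0 nor 1: `3 + j/2 + 1/2 + 3/2 (3 - j)` for `j ≥ 1`, more for `j = 0`; one of 0, 1: `4 + j/2 + 3/4 (3 - j)` for `j ≥ 1` (`j = 3`:
`|T v| ≥ 4`), `j = 0`: `4 + 9/4 + 1`; both: `5`. Exponent `7/2 - 2 log 2 - 3 log (3/2) - 5 + 6 c = -4.102690 + 6 c`. -/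
def Stmt_GBP : Prop :=
  ∀ {V : Type} [Fintype V] {k : ℕ} (M : Finset (Fin k)) (T : V → Finset (Fin k)) (c : ℝ),
    Kf M T c → ∀ p : Fin 5 → Fin k, Function.Injective p →
    (∀ v, (T v).card = 2 → ∃ i j, ad LB3 i j = true ∧ T v = {p i, p j}) →
    (∀ i j, ad LB3 i j = true → R T (p i) (p j)) → (∃ v, T v = {p 2, p 3, p 4}) → Bd M T c

/-- GBT (80 lines; uses TG CER), `MP_1ce445_k4/GBT.lean`. Exponent `15/4 - 5 log (7/4) - 9/2 + 3 c = -3.548079 + 3 c`. -/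
def Stmt_GBT : Prop :=
  ∀ {V : Type} [Fintype V] {k : ℕ} (M : Finset (Fin k)) (T : V → Finset (Fin k)) (c : ℝ),
    Kf M T c → Is T LBT → Bd M T c

/-- GC5 (80 lines; uses TG CER), `MP_1ce445_k4/GC5.lean`. Exponent `15/4 - 5 log (7/4) - 9/2 + 3 c = -3.548079 + 3 c`. -/
def Stmt_GC5 : Prop :=
  ∀ {V : Type} [Fintype V] {k : ℕ} (M : Finset (Fin k)) (T : V → Finset (Fin k)) (c : ℝ),
    Kf M T c → Is T LC5 → Bd M T c

/-- GG6 (100 lines; uses TG CER), `MP_1ce445_k4/GG6.lean`. Exponent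
`11/3 - 3 log 2 - 2 log (4/3) - 29/6 + 4 c = -3.821472 + 4 c`. -/
def Stmt_GG6 : Prop :=
  ∀ {V : Type} [Fintype V] {k : ℕ} (M : Finset (Fin k)) (T : V → Finset (Fin k)) (c : ℝ),
    Kf M T c → Is T LG6 → Bd M T c

/-- GG7 (100 lines; uses TG CER), `MP_1ce445_k4/GG7.lean`. Exponent
`53/15 - 2 log 2 - 2 log (8/5) - log (4/3) - 14/3 + 15/4 c = -3.747317 + 3.75 c`. -/
def Stmt_GG7 : Prop :=
  ∀ {V : Type} [Fintype V] {k : ℕ} (M : Finset (Fin k)) (T : V → Finset (Fin k)) (c : ℝ),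
    Kf M T c → Is T LG7 → Bd M T c

/-- GKE (100 lines; uses TG CER), `MP_1ce445_k4/GKE.lean`. Exponent
`18/5 - 3 log (19/10) - 2 log (29/20) - 21/4 + 57/10 c = -4.318689 + 5.7 c`. -/
def Stmt_GKE : Prop :=
  ∀ {V : Type} [Fintype V] {k : ℕ} (M : Finset (Fin k)) (T : V → Finset (Fin k)) (c : ℝ),
    Kf M T c → Is T LKE → Bd M T c

/-- GK5 (100 lines; uses TG CER), `MP_1ce445_k4/GK5.lean`. Exponent `4 - 5 log (9/5) - 63/10 + 9 c = -5.238933 + 9 c`. -/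
def Stmt_GK5 : Prop :=
  ∀ {V : Type} [Fintype V] {k : ℕ} (M : Finset (Fin k)) (T : V → Finset (Fin k)) (c : ℝ),
    Kf M T c → Is T LK5 → Bd M T c

/-- EKA (120 lines; uses TG S7LPC): the present pairs are the five edges of `K4` minus the edge `x2 x4`, and no `T v` meets the four
points in exactly `{x2, x4}`. `l = 28/9` on `x1, x3`, `14/9` on `x2, x4`; `mu = 14/9` on the four pairs `x1x2, x2x3, x3x4, x4x1`;
`K = 56/9`: `{x1,x3}`: `56/9`; `{x1,x2}`: `42/9 + 14/9`; `|T v| ≥ 3`: no point: `3 + 56/9`; only `x1`: `3 + 19/9 + 28/9`; only `x2`: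
`3 + 5/9 + 28/9`; `x1, x3`: `3 + 38/9`; `x1, x2`: `3 + 24/9 + 14/9`; three points: `3 + 29/9` (`x1, x2, x4`) or more. Exponent
`16/3 - 2 log (28/9) - 2 log (14/9) - 56/9 + 56/9 c = -4.042514 + 6.2223 c`. -/
def Stmt_EKA : Prop :=
  ∀ {V : Type} [Fintype V] {k : ℕ} (M : Finset (Fin k)) (T : V → Finset (Fin k)) (c : ℝ),
    Kf M T c → ∀ x1 x2 x3 x4 : Fin k, [x1, x2, x3, x4].Nodup → R T x1 x2 → R T x2 x3 →
    R T x3 x4 → R T x4 x1 → R T x1 x3 → (∀ v, (T v).card = 2 → T v ⊆ {x1, x2, x3, x4}) →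
    (∀ v, x2 ∈ T v → x4 ∈ T v → x1 ∈ T v ∨ x3 ∈ T v) → Bd M T c

/-- EKP (150 lines; uses TGE S7LPC): the present pairs are the five edges of `K4` minus the edge `x2 x4`, and some `T u` meets the
four points in exactly `{x2, x4}`. `l = 13/6` on `x1, x3`, `13/7` on `x2, x4`; `mu = 55/42` on the four pairs `x1x2, x2x3, x3x4,
x4x1`, `13/21` on `x1x3`, and `1` for the `v` with `T v ∩ T u = ∅` (at most `c N` by `few`; used only for `T v = {x1, x3}`);
`K = 16/3`: `{x1,x3}`: `13/3 + 1`; `{x1,x2}`: `13/6 + 13/7 + 55/42`; `|T v| ≥ 3`: no point: `3 + 110/21 + 13/21`; only `x1`: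
`3 + 7/6 + 55/21`; only `x2`: `3 + 6/7 + 55/21 + 13/21`; `x1, x3`: `3 + 7/3`; `x1, x2`: `3 + 7/6 + 6/7 + 55/42`; `x2, x4`:
`3 + 12/7 + 13/21`; three points: `3 + 7/6 + 12/7` or more. The product is at most
`exp (7/3 + 12/7 - 2 log (13/6) - 2 log (13/7) - 16/3 + 48/7 c) = exp (-9/7 + 48/7 c) (42/169)²`. -/
def Stmt_EKP : Prop :=
  ∀ {V : Type} [Fintype V] {k : ℕ} (M : Finset (Fin k)) (T : V → Finset (Fin k)) (c : ℝ),
    Kf M T c → ∀ x1 x2 x3 x4 : Fin k, [x1, x2, x3, x4].Nodup → R T x1 x2 → R T x2 x3 →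
    R T x3 x4 → R T x4 x1 → R T x1 x3 → (∀ v, (T v).card = 2 → T v ⊆ {x1, x2, x3, x4}) →
    ¬ R T x2 x4 → (∃ u, x2 ∈ T u ∧ x4 ∈ T u ∧ x1 ∉ T u ∧ x3 ∉ T u) → Bd M T c

/-! ### A point with only one neighbour -/

/-- the fraction of the `v` with `x ∉ T v`, `j ∈ T v` -/
noncomputable def bb {V : Type} [Fintype V] {k : ℕ} (T : V → Finset (Fin k)) (x j : Fin k) : ℝ :=
  ((univ.filter (fun v => x ∉ T v ∧ j ∈ T v)).card : ℝ) / Fintype.card V

/-- the fraction of the `v` with `x ∈ T v`, `j ∈ T v` -/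
noncomputable def cc {V : Type} [Fintype V] {k : ℕ} (T : V → Finset (Fin k)) (x j : Fin k) : ℝ :=
  ((univ.filter (fun v => x ∈ T v ∧ j ∈ T v)).card : ℝ) / Fintype.card V

/-- STS (200 lines; copy of `MP_1ce445_k4/STS.lean` with other sums). `q = 1 - p_x`. (0) clear. (1) every `v` with `x ∉ T v` has at
least 2 elements, at least 3 unless `|T v| = 2`, and these 2-sets are disjoint from `{x, y}`: at most `c N`. So
`∑_{j ≠ x} bb ≥ 3q - c`. (2) every `v` with `x ∈ T v` has another element. (3) each `v` with `x ∉ T v` meets at least `(1 - c) N`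
sets, at least `(1 - c - q) N` of them contain `x`: `∑_{j ≠ x} bb · cc ≥ q (1 - c - q)`. (4) as in `MP_1ce445_k4`: `N'` = the
neighbours of `x`, `om N` = number of the `v` with `|T v| = 2`, `x ∈ T v`. -/
def Stmt_STS : Prop :=
  ∀ {V : Type} [Fintype V] {k : ℕ} (M : Finset (Fin k)) (T : V → Finset (Fin k)) (c : ℝ),
    Kf M T c → ∀ x y : Fin k, R T x y → (∀ v, (T v).card = 2 → x ∉ T v → y ∉ T v) →
    (∀ j, 0 ≤ bb T x j ∧ 0 ≤ cc T x j ∧ pr T j = bb T x j + cc T x j) ∧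
    3 * (1 - pr T x) - c ≤ ∑ j ∈ M.erase x, bb T x j ∧
    pr T x ≤ ∑ j ∈ M.erase x, cc T x j ∧
    (1 - pr T x) * (pr T x - c) ≤ ∑ j ∈ M.erase x, bb T x j * cc T x j ∧
    ∃ (om : ℝ) (N' : Finset (Fin k)), 0 ≤ om ∧ om ≤ pr T x ∧ N' ⊆ M.erase x ∧ N'.Nonempty ∧
      2 * pr T x - om + 3 * (1 - pr T x) - c ≤ ∑ j ∈ M.erase x, pr T j ∧
      om + N'.card * (1 - pr T x - c) ≤ ∑ j ∈ N', pr T j

/-- LEA (150 lines; uses TRP STS RIW; model `MP_1ce445_k4/STX.lean`). `q = 1 - p_x`; the product is `q ∏_{M \ x} (1 - p_j)`. If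
`q - c ≤ 307/1000`: TRP for all factors (`b = bb`, `d = cc`, `1 - (b + d) ≥ 0`), RIW (1). Otherwise, for `j ∈ N'`:
`1 - p_j ≤ (1/2) e exp (-2 p_j)` (`y ≤ exp (y - 1)` for `y = 2 (1 - p_j)`), for the other `j`: `1 - p_j ≤ exp (-p_j)`; RIW (2) with
`Sn = ∑_{N'} p_j`, `S = ∑_{j ≠ x} p_j`. -/
def Stmt_LEA : Prop :=
  ∀ {V : Type} [Fintype V] {k : ℕ} (M : Finset (Fin k)) (T : V → Finset (Fin k)) (c : ℝ),
    Kf M T c → ∀ x y : Fin k, R T x y → (∀ v, (T v).card = 2 → x ∉ T v → y ∉ T v) → Bd M T c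

/-! ### All cases -/

/-- FOU (60 lines): the graphs on four points (a finite check by `decide`, six Boolean variables). In words: no edges; a
4-cycle without diagonals; a point with exactly one neighbour; all edges inside a triangle of the graph; `K4` minus an edge;
`K4`. -/
def Stmt_FOU : Prop :=
  ∀ A : Fin 4 → Fin 4 → Bool, (∀ i j, A i j = A j i) → (∀ i, A i i = false) →
    (∀ i j, A i j = false) ∨
    (∃ a b c d : Fin 4, [a, b, c, d].Nodup ∧ A a b = true ∧ A b c = true ∧ A c d = true ∧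
      A d a = true ∧ A a c = false ∧ A b d = false) ∨
    (∃ x y : Fin 4, A x y = true ∧ ∀ u v, A u v = true → u ≠ x → v ≠ x → u ≠ y ∧ v ≠ y) ∨
    (∃ a b c : Fin 4, A a b = true ∧ A b c = true ∧ A c a = true ∧
      ∀ u v, A u v = true → (u = a ∨ u = b ∨ u = c) ∧ (v = a ∨ v = b ∨ v = c)) ∨
    (∃ a b c d : Fin 4, [a, b, c, d].Nodup ∧ A a b = true ∧ A b c = true ∧ A c d = true ∧
      A d a = true ∧ A a c = true ∧ A b d = false) ∨
    ∀ i j, i ≠ j → A i j = true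

/-- AL4 (120 lines; uses THR IC4 LEA TRI EKA EKP FOU): all present pairs are inside four points, not all six are present. FOU for
`A i j = decide (R T (x i) (x j))`. `K4` minus an edge: `EKP` if some `T u` meets the points in exactly the two points of the
missing edge, otherwise `EKA`. -/
def Stmt_AL4 : Prop :=
  ∀ {V : Type} [Fintype V] {k : ℕ} (M : Finset (Fin k)) (T : V → Finset (Fin k)) (c : ℝ),
    Kf M T c → ∀ x : Fin 4 → Fin k, Function.Injective x →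
    (∀ v, (T v).card = 2 → T v ⊆ univ.image x) → ¬ MP_1ce445_k6.Kp T x → Bd M T c

/-- ALT (150 lines; uses K4CLS K4FIV THR SIX IC4 LEA TRI BK4 TWT GBA GBP GBT GC5 GG6 GG7 GKE GK5 AL4; model
`MP_1ce445_k4/ALT.lean`): all sets have at least two elements. CLS for `Q = R T`. (0): THR. (1) SIX. (2) IC4. (3) LEA. (4) TRI.
(5) AL4. (6) BK4. (8) TWT. (7): FIV; all edges in four points: AL4 (the points `p i`, `i ≠ x`); LB3: GBP or GBA. -/
def Stmt_ALT : Prop :=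
  ∀ {V : Type} [Fintype V] {k : ℕ} (M : Finset (Fin k)) (T : V → Finset (Fin k)) (c : ℝ),
    Kf M T c → (¬ ∃ x : Fin 4 → Fin k, MP_1ce445_k6.Kp T x) → Bd M T c

/-- ONE (150 lines; uses K4TNG RIO; model `MP_1ce445_k4/ONE.lean` with TNG instead of SNG): exactly one singleton `{i}`.
`q = 1 - p_i ≤ c`, `∑_{x ≠ i} p_x ≥ 1 + q - c`, `∑_{x ≠ i} p_x² ≥ 4 q (1 - q - c)`. -/
def Stmt_ONE : Prop :=
  ∀ {V : Type} [Fintype V] {k : ℕ} (M : Finset (Fin k)) (T : V → Finset (Fin k)) (c : ℝ),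
    Kg M T c → ∀ (i : Fin k) (u : V), T u = {i} → (∀ (j : Fin k) (v : V), T v = {j} → j = i) →
    Bd M T c

/-- ALG (80 lines; uses ALT ONE; model `MP_1ce445_k4/ALG.lean`): `T v = ∅` is impossible. Two different singletons: the product
is at most `c² ≤ 1/36 ≤ (13/28)^4 ≤ GG c` (`√(c (1 - 6c)) ≤ 1/7` as `(c - 1/7)(6c - 1/7) ≥ 0`). One singleton: ONE. None: ALT. -/
def Stmt_ALG : Prop :=
  ∀ {V : Type} [Fintype V] {k : ℕ} (M : Finset (Fin k)) (T : V → Finset (Fin k)) (c : ℝ),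
    Kg M T c → (¬ ∃ x : Fin 4 → Fin k, MP_1ce445_k6.Kp T x) → Bd M T c

open Classical in
/-- ALW (60 lines; uses K6KLF ALG), `K6KLF` = `MP_1ce445_k6.Stmt_KLF`: if all six pairs of some four points are present KLF, otherwise
ALG (`few` from `meet` and `low` as in KFE of `MP_1ce445_k6`). -/
def Stmt_ALW : Prop :=
  ∀ {V : Type} [Fintype V] {k : ℕ} (M : Finset (Fin k)) (T : V → Finset (Fin k))
    (W : V → V → Prop) (c κ : ℝ), MP_1ce445_k6.Sy M T W c κ →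
    ∏ j ∈ M, (1 - pr T j) ≤ GG c + Real.sqrt κ

/-- UPW (300 lines; uses ALW COR2 K4UPK), `COR2` = `MP_1ce445_lin.Stmt_COR2`, `K4UPK` = `MP_1ce445_k4.Stmt_UPK`; copy of `UPU.lean` in
`MP_1ce445_upg` (or of `UP2.lean` in `MP_1ce445_lin`) with ALW in the place of ALU. `GG` is continuous on `[0, 1/6]`,
`GG (1/6) = 1/16`. `c = k/n`, `1/7 ≤ c ≤ 1/6`. If `c ≥ 1/6 - 10 s`: K4UPK, `1/16 = max (1/16) (c²)` and `1/16 ≤ GG c + ε/4` for small `s`.
Otherwise the system of COR2 on the good vertices satisfies `Sy` with `c' ∈ [c, c + 10 s] ⊆ [1/7, 1/6]` and `κ = 10 s` or so (as in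
`UPU.lean`), and `GG c' + √κ ≤ GG c + ε/4`. -/
def Stmt_UPW : Prop :=
  ∀ ε : ℝ, 0 < ε → ∃ n0 : ℕ, ∀ n k : ℕ, n0 ≤ n → (n : ℝ) / 7 ≤ k → (k : ℝ) ≤ n / 6 →
    (P n k : ℝ) ≤ (GG ((k : ℝ) / n) + ε) * (NN n : ℝ) ^ k

end Pool.Agent.Work.MP_1ce445_win
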