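import Pool.Agent.Work.MP_1ce445_win.Interface

set_option autoImplicit false

namespace Pool.Agent.Work.MP_1ce445_win

open Finset Pool.Agent.Work.MP_1ce445_co_56 Pool.Agent.Work.MP_1ce445_lin
open Pool.Agent.Work.MP_1ce445_k4 (R ad Is LB3 LBT LC5 LG6 LG7 LKE LK5)

theorem LEA_nonneg {V : Type} [Fintype V] {k : ℕ} (T : V → Finset (Fin k)) (j : Fin k) :
    0 ≤ pr T j := by
  unfold pr
  positivity

theorem LEA_le_one {V : Type} [Fintype V] {k : ℕ} (hV : 0 < Fintype.card V)
    (T : V → Finset (Fin k)) (j : Fin k) : pr T j ≤ 1 := by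
  unfold pr
  have h0 : (0 : ℝ) < Fintype.card V := by exact_mod_cast hV
  rw [div_le_one h0]
  exact_mod_cast Finset.card_le_univ _

theorem LEA_factor (p : ℝ) :
    1 - p ≤ 1 / 2 * Real.exp 1 * Real.exp (-(2 * p)) := by
  have h := Real.add_one_le_exp (2 * (1 - p) - 1)
  have e : Real.exp 1 * Real.exp (-(2 * p)) =
      Real.exp (2 * (1 - p) - 1) := by
    rw [← Real.exp_add]
    congr 1
    ring
  rw [mul_assoc, e]
  linarith

theorem stmt_LEA (h1 : Stmt_TRP) (h2 : Stmt_STS) (h3 : Stmt_RIW) : Stmt_LEA := by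
  intro V _ k M T c hK x y hxy hst
  have hp0 : ∀ j, 0 ≤ pr T j := LEA_nonneg T
  have hp1 : ∀ j, pr T j ≤ 1 := LEA_le_one hK.pos T
  have hxM : x ∈ M := by
    obtain ⟨_, v, hv⟩ := hxy
    exact hK.sub v (by rw [hv]; simp)
  obtain ⟨hbc, hB1, hC1, hD1, om, N', hom0, hom1, hN', hN'ne, hS, hN⟩ :=
    h2 M T c hK x y hxy hst
  unfold Bd
  rw [← Finset.mul_prod_erase M _ hxM]
  obtain ⟨q, hq⟩ : ∃ q : ℝ, q = 1 - pr T x := ⟨_, rfl⟩
  rw [← hq] at hB1 hD1
  rw [← hq]
  have hq0 : 0 ≤ q := by linarith [hp1 x]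
  have hq1 : q ≤ 1 := by linarith [hp0 x]
  have hom2 : om ≤ 1 - q := by linarith
  have hS' : 2 + q - c - om ≤ ∑ j ∈ M.erase x, pr T j := by linarith
  rcases le_total (q - c) (307 / 1000) with hcase | hcase
  · have hb : ∏ j ∈ M.erase x, (1 - pr T j) ≤
        Real.exp (-(19 / 20 * ∑ j ∈ M.erase x, bb T x j +
          7 / 10 * ∑ j ∈ M.erase x, cc T x j +
          21 / 5 * ∑ j ∈ M.erase x, bb T x j * cc T x j)) := by
      calc ∏ j ∈ M.erase x, (1 - pr T j)
          ≤ ∏ j ∈ M.erase x,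
              Real.exp (-(19 / 20 * bb T x j + 7 / 10 * cc T x j +
                21 / 5 * (bb T x j * cc T x j))) := by
            refine Finset.prod_le_prod (fun j _ => by linarith [hp1 j]) (fun j _ => ?_)
            obtain ⟨hb0, hc0, he⟩ := hbc j
            rw [he]
            exact h1 _ _ hb0 hc0 (by rw [← he]; exact hp1 j)
        _ = _ := by
            rw [← Real.exp_sum, Finset.sum_neg_distrib, Finset.sum_add_distrib,
              Finset.sum_add_distrib, Finset.mul_sum, Finset.mul_sum, Finset.mul_sum]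
    refine le_trans (mul_le_mul_of_nonneg_left hb hq0) ?_
    refine h3.1 c q _ _ _ hK.cl hK.cu hq0 hcase hB1 (by linarith) ?_
    have e : q * (1 - c - q) = q * (pr T x - c) := by
      rw [hq]
      ring
    rw [e]
    exact hD1
  · have hA : ∏ j ∈ N', (1 - pr T j) ≤
        (1 / 2 * Real.exp 1) ^ N'.card *
          Real.exp (-(2 * ∑ j ∈ N', pr T j)) := by
      calc ∏ j ∈ N', (1 - pr T j)
          ≤ ∏ j ∈ N', (1 / 2 * Real.exp 1 * Real.exp (-(2 * pr T j))) :=
            Finset.prod_le_prod (fun j _ => by linarith [hp1 j])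
              (fun j _ => LEA_factor _)
        _ = _ := by
            rw [Finset.prod_mul_distrib, Finset.prod_const, ← Real.exp_sum,
              Finset.sum_neg_distrib, Finset.mul_sum]
    have hB : ∏ j ∈ M.erase x \ N', (1 - pr T j) ≤
        Real.exp (-∑ j ∈ M.erase x \ N', pr T j) := by
      calc ∏ j ∈ M.erase x \ N', (1 - pr T j)
          ≤ ∏ j ∈ M.erase x \ N', Real.exp (-pr T j) :=
            Finset.prod_le_prod (fun j _ => by linarith [hp1 j])
              (fun j _ => by linarith [Real.add_one_le_exp (-pr T j)])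
        _ = _ := by
            rw [← Real.exp_sum, Finset.sum_neg_distrib]
    have hsum : ∑ j ∈ M.erase x \ N', pr T j + ∑ j ∈ N', pr T j = ∑ j ∈ M.erase x, pr T j :=
      Finset.sum_sdiff hN'
    have hprod : ∏ j ∈ M.erase x, (1 - pr T j) ≤
        (1 / 2 * Real.exp 1) ^ N'.card *
          Real.exp (-(∑ j ∈ N', pr T j + ∑ j ∈ M.erase x, pr T j)) := by
      rw [← Finset.prod_sdiff hN']
      have h0 : 0 ≤ ∏ j ∈ N', (1 - pr T j) :=
        Finset.prod_nonneg (fun j _ => by linarith [hp1 j])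
      refine (mul_le_mul hB hA h0 (Real.exp_pos _).le).trans (le_of_eq ?_)
      rw [mul_left_comm, ← Real.exp_add]
      congr 2
      linarith
    refine le_trans (mul_le_mul_of_nonneg_left hprod hq0) ?_
    rw [← mul_assoc]
    refine h3.2 c q om _ _ N'.card hK.cl hK.cu hq0 hq1 hcase hom0 hom2
      (Finset.card_pos.2 hN'ne) hS' ?_
    have e : 1 - pr T x - c = q - c := by rw [hq]
    rw [e] at hN
    exact hN

end Pool.Agent.Work.MP_1ce445_win
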