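import Pool.Agent.Work.MP_1ce445_win.Interface
import Pool.Agent.Work.MP_1ce445_k4.ONE

/-! # Block ONE: exactly one singleton, range `1/7 ≤ c ≤ 1/6` -/

namespace Pool.Agent.Work.MP_1ce445_win

open Finset Pool.Agent.Work.MP_1ce445_co_56 Pool.Agent.Work.MP_1ce445_lin

theorem stmt_ONE (h1 : MP_1ce445_k4.Stmt_TNG) (h2 : Stmt_RIO) : Stmt_ONE := by
  classical
  intro V _ k M T c hS i u hu huniq
  have hp : ∀ x, 0 ≤ pr T x ∧ pr T x ≤ 1 := fun x => MP_1ce445_k4.ONE_p01 T x hS.pos
  have hdc := MP_1ce445_k4.ONE_five (M := M) hS.pos hS.sub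
  have hN : (0 : ℝ) < Fintype.card V := by exact_mod_cast hS.pos
  have hc3 := hS.cl
  have hc2 := hS.cu
  have hiM : i ∈ M := by
    have := hS.sub u
    rw [hu] at this
    exact this (Finset.mem_singleton_self i)
  set N : ℝ := (Fintype.card V : ℝ) with hNdef
  have hne : ∀ v, (T v).Nonempty := by
    intro v
    rw [Finset.nonempty_iff_ne_empty]
    intro h0
    have h2 := hS.few v
    have h3 : (univ.filter (fun w => T v ∩ T w = ∅)) = (univ : Finset V) := by
      apply Finset.filter_true_of_mem
      intro w _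
      rw [h0, Finset.empty_inter]
    rw [h3, Finset.card_univ] at h2
    nlinarith
  set B : Finset V := univ.filter (fun v => i ∉ T v) with hB
  set D : Finset V := univ.filter (fun v => i ∈ T v) with hD
  set A : Finset V := univ.filter (fun v => T v = {i}) with hA
  have hDc : (D.card : ℝ) = pr T i * N := by
    unfold pr
    rw [div_mul_cancel₀ _ hN.ne']
  have hBDc : (D.card : ℝ) + B.card = N := by
    have := Finset.card_filter_add_card_filter_not (s := (univ : Finset V)) (fun v => i ∈ T v)
    rw [Finset.card_univ] at this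
    rw [hNdef]
    exact_mod_cast this
  have hBc : (B.card : ℝ) = (1 - pr T i) * N := by linarith
  have hq0 : 0 ≤ 1 - pr T i := by linarith [(hp i).2]
  have hqc : 1 - pr T i ≤ c := by
    have h2 := hS.few u
    have h3 : (univ.filter (fun w => T u ∩ T w = ∅)) = B := by
      rw [hB]
      apply Finset.filter_congr
      intro w _
      rw [hu, Finset.singleton_inter]
      by_cases hw : i ∈ T w
      · simp [hw]
      · simp [hw]
    rw [h3, hBc] at h2
    exact le_of_mul_le_mul_right h2 hN
  show ∏ x ∈ M, (1 - pr T x) ≤ GG c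
  rw [← Finset.mul_prod_erase M _ hiM]
  rcases eq_or_lt_of_le hq0 with hq | hq
  · rw [← hq, zero_mul]
    unfold GG
    positivity
  refine le_trans ?_ (h2 c (1 - pr T i) hc3 hc2 hq0 hqc)
  apply mul_le_mul_of_nonneg_left _ hq0
  have hprod : ∏ x ∈ M.erase i, (1 - pr T x) ≤
      Real.exp (-((23791 / 25000) * ∑ x ∈ M.erase i, pr T x +
      (7891 / 10000) * ∑ x ∈ M.erase i, pr T x ^ 2)) := by
    calc ∏ x ∈ M.erase i, (1 - pr T x) ≤
        ∏ x ∈ M.erase i, Real.exp (-((23791 / 25000) * pr T x +
          (7891 / 10000) * pr T x ^ 2)) := by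
          apply Finset.prod_le_prod
          · intro x _
            linarith [(hp x).2]
          · intro x _
            exact h1 (pr T x) (hp x).1 (hp x).2
      _ = _ := by
          rw [← Real.exp_sum]
          congr 1
          rw [Finset.sum_neg_distrib, Finset.sum_add_distrib, Finset.mul_sum, Finset.mul_sum]
  refine hprod.trans (Real.exp_le_exp.mpr ?_)
  have hBne : B.Nonempty := by
    rw [← Finset.card_pos]
    have : (0 : ℝ) < B.card := by rw [hBc]; exact mul_pos hq hN
    exact_mod_cast this
  have hlow : ∀ v, (1 - c) * N ≤ ((univ.filter (fun w => ¬ T v ∩ T w = ∅)).card : ℝ) := by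
    intro v
    have h2 := hS.few v
    have h3 := Finset.card_filter_add_card_filter_not (s := (univ : Finset V))
      (fun w => T v ∩ T w = ∅)
    rw [Finset.card_univ] at h3
    have h4 : ((univ.filter (fun w => T v ∩ T w = ∅)).card : ℝ) +
        ((univ.filter (fun w => ¬ T v ∩ T w = ∅)).card : ℝ) = N := by
      rw [hNdef]
      exact_mod_cast h3
    linarith
  -- the bound for A
  have hAc : (A.card : ℝ) ≤ c * N := by
    obtain ⟨v, hv⟩ := hBne
    have hvi : i ∉ T v := by simpa [hB] using hv
    have hsub : A ⊆ univ.filter (fun w => T v ∩ T w = ∅) := by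
      intro w hwA
      simp only [Finset.mem_filter, Finset.mem_univ, true_and, hA] at hwA ⊢
      rw [hwA, Finset.inter_singleton_of_notMem hvi]
    have hc : (A.card : ℝ) ≤ ((univ.filter (fun w => T v ∩ T w = ∅)).card : ℝ) := by
      exact_mod_cast Finset.card_le_card hsub
    exact hc.trans (hS.few v)
  -- first bound
  have hs1 : 1 + (1 - pr T i) - c ≤ ∑ x ∈ M.erase i, pr T x := by
    have e1 : (∑ x ∈ M.erase i, pr T x) * N = ∑ v, ((T v).card : ℝ) - D.card := by
      rw [← hdc, ← Finset.add_sum_erase M _ hiM, Finset.sum_mul, hDc]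
      ring
    have e2 : (D.card : ℝ) = ∑ v, (if i ∈ T v then (1 : ℝ) else 0) := by
      rw [← Finset.sum_filter, Finset.sum_const, nsmul_eq_mul, mul_one]
    have e3 : (B.card : ℝ) = ∑ v, (if i ∉ T v then (1 : ℝ) else 0) := by
      rw [← Finset.sum_filter, Finset.sum_const, nsmul_eq_mul, mul_one]
    have e4 : (A.card : ℝ) = ∑ v, (if T v = {i} then (1 : ℝ) else 0) := by
      rw [← Finset.sum_filter, Finset.sum_const, nsmul_eq_mul, mul_one]
    have e5 : N = ∑ _v : V, (1 : ℝ) := by
      rw [Finset.sum_const, nsmul_eq_mul, mul_one, Finset.card_univ]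
    have e6 : N + B.card - A.card ≤ ∑ v, ((T v).card : ℝ) - D.card := by
      rw [e2, e3, e4, e5, ← Finset.sum_add_distrib, ← Finset.sum_sub_distrib,
        ← Finset.sum_sub_distrib]
      apply Finset.sum_le_sum
      intro v _
      exact MP_1ce445_k4.ONE_point i (T v) (hne v) (fun j hj => huniq j v hj)
    have e7 : (1 + (1 - pr T i) - c) * N ≤ (∑ x ∈ M.erase i, pr T x) * N := by
      rw [e1]
      nlinarith
    exact le_of_mul_le_mul_right e7 hN
  -- second bound
  have hs2 : 4 * (1 - pr T i) * (1 - (1 - pr T i) - c) ≤ ∑ x ∈ M.erase i, pr T x ^ 2 := by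
    have hpairs := MP_1ce445_k4.ONE_pairs T (M.erase i) B D ((1 - c) * N - B.card) (by
      intro v hv
      have hvi : i ∉ T v := by simpa [hB] using hv
      have hsub : univ.filter (fun w => ¬ T v ∩ T w = ∅) ⊆
          D.filter (fun w => ∃ x ∈ M.erase i, x ∈ T v ∧ x ∈ T w) ∪ B := by
        intro w hw
        simp only [Finset.mem_filter, Finset.mem_univ, true_and] at hw
        rw [Finset.mem_union]
        by_cases hwi : i ∈ T w
        · left
          obtain ⟨x, hx⟩ := Finset.nonempty_iff_ne_empty.mpr hw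
          rw [Finset.mem_inter] at hx
          rw [Finset.mem_filter]
          refine ⟨by simp [hD, hwi], x, ?_, hx.1, hx.2⟩
          rw [Finset.mem_erase]
          refine ⟨?_, hS.sub v hx.1⟩
          rintro rfl
          exact hvi hx.1
        · right
          simp [hB, hwi]
      have hc := (Finset.card_le_card hsub).trans (Finset.card_union_le _ _)
      have hc' : ((univ.filter (fun w => ¬ T v ∩ T w = ∅)).card : ℝ) ≤
          ((D.filter (fun w => ∃ x ∈ M.erase i, x ∈ T v ∧ x ∈ T w)).card : ℝ) + B.card := by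
        exact_mod_cast hc
      have := hlow v
      linarith)
    have hsq : ∀ x ∈ M.erase i, 4 * (((B.filter (fun v => x ∈ T v)).card : ℝ) *
        ((D.filter (fun w => x ∈ T w)).card : ℝ)) ≤ pr T x ^ 2 * N ^ 2 := by
      intro x _
      have hx1 : pr T x * N = ((univ.filter (fun v => x ∈ T v)).card : ℝ) := by
        unfold pr
        rw [div_mul_cancel₀ _ hN.ne']
      have hx2 : ((univ.filter (fun v => x ∈ T v)).card : ℝ) =
          ((D.filter (fun v => x ∈ T v)).card : ℝ) + ((B.filter (fun v => x ∈ T v)).card : ℝ) := by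
        have := Finset.card_filter_add_card_filter_not
          (s := univ.filter (fun v => x ∈ T v)) (fun v => i ∈ T v)
        rw [Finset.filter_comm, Finset.filter_comm (fun v => x ∈ T v) (fun v => i ∉ T v)] at this
        exact_mod_cast this.symm
      rw [← mul_pow, hx1, hx2]
      nlinarith [sq_nonneg (((D.filter (fun v => x ∈ T v)).card : ℝ) -
        ((B.filter (fun v => x ∈ T v)).card : ℝ))]
    have hsum := Finset.sum_le_sum hsq
    rw [← Finset.mul_sum, ← Finset.sum_mul] at hsum
    have hN2 : 0 < N ^ 2 := by positivity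
    have e7 : (4 * (1 - pr T i) * (1 - (1 - pr T i) - c)) * N ^ 2 ≤
        (∑ x ∈ M.erase i, pr T x ^ 2) * N ^ 2 := by
      refine le_trans ?_ hsum
      refine le_trans (le_of_eq ?_) (mul_le_mul_of_nonneg_left hpairs (by norm_num : (0:ℝ) ≤ 4))
      rw [hBc]
      ring
    exact le_of_mul_le_mul_right e7 hN2
  linarith

end Pool.Agent.Work.MP_1ce445_win
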