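import Pool.Agent.Work.MP_1ce445_win.Interface

/-! MP_1ce445_co, block RIO. -/

namespace Pool.Agent.Work.MP_1ce445_win

open Finset Pool.Agent.Work.MP_1ce445_co_56 Pool.Agent.Work.MP_1ce445_lin
open Pool.Agent.Work.MP_1ce445_k4 (R ad Is LB3 LBT LC5 LG6 LG7 LKE LK5)

theorem RIO_six : Real.exp (17669 / 10000) ≤ 6 := by
  have h2 : Real.exp (6931 / 10000) ≤ 2 := by
    have h := Real.log_two_gt_d9
    calc Real.exp (6931 / 10000) ≤ Real.exp (Real.log 2) := by
          apply Real.exp_le_exp.mpr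
          linarith
      _ = 2 := Real.exp_log (by norm_num)
  have h3 : Real.exp (738 / 10000) ≤ 10797 / 10000 := by
    have h := Real.add_one_le_exp (-(738 / 10000) : ℝ)
    have h4 : Real.exp (738 / 10000) * Real.exp (-(738 / 10000)) = 1 := by
      rw [← Real.exp_add]
      norm_num
    have h5 := Real.exp_pos (738 / 10000 : ℝ)
    nlinarith
  have h1 := Real.exp_one_lt_d9
  have e : Real.exp (17669 / 10000)
      = Real.exp (6931 / 10000) * (Real.exp 1 * Real.exp (738 / 10000)) := by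
    rw [← Real.exp_add, ← Real.exp_add]
    norm_num
  rw [e]
  have p1 := Real.exp_pos (738 / 10000 : ℝ)
  have p2 := Real.exp_pos (1 : ℝ)
  have p3 := Real.exp_pos (6931 / 10000 : ℝ)
  have q1 : Real.exp 1 * Real.exp (738 / 10000) ≤ 3 := by
    calc Real.exp 1 * Real.exp (738 / 10000) ≤ 2.7182818286 * (10797 / 10000) :=
          mul_le_mul h1.le h3 p1.le (by norm_num)
      _ ≤ 3 := by norm_num
  calc Real.exp (6931 / 10000) * (Real.exp 1 * Real.exp (738 / 10000)) ≤ 2 * 3 :=
        mul_le_mul h2 q1 (by positivity) (by norm_num)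
    _ = 6 := by norm_num

theorem stmt_RIO (hTG : Stmt_TG) : Stmt_RIO := by
  intro c q hc hc' hq hqc
  have ht := hTG c (-30691 / 10000) 0 hc hc' (by norm_num) (by norm_num)
  refine le_trans ?_ ht
  have h1 : q ≤ 1 / 6 * Real.exp (6 * q - 1) := by
    have h := Real.add_one_le_exp (6 * q - 1)
    linarith
  have hE : (6 * q - 1) + -(23791 / 25000 * (1 + q - c) + 7891 / 10000 * (4 * q * (1 - q - c)))
      ≤ 17669 / 10000 + -30691 / 10000 + 0 * c := by
    have a1 : 0 ≤ q * (1 / 6 - c) := mul_nonneg hq (by linarith)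
    have a2 : 0 ≤ q * (1 / 6 - q) := mul_nonneg hq (by linarith)
    nlinarith
  have hp := Real.exp_pos (-(23791 / 25000 * (1 + q - c) + 7891 / 10000 * (4 * q * (1 - q - c))))
  calc q * Real.exp (-(23791 / 25000 * (1 + q - c) + 7891 / 10000 * (4 * q * (1 - q - c))))
      ≤ 1 / 6 * Real.exp (6 * q - 1)
        * Real.exp (-(23791 / 25000 * (1 + q - c) + 7891 / 10000 * (4 * q * (1 - q - c)))) :=
        mul_le_mul_of_nonneg_right h1 hp.le
    _ = 1 / 6 * Real.exp ((6 * q - 1)
        + -(23791 / 25000 * (1 + q - c) + 7891 / 10000 * (4 * q * (1 - q - c)))) := by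
        rw [mul_assoc, ← Real.exp_add]
    _ ≤ 1 / 6 * Real.exp (17669 / 10000 + -30691 / 10000 + 0 * c) := by
        apply mul_le_mul_of_nonneg_left _ (by norm_num)
        exact Real.exp_le_exp.mpr hE
    _ = 1 / 6 * (Real.exp (17669 / 10000) * Real.exp (-30691 / 10000 + 0 * c)) := by
        rw [← Real.exp_add, add_assoc]
    _ ≤ 1 / 6 * (6 * Real.exp (-30691 / 10000 + 0 * c)) := by
        apply mul_le_mul_of_nonneg_left _ (by norm_num)
        exact mul_le_mul_of_nonneg_right RIO_six (Real.exp_pos _).le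
    _ = Real.exp (-30691 / 10000 + 0 * c) := by ring

end Pool.Agent.Work.MP_1ce445_win
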