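import Pool.Agent.Work.MP_1ce445_win.Interface

/-!
Block RIW: two inequalities for real numbers in the window `1/7 ≤ c ≤ 1/6`.
-/

namespace Pool.Agent.Work.MP_1ce445_win

open Finset Pool.Agent.Work.MP_1ce445_co_56 Pool.Agent.Work.MP_1ce445_lin
open Pool.Agent.Work.MP_1ce445_k4 (R ad Is LB3 LBT LC5 LG6 LG7 LKE LK5)

theorem RIW_GG_nonneg (c : ℝ) : 0 ≤ GG c := by
  unfold GG
  positivity

/-- the tangent to the logarithm at `q0` -/
theorem RIW_tan2 (q q0 L : ℝ) (h0 : 0 < q0) (hL : Real.log q0 ≤ L) :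
    q ≤ Real.exp (L + q / q0 - 1) := by
  have h1 : q / q0 ≤ Real.exp (q / q0 - 1) := by
    have := Real.add_one_le_exp (q / q0 - 1)
    linarith
  have h2 : q0 ≤ Real.exp L := by
    rw [← Real.exp_log h0]
    exact Real.exp_le_exp.mpr hL
  have h3 : q = q / q0 * q0 := by
    field_simp
  have h4 : q / q0 * q0 ≤ Real.exp (q / q0 - 1) * q0 := mul_le_mul_of_nonneg_right h1 h0.le
  have h5 : Real.exp (q / q0 - 1) * q0 ≤ Real.exp (q / q0 - 1) * Real.exp L :=
    mul_le_mul_of_nonneg_left h2 (Real.exp_pos _).le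
  rw [← Real.exp_add] at h5
  have h6 : q / q0 - 1 + L = L + q / q0 - 1 := by ring
  rw [h6] at h5
  linarith

theorem RIW_fin (hTG : Stmt_TG) (c q q0 L E : ℝ) (hc1 : 1 / 7 ≤ c) (hc2 : c ≤ 1 / 6)
    (h0 : 0 < q0) (hL : Real.log q0 ≤ L)
    (h : L + q / q0 - 1 - E ≤ -30691 / 10000 - 4998 / 7000 + 4998 / 1000 * c) :
    q * Real.exp (-E) ≤ GG c := by
  have h1 := hTG c (-30691 / 10000 - 4998 / 7000) (4998 / 1000) hc1 hc2 (by norm_num) (by norm_num)
  have h2 := RIW_tan2 q q0 L h0 hL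
  have h3 : q * Real.exp (-E) ≤ Real.exp (L + q / q0 - 1) * Real.exp (-E) :=
    mul_le_mul_of_nonneg_right h2 (Real.exp_pos _).le
  rw [← Real.exp_add] at h3
  have h4 : Real.exp (L + q / q0 - 1 + -E) ≤
      Real.exp (-30691 / 10000 - 4998 / 7000 + 4998 / 1000 * c) := by
    apply Real.exp_le_exp.mpr
    linarith
  linarith

theorem RIW_log4 : Real.log (1 / 4) ≤ -13862 / 10000 := by
  have h : Real.log (1 / 4) = -(2 * Real.log 2) := by
    rw [one_div, Real.log_inv, show (4 : ℝ) = 2 ^ 2 by norm_num, Real.log_pow]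
    norm_num
  have := Real.log_two_gt_d9
  rw [h]
  linarith

theorem RIW_log8 : Real.log (1 / 8) ≤ -20794 / 10000 := by
  have h : Real.log (1 / 8) = -(3 * Real.log 2) := by
    rw [one_div, Real.log_inv, show (8 : ℝ) = 2 ^ 3 by norm_num, Real.log_pow]
    norm_num
  have := Real.log_two_gt_d9
  rw [h]
  linarith

theorem RIW_log25 : Real.log (2 / 5) ≤ -9153 / 10000 := by
  have h : Real.log (2 / 5) = -(Real.log 2 + Real.log (1 + 1 / 4)) := by
    rw [← Real.log_mul (by norm_num) (by norm_num), ← Real.log_inv]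
    norm_num
  have h1 := Real.log_two_gt_d9
  have h2 : 2 * (1 / 4 : ℝ) / (1 / 4 + 2) ≤ Real.log (1 + 1 / 4) :=
    Real.le_log_one_add_of_nonneg (by norm_num)
  rw [h]
  have h3 : (2 * (1 / 4 : ℝ) / (1 / 4 + 2)) = 2 / 9 := by norm_num
  rw [h3] at h2
  linarith

theorem stmt_RIW (hTG : Stmt_TG) : Stmt_RIW := by
  refine ⟨?_, ?_⟩
  · intro c q B C D hc1 hc2 hq hqc hB hC hD
    set E : ℝ := 19 / 20 * B + 7 / 10 * C + 21 / 5 * D with hE
    have hE1 : 19 / 20 * (3 * q - c) + 7 / 10 * (1 - q) + 21 / 5 * (q * (1 - c - q)) ≤ E := by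
      rw [hE]
      linarith
    have hq1 : q ≤ 1 / 2 := by linarith
    have p1 : 0 ≤ (c - 1 / 7) * (4048 / 1000 - 21 / 5 * q) :=
      mul_nonneg (by linarith) (by linarith)
    by_cases c1 : q ≤ 3 / 20
    · apply RIW_fin hTG c q (1 / 8) _ E hc1 hc2 (by norm_num) RIW_log8
      have p2 : 0 ≤ q * (3 / 20 - q) := mul_nonneg hq (by linarith)
      have : q / (1 / 8) = 8 * q := by ring
      rw [this]
      nlinarith
    push Not at c1
    by_cases c2 : q ≤ 3 / 10
    · apply RIW_fin hTG c q (1 / 4) _ E hc1 hc2 (by norm_num) RIW_log4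
      have p2 : 0 ≤ (q - 3 / 20) * (3 / 10 - q) := mul_nonneg (by linarith) (by linarith)
      have : q / (1 / 4) = 4 * q := by ring
      rw [this]
      nlinarith
    push Not at c2
    have e25 : q / (2 / 5) = 5 / 2 * q := by ring
    by_cases c3 : q ≤ 9 / 20
    · apply RIW_fin hTG c q (2 / 5) _ E hc1 hc2 (by norm_num) RIW_log25
      have p2 : 0 ≤ (q - 3 / 10) * (9 / 20 - q) := mul_nonneg (by linarith) (by linarith)
      rw [e25]
      nlinarith
    push Not at c3
    apply RIW_fin hTG c q (2 / 5) _ E hc1 hc2 (by norm_num) RIW_log25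
    have p2 : 0 ≤ (q - 9 / 20) * (1 / 2 - q) := mul_nonneg (by linarith) (by linarith)
    have p3 : 0 ≤ (c - (q - 307 / 1000)) * (4048 / 1000 - 21 / 5 * q) :=
      mul_nonneg (by linarith) (by linarith)
    rw [e25]
    nlinarith
  · intro c q om S Sn n hc1 hc2 hq hq1 hb hom hom1 hn hS hSn
    have hl1 := Real.log_two_gt_d9
    have hl2 := Real.log_two_lt_d9
    have e1 : 1 / 2 * Real.exp 1 = Real.exp (1 - Real.log 2) := by
      rw [Real.exp_sub, Real.exp_log (by norm_num)]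
      ring
    have e2 : (1 / 2 * Real.exp 1) ^ n = Real.exp (n * (1 - Real.log 2)) := by
      rw [e1, ← Real.exp_nat_mul]
    have hL : Real.log (1 / 2) ≤ -Real.log 2 := by
      rw [one_div, Real.log_inv]
    have h2 := RIW_tan2 q (1 / 2) (-Real.log 2) (by norm_num) hL
    have e3 : q / (1 / 2) = 2 * q := by ring
    rw [e3] at h2
    have hn' : (1 : ℝ) ≤ n := by exact_mod_cast hn
    have p1 : 0 ≤ ((n : ℝ) - 1) * ((q - c) - (1 - Real.log 2)) :=
      mul_nonneg (by linarith) (by linarith)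
    have h1 := hTG c (-3386 / 1000) 2 hc1 hc2 (by norm_num) (by norm_num)
    rw [e2]
    calc q * Real.exp (n * (1 - Real.log 2)) * Real.exp (-(Sn + S))
        ≤ Real.exp (-Real.log 2 + 2 * q - 1) * Real.exp (n * (1 - Real.log 2)) *
            Real.exp (-(Sn + S)) := by
          apply mul_le_mul_of_nonneg_right _ (Real.exp_pos _).le
          exact mul_le_mul_of_nonneg_right h2 (Real.exp_pos _).le
      _ = Real.exp (-Real.log 2 + 2 * q - 1 + n * (1 - Real.log 2) + -(Sn + S)) := by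
          rw [← Real.exp_add, ← Real.exp_add]
      _ ≤ Real.exp (-3386 / 1000 + 2 * c) := by
          apply Real.exp_le_exp.mpr
          nlinarith
      _ ≤ GG c := h1

end Pool.Agent.Work.MP_1ce445_win
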