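import Pool.Agent.Work.MP_1ce445_win.Interface

/-!
# Block SIX (MP_1ce445_co, window 1/7 to 1/6): three disjoint present pairs (copy of the k4 block of helper48)
-/

namespace Pool.Agent.Work.MP_1ce445_win

open Finset Pool.Agent.Work.MP_1ce445_co_56 Pool.Agent.Work.MP_1ce445_lin
open Pool.Agent.Work.MP_1ce445_k4 (R ad Is LB3 LBT LC5 LG6 LG7 LKE LK5)

theorem SIX_card {m : ℕ} (t : Fin m → Bool) :
    (((univ.filter (fun i => t i = true)).card : ℕ) : ℝ) =
      ∑ i, if t i = true then (1 : ℝ) else 0 := by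
  rw [← Finset.sum_filter, Finset.sum_const, nsmul_eq_mul, mul_one]

theorem SIX_fin2 (t : Fin 6 → Bool) (h : (∑ i, if t i = true then (1 : ℝ) else 0) ≤ 2) :
    (24 / 5 : ℝ) ≤ 2 + (∑ i, if t i = true then (8 / 5 : ℝ) - 1 else 0) +
      ∑ s : Fin 3, if t ((![0, 2, 4] : Fin 3 → Fin 6) s) = false ∧
        t ((![1, 3, 5] : Fin 3 → Fin 6) s) = false then (8 / 5 : ℝ) else 0 := by
  simp only [Fin.sum_univ_six, Fin.sum_univ_three] at h ⊢
  rcases e0 : t 0 with _ | _ <;> rcases e1 : t 1 with _ | _ <;> rcases e2 : t 2 with _ | _ <;>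
    rcases e3 : t 3 with _ | _ <;> rcases e4 : t 4 with _ | _ <;> rcases e5 : t 5 with _ | _ <;>
    simp [e0, e1, e2, e3, e4, e5] at h ⊢ <;>
    first | (norm_num; done) | (exfalso; norm_num at h)

theorem SIX_fin3 (t : Fin 6 → Bool) :
    (24 / 5 : ℝ) ≤ max 3 (((univ.filter (fun i => t i = true)).card : ℕ) : ℝ) +
      (∑ i, if t i = true then (8 / 5 : ℝ) - 1 else 0) +
      ∑ s : Fin 3, if t ((![0, 2, 4] : Fin 3 → Fin 6) s) = false ∧
        t ((![1, 3, 5] : Fin 3 → Fin 6) s) = false then (8 / 5 : ℝ) else 0 := by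
  rw [SIX_card]
  have h3 := le_max_left (3 : ℝ) (∑ i, if t i = true then (1 : ℝ) else 0)
  have h4 := le_max_right (3 : ℝ) (∑ i, if t i = true then (1 : ℝ) else 0)
  generalize max (3 : ℝ) (∑ i, if t i = true then (1 : ℝ) else 0) = w at h3 h4 ⊢
  simp only [Fin.sum_univ_six, Fin.sum_univ_three] at h4 ⊢
  rcases e0 : t 0 with _ | _ <;> rcases e1 : t 1 with _ | _ <;> rcases e2 : t 2 with _ | _ <;>
    rcases e3 : t 3 with _ | _ <;> rcases e4 : t 4 with _ | _ <;> rcases e5 : t 5 with _ | _ <;>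
    simp [e0, e1, e2, e3, e4, e5] at h4 ⊢ <;>
    norm_num at h4 ⊢ <;> linarith

theorem SIX_exp (hTG : Stmt_TG) (c : ℝ) (hc : 1 / 7 ≤ c) (hc2 : c ≤ 1 / 6) :
    Real.exp (∑ _i : Fin 6, ((8 / 5 : ℝ) - 1 - Real.log (8 / 5)) - 24 / 5 +
      c * ∑ _s : Fin 3, (8 / 5 : ℝ)) ≤ GG c := by
  have e1 : ∑ _i : Fin 6, ((8 / 5 : ℝ) - 1 - Real.log (8 / 5)) - 24 / 5 +
      c * ∑ _s : Fin 3, (8 / 5 : ℝ) = (-6 / 5 - 6 * Real.log (8 / 5)) + 24 / 5 * c := by
    simp only [Finset.sum_const, Finset.card_univ, Fintype.card_fin, nsmul_eq_mul]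
    push_cast
    ring
  rw [e1]
  have h1 : 4 * Real.log 2 ≤ 6 * Real.log (8 / 5) := by
    have h2 : (4 : ℝ) * Real.log 2 = Real.log (2 ^ 4) := by
      rw [Real.log_pow]
      norm_num
    have h3 : (6 : ℝ) * Real.log (8 / 5) = Real.log ((8 / 5) ^ 6) := by
      rw [Real.log_pow]
      norm_num
    rw [h2, h3]
    exact Real.log_le_log (by norm_num) (by norm_num)
  have hl := Real.log_two_gt_d9
  exact hTG c (-6 / 5 - 6 * Real.log (8 / 5)) (24 / 5) hc hc2 (by linarith) (by linarith)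

theorem stmt_SIX (hTG : Stmt_TG) (h1 : Stmt_CER) : Stmt_SIX := by
  classical
  intro V _ k M T c hK a1 b1 a2 b2 a3 b3 hnd r1 r2 r3
  have hinj : Function.Injective (![a1, b1, a2, b2, a3, b3] : Fin 6 → Fin k) := by
    have h := List.nodup_iff_injective_get.1 hnd
    intro i j hij
    have h2 : ∀ i : Fin 6, (![a1, b1, a2, b2, a3, b3] : Fin 6 → Fin k) i =
        [a1, b1, a2, b2, a3, b3].get ⟨i.val, i.isLt⟩ := by
      intro i
      fin_cases i <;> rfl
    rw [h2, h2] at hij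
    have h3 := h hij
    exact Fin.ext (by simpa using congrArg Fin.val h3)
  have hR : ∀ s : Fin 3, R T ((![a1, b1, a2, b2, a3, b3] : Fin 6 → Fin k)
      ((![0, 2, 4] : Fin 3 → Fin 6) s)) ((![a1, b1, a2, b2, a3, b3] : Fin 6 → Fin k)
      ((![1, 3, 5] : Fin 3 → Fin 6) s)) := by
    intro s
    fin_cases s
    · exact r1
    · exact r2
    · exact r3
  set p : Fin 6 → Fin k := ![a1, b1, a2, b2, a3, b3] with hp
  refine le_trans (h1 M T c hK 6 3 p (fun _ => 8 / 5) ![0, 2, 4] ![1, 3, 5]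
    (fun _ => 8 / 5) (24 / 5) hinj (fun _ => by norm_num) (fun _ => by norm_num) hR ?_ ?_)
    (SIX_exp hTG c hK.cl hK.cu)
  · intro v hv
    have hc : (∑ i, if (decide (p i ∈ T v)) = true then (1 : ℝ) else 0) ≤ 2 := by
      rw [← SIX_card]
      have h2 : (univ.filter (fun i => decide (p i ∈ T v) = true)).card ≤ (T v).card := by
        apply Finset.card_le_card_of_injOn p
        · intro i hi
          simpa using hi
        · exact hinj.injOn
      rw [hv] at h2
      exact_mod_cast h2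
    have h2 := SIX_fin2 (fun i => decide (p i ∈ T v)) hc
    simpa only [decide_eq_true_eq, decide_eq_false_iff_not] using h2
  · intro t
    exact SIX_fin3 t

end Pool.Agent.Work.MP_1ce445_win
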