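import Pool.Agent.Work.MP_1ce445_win.Interface

/-!
# Block STS (MP_1ce445_co, range 1/7 to 1/6): sums for LEA (helper88, after the file STS of MP_1ce445_k4 by helper48)
-/

namespace Pool.Agent.Work.MP_1ce445_win

open Finset Pool.Agent.Work.MP_1ce445_co_56 Pool.Agent.Work.MP_1ce445_lin
open Pool.Agent.Work.MP_1ce445_k4 (R ad Is LB3 LBT LC5 LG6 LG7 LKE LK5)

lemma STS_pairs {V : Type} [Fintype V] {k : ℕ} (T : V → Finset (Fin k)) (S : Finset (Fin k))
    (B C : Finset V) (m : ℝ)
    (h : ∀ v ∈ B, m ≤ ((C.filter (fun w => ∃ x ∈ S, x ∈ T v ∧ x ∈ T w)).card : ℝ)) :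
    (B.card : ℝ) * m ≤ ∑ x ∈ S, (((B.filter (fun v => x ∈ T v)).card : ℝ) *
      ((C.filter (fun w => x ∈ T w)).card : ℝ)) := by
  classical
  have e1 : ∀ x ∈ S, (((B.filter (fun v => x ∈ T v)).card : ℝ) *
      ((C.filter (fun w => x ∈ T w)).card : ℝ)) =
      ∑ v ∈ B, if x ∈ T v then ((C.filter (fun w => x ∈ T w)).card : ℝ) else 0 := by
    intro x _
    rw [← Finset.sum_filter, Finset.sum_const, nsmul_eq_mul]
  rw [Finset.sum_congr rfl e1, Finset.sum_comm]
  rw [← nsmul_eq_mul, ← Finset.sum_const]
  apply Finset.sum_le_sum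
  intro v hv
  refine (h v hv).trans ?_
  rw [← Finset.sum_filter]
  have : (C.filter (fun w => ∃ x ∈ S, x ∈ T v ∧ x ∈ T w)).card ≤
      ∑ x ∈ S.filter (fun x => x ∈ T v), (C.filter (fun w => x ∈ T w)).card := by
    refine le_trans (Finset.card_le_card ?_) (Finset.card_biUnion_le)
    intro w hw
    simp only [Finset.mem_filter, Finset.mem_biUnion] at hw ⊢
    obtain ⟨hwC, x, hxS, hxv, hxw⟩ := hw
    exact ⟨x, ⟨hxS, hxv⟩, hwC, hxw⟩
  exact_mod_cast this

theorem STS_pr {V : Type} [Fintype V] {k : ℕ} (T : V → Finset (Fin k)) (j : Fin k)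
    (hN : 0 < Fintype.card V) :
    pr T j * Fintype.card V = ((univ.filter (fun v => j ∈ T v)).card : ℝ) := by
  have h : (Fintype.card V : ℝ) ≠ 0 := by exact_mod_cast hN.ne'
  unfold pr
  rw [div_mul_cancel₀ _ h]

theorem STS_five {V : Type} [Fintype V] {k : ℕ} {M : Finset (Fin k)} {T : V → Finset (Fin k)}
    (hN : 0 < Fintype.card V) (hT : ∀ v, T v ⊆ M) :
    ∑ j ∈ M, pr T j * Fintype.card V = ∑ v, ((T v).card : ℝ) := by
  classical
  have h1 : ∑ j ∈ M, (univ.filter (fun v => j ∈ T v)).card = ∑ v, (T v).card := by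
    have h2 : ∀ j ∈ M, (univ.filter (fun v => j ∈ T v)).card = ∑ v, if j ∈ T v then 1 else 0 :=
      fun j _ => Finset.card_filter _ _
    rw [Finset.sum_congr rfl h2, Finset.sum_comm]
    refine Finset.sum_congr rfl fun v _ => ?_
    rw [← Finset.card_filter]
    congr 1
    ext j
    rw [Finset.mem_filter]
    exact ⟨fun hj => hj.2, fun hj => ⟨hT v hj, hj⟩⟩
  have h3 : ∑ j ∈ M, pr T j * Fintype.card V =
      ((∑ j ∈ M, (univ.filter (fun v => j ∈ T v)).card : ℕ) : ℝ) := by
    rw [Nat.cast_sum]
    exact Finset.sum_congr rfl fun j _ => STS_pr T j hN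
  rw [h3, h1, Nat.cast_sum]

/-- sets which meet `T v` -/
theorem STS_low {V : Type} [Fintype V] {k : ℕ} {M : Finset (Fin k)} {T : V → Finset (Fin k)}
    {c : ℝ} (h : Kg M T c) (v : V) :
    (1 - c) * Fintype.card V ≤ ((univ.filter (fun w => ¬ T v ∩ T w = ∅)).card : ℝ) := by
  classical
  have h0 : (univ.filter (fun w => T v ∩ T w = ∅)).card +
      (univ.filter (fun w => ¬ T v ∩ T w = ∅)).card = Fintype.card V := by
    rw [Finset.card_filter_add_card_filter_not, Finset.card_univ]
  have h4 : ((univ.filter (fun w => T v ∩ T w = ∅)).card : ℝ) +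
      ((univ.filter (fun w => ¬ T v ∩ T w = ∅)).card : ℝ) = Fintype.card V := by
    exact_mod_cast h0
  have := h.few v
  linarith

lemma STS_point {k : ℕ} (x : Fin k) (S : Finset (Fin k)) (h2 : 2 ≤ S.card) :
    (2 : ℝ) + (if x ∉ S then 1 else 0) - (if S.card = 2 ∧ x ∈ S then 1 else 0) -
      (if S.card = 2 ∧ x ∉ S then 1 else 0) ≤
      (S.card : ℝ) - (if x ∈ S then 1 else 0) := by
  by_cases hx : x ∈ S
  · by_cases hs : S.card = 2
    · simp [hx, hs]
      try norm_num
    · have h3 : (3 : ℝ) ≤ S.card := by exact_mod_cast (by omega : 3 ≤ S.card)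
      simp [hx, hs]
      try linarith
  · by_cases hs : S.card = 2
    · simp [hx, hs]
    · have h3 : (3 : ℝ) ≤ S.card := by exact_mod_cast (by omega : 3 ≤ S.card)
      simp [hx, hs]
      linarith

lemma STS_dc {V : Type} [Fintype V] {k : ℕ} (T : V → Finset (Fin k)) (S : Finset (Fin k))
    (B : Finset V) :
    ∑ j ∈ S, ((B.filter (fun v => j ∈ T v)).card : ℝ) =
      ∑ v ∈ B, ((S.filter (fun j => j ∈ T v)).card : ℝ) := by
  classical
  have e1 : ∀ j ∈ S, ((B.filter (fun v => j ∈ T v)).card : ℝ) =
      ∑ v ∈ B, if j ∈ T v then (1 : ℝ) else 0 := by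
    intro j _
    rw [← Finset.sum_filter, Finset.sum_const, nsmul_eq_mul, mul_one]
  have e2 : ∀ v ∈ B, ((S.filter (fun j => j ∈ T v)).card : ℝ) =
      ∑ j ∈ S, if j ∈ T v then (1 : ℝ) else 0 := by
    intro v _
    rw [← Finset.sum_filter, Finset.sum_const, nsmul_eq_mul, mul_one]
  rw [Finset.sum_congr rfl e1, Finset.sum_congr rfl e2, Finset.sum_comm]

theorem STS_bb {V : Type} [Fintype V] {k : ℕ} (T : V → Finset (Fin k)) (x j : Fin k)
    (hN : 0 < Fintype.card V) :
    bb T x j * Fintype.card V =
      (((univ.filter (fun v => x ∉ T v)).filter (fun v => j ∈ T v)).card : ℝ) := by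
  have h : (Fintype.card V : ℝ) ≠ 0 := by exact_mod_cast hN.ne'
  unfold bb
  rw [div_mul_cancel₀ _ h, Finset.filter_filter]

theorem STS_cc {V : Type} [Fintype V] {k : ℕ} (T : V → Finset (Fin k)) (x j : Fin k)
    (hN : 0 < Fintype.card V) :
    cc T x j * Fintype.card V =
      (((univ.filter (fun v => x ∈ T v)).filter (fun v => j ∈ T v)).card : ℝ) := by
  have h : (Fintype.card V : ℝ) ≠ 0 := by exact_mod_cast hN.ne'
  unfold cc
  rw [div_mul_cancel₀ _ h, Finset.filter_filter]

theorem stmt_STS : Stmt_STS := by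
  classical
  intro V _ k M T c hK x y hR hcl
  obtain ⟨hxy, v0, hv0⟩ := hR
  have hxM : x ∈ M := by
    have := hK.sub v0
    rw [hv0] at this
    exact this (by simp)
  have hNn := hK.pos
  have hN : (0 : ℝ) < Fintype.card V := by exact_mod_cast hK.pos
  set N : ℝ := (Fintype.card V : ℝ) with hNdef
  set B : Finset V := univ.filter (fun v => x ∉ T v) with hB
  set D : Finset V := univ.filter (fun v => x ∈ T v) with hD
  set A : Finset V := univ.filter (fun v => (T v).card = 2 ∧ x ∈ T v) with hA
  set C : Finset V := univ.filter (fun v => (T v).card = 2 ∧ x ∉ T v) with hC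
  have hDc : (D.card : ℝ) = pr T x * N := (STS_pr T x hNn).symm
  have hBDc : (D.card : ℝ) + B.card = N := by
    have := Finset.card_filter_add_card_filter_not (s := (univ : Finset V)) (fun v => x ∈ T v)
    rw [Finset.card_univ] at this
    rw [hNdef]
    exact_mod_cast this
  have hBc : (B.card : ℝ) = (1 - pr T x) * N := by linarith
  have hAD : (A.card : ℝ) ≤ D.card := by
    have : A.card ≤ D.card := by
      apply Finset.card_le_card
      intro v hv
      simp only [hA, hD, Finset.mem_filter, Finset.mem_univ, true_and] at hv ⊢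
      exact hv.2
    exact_mod_cast this
  have hCc : (C.card : ℝ) ≤ c * N := by
    refine le_trans ?_ (hK.few v0)
    have : C.card ≤ (univ.filter (fun w => T v0 ∩ T w = ∅)).card := by
      apply Finset.card_le_card
      intro w hw
      simp only [hC, Finset.mem_filter, Finset.mem_univ, true_and] at hw ⊢
      rw [hv0]
      ext z
      simp only [Finset.mem_inter, Finset.mem_insert, Finset.mem_singleton, Finset.notMem_empty,
        iff_false, not_and]
      rintro (rfl | rfl)
      · exact hw.2
      · exact hcl w hw.1 hw.2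
    exact_mod_cast this
  have hN' : ∀ j, R T x j → j ∈ M.erase x := by
    rintro j ⟨hj, v, hv⟩
    rw [Finset.mem_erase]
    refine ⟨fun h => hj h.symm, ?_⟩
    have := hK.sub v
    rw [hv] at this
    exact this (by simp)
  have hmB : ∀ v ∈ B, (M.erase x).filter (fun j => j ∈ T v) = T v := by
    intro v hv
    have hvi : x ∉ T v := by simpa [hB] using hv
    ext j
    rw [Finset.mem_filter, Finset.mem_erase]
    constructor
    · exact fun h => h.2
    · intro h
      exact ⟨⟨fun h' => hvi (h' ▸ h), hK.sub v h⟩, h⟩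
  have hmD : ∀ v ∈ D, 1 ≤ (((M.erase x).filter (fun j => j ∈ T v)).card : ℝ) := by
    intro v hv
    have h2 := hK.two v
    obtain ⟨j, hj, hjx⟩ := Finset.exists_mem_ne (show 1 < (T v).card by omega) x
    have h3 : 0 < ((M.erase x).filter (fun j => j ∈ T v)).card := by
      apply Finset.card_pos.2
      exact ⟨j, Finset.mem_filter.2 ⟨Finset.mem_erase.2 ⟨hjx, hK.sub v hj⟩, hj⟩⟩
    exact_mod_cast h3
  refine ⟨?_, ?_, ?_, ?_, A.card / N, univ.filter (fun j => R T x j), by positivity,
    ?_, ?_, ?_, ?_, ?_⟩
  · intro j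
    refine ⟨by unfold bb; positivity, by unfold cc; positivity, ?_⟩
    have h1 := STS_pr T j hNn
    have h2 := STS_bb T x j hNn
    have h3 := STS_cc T x j hNn
    have h4 := Finset.card_filter_add_card_filter_not
      (s := univ.filter (fun v => j ∈ T v)) (fun v => x ∈ T v)
    rw [Finset.filter_comm, Finset.filter_comm (fun v => j ∈ T v) (fun v => x ∉ T v)] at h4
    have h5 : (((univ.filter (fun v => x ∈ T v)).filter (fun v => j ∈ T v)).card : ℝ) +
        (((univ.filter (fun v => x ∉ T v)).filter (fun v => j ∈ T v)).card : ℝ) =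
        ((univ.filter (fun v => j ∈ T v)).card : ℝ) := by exact_mod_cast h4
    have h6 : pr T j * N = (bb T x j + cc T x j) * N := by
      rw [add_mul]
      linarith
    exact mul_right_cancel₀ hN.ne' h6
  · -- sum of bb
    have e1 : (∑ j ∈ M.erase x, bb T x j) * N = ∑ v ∈ B, ((T v).card : ℝ) := by
      rw [Finset.sum_mul, Finset.sum_congr rfl (fun j _ => STS_bb T x j hNn), STS_dc]
      exact Finset.sum_congr rfl (fun v hv => by rw [hmB v hv])
    have e2 : (C.card : ℝ) = ∑ v ∈ B, (if (T v).card = 2 then (1 : ℝ) else 0) := by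
      rw [← Finset.sum_filter, Finset.sum_const, nsmul_eq_mul, mul_one, hB, hC,
        Finset.filter_filter]
      congr 2
      ext v
      simp only [Finset.mem_filter, Finset.mem_univ, true_and]
      exact and_comm
    have e3 : 3 * (B.card : ℝ) - C.card ≤ ∑ v ∈ B, ((T v).card : ℝ) := by
      have e4 : 3 * (B.card : ℝ) = ∑ _v ∈ B, (3 : ℝ) := by
        rw [Finset.sum_const, nsmul_eq_mul, mul_comm]
      rw [e4, e2, ← Finset.sum_sub_distrib]
      apply Finset.sum_le_sum
      intro v _
      have h2 := hK.two v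
      by_cases hs : (T v).card = 2
      · rw [if_pos hs, hs]
        norm_num
      · have h3 : (3 : ℝ) ≤ (T v).card := by exact_mod_cast (by omega : 3 ≤ (T v).card)
        rw [if_neg hs]
        linarith
    have e5 : (3 * (1 - pr T x) - c) * N ≤ (∑ j ∈ M.erase x, bb T x j) * N := by
      rw [e1]
      nlinarith
    exact le_of_mul_le_mul_right e5 hN
  · -- sum of cc
    have e1 : (∑ j ∈ M.erase x, cc T x j) * N =
        ∑ v ∈ D, (((M.erase x).filter (fun j => j ∈ T v)).card : ℝ) := by
      rw [Finset.sum_mul, Finset.sum_congr rfl (fun j _ => STS_cc T x j hNn), STS_dc]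
    have e2 : (D.card : ℝ) ≤ ∑ v ∈ D, (((M.erase x).filter (fun j => j ∈ T v)).card : ℝ) := by
      have e4 : (D.card : ℝ) = ∑ _v ∈ D, (1 : ℝ) := by
        rw [Finset.sum_const, nsmul_eq_mul, mul_one]
      rw [e4]
      exact Finset.sum_le_sum hmD
    have e5 : pr T x * N ≤ (∑ j ∈ M.erase x, cc T x j) * N := by
      rw [e1, ← hDc]
      exact e2
    exact le_of_mul_le_mul_right e5 hN
  · -- products
    have hpairs := STS_pairs T (M.erase x) B D ((1 - c) * N - B.card) (by
      intro v hv
      have hvi : x ∉ T v := by simpa [hB] using hv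
      have hsub : univ.filter (fun w => ¬ T v ∩ T w = ∅) ⊆
          D.filter (fun w => ∃ j ∈ M.erase x, j ∈ T v ∧ j ∈ T w) ∪ B := by
        intro w hw
        simp only [Finset.mem_filter, Finset.mem_univ, true_and] at hw
        rw [Finset.mem_union]
        by_cases hwi : x ∈ T w
        · left
          obtain ⟨j, hj⟩ := Finset.nonempty_iff_ne_empty.2 hw
          rw [Finset.mem_inter] at hj
          rw [Finset.mem_filter]
          refine ⟨by simp [hD, hwi], j, ?_, hj.1, hj.2⟩
          rw [Finset.mem_erase]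
          refine ⟨?_, hK.sub v hj.1⟩
          rintro rfl
          exact hvi hj.1
        · right
          simp [hB, hwi]
      have hc := (Finset.card_le_card hsub).trans (Finset.card_union_le _ _)
      have hc' : ((univ.filter (fun w => ¬ T v ∩ T w = ∅)).card : ℝ) ≤
          ((D.filter (fun w => ∃ j ∈ M.erase x, j ∈ T v ∧ j ∈ T w)).card : ℝ) + B.card := by
        exact_mod_cast hc
      have := STS_low hK.toKg v
      linarith)
    have e6 : ∀ j ∈ M.erase x, (((B.filter (fun v => j ∈ T v)).card : ℝ) *
        ((D.filter (fun w => j ∈ T w)).card : ℝ)) = bb T x j * cc T x j * N ^ 2 := by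
      intro j _
      rw [hB, hD, ← STS_bb T x j hNn, ← STS_cc T x j hNn]
      ring
    rw [Finset.sum_congr rfl e6, ← Finset.sum_mul, hBc] at hpairs
    have hN2 : 0 < N ^ 2 := by positivity
    have e7 : ((1 - pr T x) * (pr T x - c)) * N ^ 2 ≤
        (∑ j ∈ M.erase x, bb T x j * cc T x j) * N ^ 2 := by
      refine le_trans (le_of_eq ?_) hpairs
      ring
    exact le_of_mul_le_mul_right e7 hN2
  · rw [div_le_iff₀ hN, ← hDc]
    exact hAD
  · intro j hj
    exact hN' j (Finset.mem_filter.1 hj).2
  · exact ⟨y, Finset.mem_filter.2 ⟨Finset.mem_univ _, hxy, v0, hv0⟩⟩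
  · -- first bound
    have e1 : (∑ j ∈ M.erase x, pr T j) * N = ∑ v, ((T v).card : ℝ) - D.card := by
      rw [← STS_five hNn hK.sub, ← Finset.add_sum_erase M _ hxM, Finset.sum_mul, hDc]
      ring
    have e2 : (D.card : ℝ) = ∑ v, (if x ∈ T v then (1 : ℝ) else 0) := by
      rw [← Finset.sum_filter, Finset.sum_const, nsmul_eq_mul, mul_one]
    have e3 : (B.card : ℝ) = ∑ v, (if x ∉ T v then (1 : ℝ) else 0) := by
      rw [← Finset.sum_filter, Finset.sum_const, nsmul_eq_mul, mul_one]
    have e4 : (A.card : ℝ) = ∑ v, (if (T v).card = 2 ∧ x ∈ T v then (1 : ℝ) else 0) := by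
      rw [← Finset.sum_filter, Finset.sum_const, nsmul_eq_mul, mul_one]
    have e5 : (C.card : ℝ) = ∑ v, (if (T v).card = 2 ∧ x ∉ T v then (1 : ℝ) else 0) := by
      rw [← Finset.sum_filter, Finset.sum_const, nsmul_eq_mul, mul_one]
    have e6 : 2 * N = ∑ _v : V, (2 : ℝ) := by
      rw [Finset.sum_const, nsmul_eq_mul, Finset.card_univ]
      ring
    have e7 : 2 * N + B.card - A.card - C.card ≤ ∑ v, ((T v).card : ℝ) - D.card := by
      rw [e2, e3, e4, e5, e6, ← Finset.sum_add_distrib, ← Finset.sum_sub_distrib,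
        ← Finset.sum_sub_distrib, ← Finset.sum_sub_distrib]
      apply Finset.sum_le_sum
      intro v _
      exact STS_point x (T v) (hK.two v)
    have e8 : (2 * pr T x - A.card / N + 3 * (1 - pr T x) - c) * N ≤
        (∑ j ∈ M.erase x, pr T j) * N := by
      rw [e1]
      have e9 : (A.card : ℝ) / N * N = A.card := div_mul_cancel₀ _ hN.ne'
      nlinarith
    exact le_of_mul_le_mul_right e8 hN
  · -- second bound
    set N' : Finset (Fin k) := univ.filter (fun j => R T x j) with hN'def
    have f1 : (A.card : ℝ) ≤ ∑ j ∈ N', ((univ.filter (fun v => T v = {x, j})).card : ℝ) := by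
      have : A.card ≤ ∑ j ∈ N', (univ.filter (fun v => T v = {x, j})).card := by
        refine le_trans (Finset.card_le_card ?_) Finset.card_biUnion_le
        intro v hv
        simp only [hA, Finset.mem_filter, Finset.mem_univ, true_and] at hv
        obtain ⟨a, b, hab, hT⟩ := Finset.card_eq_two.1 hv.1
        rw [Finset.mem_biUnion]
        have hx2 := hv.2
        rw [hT, Finset.mem_insert, Finset.mem_singleton] at hx2
        rcases hx2 with rfl | rfl
        · exact ⟨b, Finset.mem_filter.2 ⟨Finset.mem_univ _, hab, v, hT⟩,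
            Finset.mem_filter.2 ⟨Finset.mem_univ _, hT⟩⟩
        · have hT2 : T v = {x, a} := by rw [hT, Finset.pair_comm]
          exact ⟨a, Finset.mem_filter.2 ⟨Finset.mem_univ _, hab.symm, v, hT2⟩,
            Finset.mem_filter.2 ⟨Finset.mem_univ _, hT2⟩⟩
      exact_mod_cast this
    have f2 : ∀ j ∈ N', (1 - pr T x - c) * N +
        ((univ.filter (fun v => T v = {x, j})).card : ℝ) ≤ pr T j * N := by
      intro j hj
      obtain ⟨hxj, v, hv⟩ := (Finset.mem_filter.1 hj).2
      have g1 : ((univ.filter (fun w => x ∉ T w ∧ j ∉ T w)).card : ℝ) ≤ c * N := by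
        refine le_trans ?_ (hK.few v)
        have : (univ.filter (fun w => x ∉ T w ∧ j ∉ T w)).card ≤
            (univ.filter (fun w => T v ∩ T w = ∅)).card := by
          apply Finset.card_le_card
          intro w hw
          simp only [Finset.mem_filter, Finset.mem_univ, true_and] at hw ⊢
          rw [hv]
          ext z
          simp only [Finset.mem_inter, Finset.mem_insert, Finset.mem_singleton,
            Finset.notMem_empty, iff_false, not_and]
          rintro (rfl | rfl)
          · exact hw.1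
          · exact hw.2
        exact_mod_cast this
      have g2 : ((univ.filter (fun w => x ∉ T w ∧ j ∉ T w)).card : ℝ) +
          ((univ.filter (fun w => x ∉ T w ∧ j ∈ T w)).card : ℝ) = B.card := by
        have := Finset.card_filter_add_card_filter_not (s := B) (fun v => j ∉ T v)
        rw [hB, Finset.filter_filter, Finset.filter_filter] at this
        simp only [not_not] at this
        rw [hB]
        exact_mod_cast this
      have g3 : ((univ.filter (fun w => x ∉ T w ∧ j ∈ T w)).card : ℝ) +
          ((univ.filter (fun w => T w = {x, j})).card : ℝ) ≤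
          ((univ.filter (fun w => j ∈ T w)).card : ℝ) := by
        have hdis : Disjoint (univ.filter (fun w => x ∉ T w ∧ j ∈ T w))
            (univ.filter (fun w => T w = {x, j})) := by
          rw [Finset.disjoint_left]
          intro w hw hw2
          simp only [Finset.mem_filter, Finset.mem_univ, true_and] at hw hw2
          apply hw.1
          rw [hw2]
          simp
        have : (univ.filter (fun w => x ∉ T w ∧ j ∈ T w)).card +
            (univ.filter (fun w => T w = {x, j})).card ≤
            (univ.filter (fun w => j ∈ T w)).card := by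
          rw [← Finset.card_union_of_disjoint hdis]
          apply Finset.card_le_card
          intro w hw
          rw [Finset.mem_union] at hw
          simp only [Finset.mem_filter, Finset.mem_univ, true_and] at hw ⊢
          rcases hw with hw | hw
          · exact hw.2
          · rw [hw]
            simp
        exact_mod_cast this
      rw [STS_pr T j hNn]
      linarith
    have f3 := Finset.sum_le_sum f2
    rw [Finset.sum_add_distrib, Finset.sum_const, nsmul_eq_mul, ← Finset.sum_mul] at f3
    have f4 : (A.card / N + (N'.card : ℝ) * (1 - pr T x - c)) * N ≤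
        (∑ j ∈ N', pr T j) * N := by
      have e9 : (A.card : ℝ) / N * N = A.card := div_mul_cancel₀ _ hN.ne'
      nlinarith
    exact le_of_mul_le_mul_right f4 hN

end Pool.Agent.Work.MP_1ce445_win
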