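import Pool.Agent.Work.MP_1ce445_win.Interface

namespace Pool.Agent.Work.MP_1ce445_win

open Finset Pool.Agent.Work.MP_1ce445_co_56 Pool.Agent.Work.MP_1ce445_lin
open Pool.Agent.Work.MP_1ce445_k4 (R ad Is LB3 LBT LC5 LG6 LG7 LKE LK5)

theorem TG_num (x y : ℝ) (hx : 0 ≤ x) (hy : 0 ≤ y)
    (h : 1 ≤ y * ∑ i ∈ Finset.range 10, x ^ i / (i.factorial : ℝ)) : Real.exp (-x) ≤ y := by
  have h1 := Real.sum_le_exp_of_nonneg hx 10
  have h2 : 1 ≤ y * Real.exp x := h.trans (mul_le_mul_of_nonneg_left h1 hy)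
  have h3 : Real.exp (-x) * Real.exp x = 1 := by rw [← Real.exp_add]; simp
  have h4 : 0 < Real.exp x := Real.exp_pos x
  have h5 : Real.exp (-x) * Real.exp x ≤ y * Real.exp x := by rw [h3]; exact h2
  exact le_of_mul_le_mul_right h5 h4

/-- convexity of `exp` between two points -/
theorem TG_cvx (A B u v t : ℝ) (ht : 0 ≤ t) (ht1 : t ≤ 1) (hA : Real.exp A ≤ u)
    (hB : Real.exp B ≤ v) : Real.exp ((1 - t) * A + t * B) ≤ (1 - t) * u + t * v := by
  have h := convexOn_exp.2 (Set.mem_univ A) (Set.mem_univ B) (sub_nonneg.2 ht1) ht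
    (by ring : (1 - t) + t = 1)
  simp only [smul_eq_mul] at h
  have h1 : (1 - t) * Real.exp A ≤ (1 - t) * u := mul_le_mul_of_nonneg_left hA (sub_nonneg.2 ht1)
  have h2 : t * Real.exp B ≤ t * v := mul_le_mul_of_nonneg_left hB ht
  linarith

theorem stmt_TG : Stmt_TG := by
  intro c a m hc1 hc2 h1 h2
  unfold GG
  have e1 : Real.exp (-(30691 / 40000)) ≤ 13 / 28 :=
    TG_num _ _ (by norm_num) (by norm_num)
      (by norm_num [Finset.sum_range_succ, Nat.factorial])
  have e2 : Real.exp (-(29501 / 40000)) ≤ (13 + 35 / 84) / 28 :=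
    TG_num _ _ (by norm_num) (by norm_num)
      (by norm_num [Finset.sum_range_succ, Nat.factorial])
  set t : ℝ := (c - 1 / 7) * 42 with ht
  have hct : c = 1 / 7 + t / 42 := by rw [ht]; ring
  have t0 : 0 ≤ t := by rw [ht]; exact mul_nonneg (by linarith) (by norm_num)
  have t1 : t ≤ 1 := by rw [ht]; linarith
  have h3 := TG_cvx _ _ _ _ t t0 t1 e1 e2
  have h4 : a + m * c ≤ 4 * ((1 - t) * (-(30691 / 40000)) + t * (-(29501 / 40000))) := by
    rw [hct]
    nlinarith [mul_le_mul_of_nonneg_left h1 (sub_nonneg.2 t1), mul_le_mul_of_nonneg_left h2 t0]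
  have h5 : Real.exp (a + m * c) ≤
      Real.exp ((1 - t) * (-(30691 / 40000)) + t * (-(29501 / 40000))) ^ 4 := by
    rw [← Real.exp_nat_mul]
    refine Real.exp_le_exp.2 (h4.trans (le_of_eq ?_))
    push_cast; ring
  have hs : Real.sqrt (c * (1 - 6 * c)) ≤ 1 / 7 - 5 / 2 * (t / 42) := by
    apply Real.sqrt_le_iff.2
    constructor
    · linarith
    · rw [hct]
      nlinarith [mul_nonneg t0 t0]
  have h6 : Real.exp ((1 - t) * (-(30691 / 40000)) + t * (-(29501 / 40000))) ≤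
      (2 - Real.sqrt (c * (1 - 6 * c))) / 4 := by
    refine h3.trans ?_
    linarith
  exact h5.trans (pow_le_pow_left₀ (Real.exp_pos _).le h6 4)

end Pool.Agent.Work.MP_1ce445_win
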