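import Pool.Agent.Work.MP_1ce445_win.Interface

/-! Block TGE of MP_1ce445_win. -/

namespace Pool.Agent.Work.MP_1ce445_win

open Finset Pool.Agent.Work.MP_1ce445_co_56 Pool.Agent.Work.MP_1ce445_lin
open Pool.Agent.Work.MP_1ce445_k4 (R ad Is LB3 LBT LC5 LG6 LG7 LKE LK5)

theorem stmt_TGE : Stmt_TGE := by
  intro c hc1 hc2
  obtain ⟨h, rfl⟩ : ∃ h : ℝ, c = 1 / 7 + h := ⟨c - 1 / 7, by ring⟩
  have h0 : 0 ≤ h := by linarith
  have h1 : h ≤ 1 / 42 := by linarith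
  have hr0 : 0 ≤ 1 / 7 - 5 / 2 * h - 42 * h ^ 2 := by nlinarith
  have hsq : Real.sqrt ((1 / 7 + h) * (1 - 6 * (1 / 7 + h))) ≤ 1 / 7 - 5 / 2 * h - 42 * h ^ 2 := by
    rw [Real.sqrt_le_left hr0]
    have h3 : 0 ≤ h ^ 3 := by positivity
    have h4 : 0 ≤ h ^ 4 := by positivity
    nlinarith [sq_nonneg h]
  have hE : Real.exp (-9 / 7 + 48 / 7 * (1 / 7 + h)) =
      Real.exp (-(15 / 196) + 12 / 7 * h) ^ 4 := by
    rw [← Real.exp_nat_mul]; congr 1; push_cast; ring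
  have hA : Real.exp (-(15 / 196)) ≤ 9264 / 10000 := by
    rw [Real.exp_neg]
    have hq := Real.quadratic_le_exp_of_nonneg (x := 15 / 196) (by norm_num)
    have hp : (0 : ℝ) < 10000 / 9264 := by norm_num
    have : (10000 / 9264 : ℝ) ≤ Real.exp (15 / 196) := by
      refine le_trans ?_ hq; norm_num
    calc (Real.exp (15 / 196))⁻¹ ≤ (10000 / 9264 : ℝ)⁻¹ := inv_anti₀ hp this
      _ = 9264 / 10000 := by norm_num
  have hB : Real.exp (12 / 7 * h) ≤ 1 + 12 / 7 * h + (12 / 7 * h) ^ 2 := by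
    have := Real.abs_exp_sub_one_sub_id_le (x := 12 / 7 * h)
      (by rw [abs_of_nonneg (by positivity)]; linarith)
    have h2 := (abs_le.mp this).2
    linarith
  have hC : Real.exp (-(15 / 196) + 12 / 7 * h) * (4986 / 10000) ≤
      (13 + 35 / 2 * h + 294 * h ^ 2) / 28 := by
    rw [Real.exp_add]
    have hpos : 0 ≤ Real.exp (12 / 7 * h) := (Real.exp_pos _).le
    calc Real.exp (-(15 / 196)) * Real.exp (12 / 7 * h) * (4986 / 10000)
        ≤ 9264 / 10000 * (1 + 12 / 7 * h + (12 / 7 * h) ^ 2) * (4986 / 10000) := by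
          refine mul_le_mul_of_nonneg_right ?_ (by norm_num)
          exact mul_le_mul hA hB hpos (by norm_num)
      _ ≤ (13 + 35 / 2 * h + 294 * h ^ 2) / 28 := by nlinarith [sq_nonneg (h - 9 / 1000)]
  have hD : 0 ≤ Real.exp (-(15 / 196) + 12 / 7 * h) := (Real.exp_pos _).le
  unfold GG
  rw [hE]
  calc Real.exp (-(15 / 196) + 12 / 7 * h) ^ 4 * (42 / 169) ^ 2
      ≤ Real.exp (-(15 / 196) + 12 / 7 * h) ^ 4 * (4986 / 10000) ^ 4 := by
        refine mul_le_mul_of_nonneg_left (by norm_num) (pow_nonneg hD 4)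
    _ = (Real.exp (-(15 / 196) + 12 / 7 * h) * (4986 / 10000)) ^ 4 := by ring
    _ ≤ ((13 + 35 / 2 * h + 294 * h ^ 2) / 28) ^ 4 :=
        pow_le_pow_left₀ (mul_nonneg hD (by norm_num)) hC 4
    _ ≤ ((2 - Real.sqrt ((1 / 7 + h) * (1 - 6 * (1 / 7 + h)))) / 4) ^ 4 := by
        refine pow_le_pow_left₀ (by positivity) ?_ 4
        linarith

end Pool.Agent.Work.MP_1ce445_win
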