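import Pool.Agent.Work.MP_1ce445_win.Interface

namespace Pool.Agent.Work.MP_1ce445_win

open Finset Pool.Agent.Work.MP_1ce445_co_56 Pool.Agent.Work.MP_1ce445_lin
open Pool.Agent.Work.MP_1ce445_k4 (R ad Is LB3 LBT LC5 LG6 LG7 LKE LK5)

theorem stmt_TRI (hLPC : Pool.Agent.Work.MP_1ce445_s7.Stmt_LPC) (hTHR : Stmt_THR)
    (hTG : Stmt_TG) : Stmt_TRI := by
  intro V _ k M T c hK x1 x2 x3 h12 h23 h31 h2
  classical
  by_cases hfew : ((univ.filter (fun v => (T v).card = 2)).card : ℝ) ≤ 9 / 20 * Fintype.card V
  · exact hTHR M T c hK hfew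
  push Not at hfew
  have hN : (0 : ℝ) < Fintype.card V := by exact_mod_cast hK.pos
  set X : Finset (Fin k) := {x1, x2, x3} with hX
  -- every T v meets X
  have hmeet : ∀ v, (T v ∩ X).Nonempty := by
    intro v
    by_contra hcon
    rw [Finset.not_nonempty_iff_eq_empty] at hcon
    have hsub : univ.filter (fun w => (T w).card = 2) ⊆ univ.filter (fun w => T v ∩ T w = ∅) := by
      intro w hw
      rw [Finset.mem_filter] at hw ⊢
      refine ⟨Finset.mem_univ _, ?_⟩
      have h3 := h2 w hw.2
      apply Finset.subset_empty.mp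
      rw [← hcon]
      exact Finset.inter_subset_inter (Finset.Subset.refl _) h3
    have h4 : ((univ.filter (fun w => (T w).card = 2)).card : ℝ) ≤
        ((univ.filter (fun w => T v ∩ T w = ∅)).card : ℝ) := by
      exact_mod_cast Finset.card_le_card hsub
    have h5 := hK.few v
    have h6 : c * (Fintype.card V : ℝ) ≤ 1 / 6 * Fintype.card V :=
      mul_le_mul_of_nonneg_right hK.cu hN.le
    nlinarith
  have hinj : Function.Injective (![x1, x2, x3] : Fin 3 → Fin k) := by
    intro i j hij
    fin_cases i <;> fin_cases j <;> simp_all [h12.1, h23.1, h31.1, h12.1.symm, h23.1.symm,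
      h31.1.symm]
  have hsum : ∀ v, (∑ i : Fin 3, if (![x1, x2, x3] : Fin 3 → Fin k) i ∈ T v then (2 : ℝ) - 1 else 0) =
      ((T v ∩ X).card : ℝ) := by
    intro v
    have e1 : (univ : Finset (Fin 3)).image (![x1, x2, x3] : Fin 3 → Fin k) = X := by
      ext y
      simp only [Finset.mem_image, Finset.mem_univ, true_and, hX, Finset.mem_insert,
        Finset.mem_singleton, Fin.exists_fin_succ]
      simp [eq_comm]
    rw [← e1, Finset.inter_comm, ← Finset.filter_mem_eq_inter, Finset.card_filter]
    push_cast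
    rw [Finset.sum_image (fun i _ j _ h => hinj h)]
    apply Finset.sum_congr rfl
    intro i _
    split_ifs <;> norm_num
  have hmain := hLPC M T hK.pos hK.sub 3 ![x1, x2, x3] (fun _ => 2) (fun _ => 0) 4 hinj
    (fun _ => by norm_num) (by
      intro v
      rw [hsum v]
      have h7 : 1 ≤ (T v ∩ X).card := Finset.card_pos.mpr (hmeet v)
      have h8 := hK.two v
      have h9 : 4 ≤ (T v).card + (T v ∩ X).card := by
        by_cases h10 : (T v).card = 2
        · have h11 := h2 v h10
          rw [Finset.inter_eq_left.mpr h11]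
          omega
        · omega
      have h12 : (4 : ℝ) ≤ (T v).card + (T v ∩ X).card := by exact_mod_cast h9
      linarith)
  refine hmain.trans ?_
  have hl := Real.log_two_gt_d9
  have hG := hTG c (3 * (1 - Real.log 2) - 4) 0 hK.cl hK.cu (by linarith) (by linarith)
  refine le_trans (Real.exp_le_exp.mpr ?_) hG
  have hnn : ∀ s : Finset (Fin k), 0 ≤ (∑ x ∈ s, pr T x ^ 2) / 2 := fun s =>
    div_nonneg (Finset.sum_nonneg fun _ _ => sq_nonneg _) (by norm_num)
  refine le_trans (sub_le_self _ (hnn _)) ?_
  simp only [Finset.sum_const, Finset.card_univ, Fintype.card_fin, nsmul_eq_mul, mul_zero,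
    zero_div]
  push_cast
  linarith

end Pool.Agent.Work.MP_1ce445_win
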