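import Pool.Agent.Work.MP_1ce445_win.Interface

/-!
# Block TRP (MP_1ce445_co, the window from 1/7 to 1/6)
-/

namespace Pool.Agent.Work.MP_1ce445_win

open Finset Pool.Agent.Work.MP_1ce445_co_56 Pool.Agent.Work.MP_1ce445_lin
open Pool.Agent.Work.MP_1ce445_k4 (R ad Is LB3 LBT LC5 LG6 LG7 LKE LK5)

theorem TRP_q (s : ℝ) (hs : 5 / 84 ≤ s) :
    0 ≤ 21 / 5 * s ^ 4 + 28 / 5 * s ^ 3 - 231 / 25 * s ^ 2 + 147 / 50 * s - 1 / 16 := by
  obtain ⟨u, hu⟩ : ∃ u, u = s - 1 / 2 := ⟨_, rfl⟩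
  have hs' : s = u + 1 / 2 := by linarith
  subst hs'
  have h1 : 0 ≤ (u + 37 / 84) * (21 / 5 * u + 243 / 20) := by
    apply mul_nonneg <;> linarith
  have h2 : 0 ≤ u ^ 2 * ((u + 37 / 84) * (21 / 5 * u + 243 / 20)) := mul_nonneg (sq_nonneg u) h1
  have h3 := sq_nonneg u
  nlinarith [h2, h3]

theorem TRP_poly (s d : ℝ) (hd0 : 0 ≤ d) (hds : d ≤ s) :
    19 / 20 * (s - d) + 7 / 10 * d + 21 / 5 * ((s - d) * d) ≤
      s + s ^ 2 / 2 + s ^ 3 / 3 + s ^ 4 / 4 := by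
  have hs0 : 0 ≤ s := le_trans hd0 hds
  rcases le_total s (5 / 84) with h | h
  · have h1 : 0 ≤ d * (1 / 4 - 21 / 5 * s) := mul_nonneg hd0 (by linarith)
    have h2 : 0 ≤ d ^ 2 := sq_nonneg d
    have h3 : 0 ≤ s ^ 2 := sq_nonneg s
    have h4 : 0 ≤ s ^ 3 := pow_nonneg hs0 3
    have h5 : 0 ≤ s ^ 4 := pow_nonneg hs0 4
    linarith
  · have h1 := TRP_q s h
    have h2 := sq_nonneg (42 / 5 * d + (1 / 4 - 21 / 5 * s))
    linarith

theorem TRP_log (s : ℝ) (h0 : 0 ≤ s) (h1 : s < 1) :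
    1 - s ≤ Real.exp (-(s + s ^ 2 / 2 + s ^ 3 / 3 + s ^ 4 / 4)) := by
  have hs := Real.hasSum_pow_div_log_of_abs_lt_one (x := s) (by rw [abs_of_nonneg h0]; exact h1)
  have h2 := sum_le_hasSum (Finset.range 4) (fun i _ => by positivity) hs
  rw [Finset.sum_range_succ, Finset.sum_range_succ, Finset.sum_range_succ,
    Finset.sum_range_one] at h2
  norm_num at h2
  have h3 : (0 : ℝ) < 1 - s := by linarith
  rw [← Real.log_le_iff_le_exp h3]
  linarith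

theorem stmt_TRP : Stmt_TRP := by
  intro b d hb hd hbd
  obtain ⟨s, hs⟩ : ∃ s, s = b + d := ⟨_, rfl⟩
  have hb' : b = s - d := by linarith
  subst hb'
  have hs0 : 0 ≤ s := by linarith
  have hs1 : s ≤ 1 := by linarith
  have he : (s - d) + d = s := by ring
  rw [he]
  rcases hs1.lt_or_eq with h | h
  · have h1 := TRP_log s hs0 h
    have h2 := TRP_poly s d hd (by linarith)
    refine le_trans h1 (Real.exp_le_exp.2 ?_)
    linarith
  · rw [h]
    have := Real.exp_pos (-(19 / 20 * (1 - d) + 7 / 10 * d + 21 / 5 * ((1 - d) * d)))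
    linarith

end Pool.Agent.Work.MP_1ce445_win
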