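import Pool.Agent.Work.MP_1ce445_win.Interface
import Pool.Agent.Work.MP_1ce445_lim.Tools
import Pool.Agent.Work.MP_1ce445_low.PS

/-!
The value of the limit function in the window `1/7 ≤ c ≤ 1/6` from the upper bound `Stmt_UPW`.
-/

namespace Pool.Agent.Work.MP_1ce445_win

open Finset Pool.Agent.Work.MP_1ce445_co_56 Pool.Agent.Work.MP_1ce445_lin
open Pool.Agent.Work.MP_1ce445_low

theorem GG_cont : Continuous GG := by
  unfold GG
  fun_prop

/-- the upper bound inside the window -/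
theorem WinFF_le (hU : Stmt_UPW) (c : ℝ) (h1 : 1 / 7 < c) (h2 : c < 1 / 6) : FF c ≤ GG c := by
  apply Pool.Agent.Work.MP_1ce445_lim.FF_le_of_P c (GG c) (by linarith) (by linarith)
  intro ε hε
  obtain ⟨n0, hn0⟩ := hU (ε / 2) (by linarith)
  obtain ⟨δ1, hδ1, hc⟩ := Metric.continuous_iff.mp GG_cont c (ε / 2) (by linarith)
  set δ : ℝ := min (δ1 / 2) (min (c - 1 / 7) (1 / 6 - c)) with hδ
  have hδp : 0 < δ := lt_min (by linarith) (lt_min (by linarith) (by linarith))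
  have d1 : δ ≤ δ1 / 2 := min_le_left _ _
  have d2 : δ ≤ c - 1 / 7 := (min_le_right _ _).trans (min_le_left _ _)
  have d3 : δ ≤ 1 / 6 - c := (min_le_right _ _).trans (min_le_right _ _)
  refine ⟨δ, max n0 1, hδp, ?_⟩
  intro n k hn hk
  have hn1 : n0 ≤ n := le_trans (le_max_left _ _) hn
  have hn2 : 1 ≤ n := le_trans (le_max_right _ _) hn
  have hnp : (0 : ℝ) < n := by exact_mod_cast hn2
  rw [abs_le] at hk
  have k1 : (n : ℝ) / 7 ≤ k := by nlinarith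
  have k2 : (k : ℝ) ≤ n / 6 := by nlinarith
  have e1 := hn0 n k hn1 k1 k2
  have e2 : dist ((k : ℝ) / n) c < δ1 := by
    rw [Real.dist_eq, abs_lt]
    constructor
    · rw [lt_sub_iff_add_lt, lt_div_iff₀ hnp]
      nlinarith
    · rw [sub_lt_iff_lt_add, div_lt_iff₀ hnp]
      nlinarith
  have e3 := hc _ e2
  rw [Real.dist_eq, abs_lt] at e3
  have e4 : (0 : ℝ) ≤ (NN n : ℝ) ^ k := by positivity
  refine e1.trans (mul_le_mul_of_nonneg_right ?_ e4)
  linarith [e3.2]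

/-- THE WINDOW: the limit function is `((2 - √(c (1 - 6 c))) / 4) ^ 4` for `1/7 ≤ c ≤ 1/6`. -/
theorem WinFF_eq (hU : Stmt_UPW) (c : ℝ) (h1 : 1 / 7 ≤ c) (h2 : c ≤ 1 / 6) : FF c = GG c := by
  have hcnt := Pool.Agent.Work.MP_1ce445_low.h_CNT.2
  have hin : ∀ x ∈ Set.Ioo (1 / 7 : ℝ) (1 / 6), FF x = GG x := by
    intro x hx
    apply le_antisymm (WinFF_le hU x hx.1 hx.2)
    apply Pool.Agent.Work.MP_1ce445_lim.le_FF
    exact Pool.Agent.Work.MP_1ce445_low.stmt_PS x hx.1.le hx.2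
  have hsub : Set.Icc (1 / 7 : ℝ) (1 / 6) ⊆ Set.Ioo (0 : ℝ) 1 := by
    intro x hx
    exact ⟨by linarith [hx.1], by linarith [hx.2]⟩
  have hcl : Set.Icc (1 / 7 : ℝ) (1 / 6) ⊆ closure (Set.Ioo (1 / 7 : ℝ) (1 / 6)) := by
    rw [closure_Ioo (by norm_num)]
  have heq : Set.EqOn FF GG (Set.Ioo (1 / 7 : ℝ) (1 / 6)) := hin
  have := heq.of_subset_closure (hcnt.mono hsub) GG_cont.continuousOn
    (Set.Ioo_subset_Icc_self) hcl
  exact this ⟨h1, h2⟩

end Pool.Agent.Work.MP_1ce445_win
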